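import Pool.Agent.CA.Defs

/-!
# Prime index refinements
-/

set_option autoImplicit false

namespace Pool.Agent.CA

/-- `μ' : G → Q'` refines `μ : G → Q` along `π : Q' → Q` and `f` identifies `ker μ / ker μ'` with
`ZMod p` -/
structure Ind {G Q Q' : Type} [AddCommGroup G] [AddCommGroup Q] [AddCommGroup Q'] (μ : G →+ Q)
    (μ' : G →+ Q') (π : Q' →+ Q) (p : ℕ) where
  surj : Function.Surjective μ'
  comp : ∀ g, π (μ' g) = μ g
  f : G → ZMod p
  add : ∀ a b, μ a = 0 → μ b = 0 → f (a + b) = f a + f b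
  ker : ∀ a, μ a = 0 → (f a = 0 ↔ μ' a = 0)
  one : ∃ a, μ a = 0 ∧ f a = 1

/-- a nonzero vector over `ZMod p` is not killed by some linear functional -/
theorem exists_hom_ne_zero_module {W : Type*} [AddCommGroup W] (p : ℕ) [Fact p.Prime]
    [Module (ZMod p) W] (y : W) (hy : y ≠ 0) : ∃ φ : W →+ ZMod p, φ y = 1 := by
  by_contra hcon
  push Not at hcon
  apply hy
  rw [← Module.forall_dual_apply_eq_zero_iff (ZMod p)]
  intro φ
  by_contra h
  refine hcon (LinearMap.toAddMonoidHom ((φ y)⁻¹ • φ)) ?_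
  simp [h]

/-- a nonzero element of an elementary abelian `p`-group is not killed by some homomorphism -/
theorem exists_hom_ne_zero {W : Type*} [AddCommGroup W] (p : ℕ) [Fact p.Prime]
    (hW : ∀ w : W, p • w = 0) (y : W) (hy : y ≠ 0) : ∃ φ : W →+ ZMod p, φ y = 1 := by
  let _ : Module (ZMod p) W := AddCommGroup.zmodModule hW
  exact exists_hom_ne_zero_module p y hy

/-- a finite abelian group of order divisible by `p` maps onto `ZMod p` -/
theorem exists_hom_zmod {K : Type*} [AddCommGroup K] [Finite K] (p : ℕ) [Fact p.Prime]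
    (hp : p ∣ Nat.card K) : ∃ φ : K →+ ZMod p, ∃ a, φ a = 1 := by
  classical
  have hp0 : p.Prime := Fact.out
  obtain ⟨x, hx⟩ := exists_prime_addOrderOf_dvd_card' p hp
  have hx0 : x ≠ 0 := by
    rintro rfl
    rw [addOrderOf_zero] at hx
    exact hp0.one_lt.ne hx
  have hpx : p • x = 0 := by
    rw [← hx]
    exact addOrderOf_nsmul_eq_zero x
  let m : K →+ K := nsmulAddMonoidHom p
  have hninj : ¬ Function.Injective m := by
    intro h
    exact hx0 (h (by simpa [m] using hpx))
  have hnsurj : ¬ Function.Surjective m := fun h => hninj (Finite.injective_iff_surjective.2 h)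
  obtain ⟨y, hy⟩ : ∃ y, y ∉ m.range := by
    by_contra hcon
    push Not at hcon
    exact hnsurj fun y => hcon y
  let W := K ⧸ m.range
  have hW : ∀ w : W, p • w = 0 := by
    intro w
    induction w using QuotientAddGroup.induction_on with
    | H z =>
      rw [← QuotientAddGroup.mk_nsmul, QuotientAddGroup.eq_zero_iff]
      exact ⟨z, rfl⟩
  have hy0 : (QuotientAddGroup.mk y : W) ≠ 0 := by
    rw [Ne, QuotientAddGroup.eq_zero_iff]
    exact hy
  obtain ⟨φ, hφ⟩ := exists_hom_ne_zero p hW _ hy0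
  exact ⟨φ.comp (QuotientAddGroup.mk' m.range), y, hφ⟩

/-- existence of a refinement of prime index -/
theorem exists_ind {G Q : Type} [AddCommGroup G] [Finite G] [AddCommGroup Q] (μ : G →+ Q)
    (p : ℕ) [Fact p.Prime] (hp : p ∣ Nat.card μ.ker) :
    ∃ (Q' : Type) (_ : AddCommGroup Q') (_ : Finite Q') (μ' : G →+ Q') (π : Q' →+ Q),
      Nonempty (Ind μ μ' π p) ∧ Nat.card μ'.ker * p = Nat.card μ.ker := by
  classical
  obtain ⟨φ, a, ha⟩ := exists_hom_zmod (K := μ.ker) p hp
  let V' : AddSubgroup G := φ.ker.map μ.ker.subtype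
  have hmem : ∀ x, x ∈ V' ↔ ∃ h : μ x = 0, φ ⟨x, h⟩ = 0 := by
    intro x
    constructor
    · rintro ⟨z, hz, rfl⟩
      exact ⟨z.2, hz⟩
    · rintro ⟨h, hx⟩
      exact ⟨⟨x, h⟩, hx, rfl⟩
  have hle : V' ≤ μ.ker := by
    rintro x hx
    exact ((hmem x).1 hx).1
  refine ⟨G ⧸ V', inferInstance, inferInstance, QuotientAddGroup.mk' V',
    QuotientAddGroup.lift V' μ hle, ⟨?_⟩, ?_⟩
  · refine ⟨QuotientAddGroup.mk'_surjective V', fun g => rfl,
      fun x => if h : μ x = 0 then φ ⟨x, h⟩ else 0, ?_, ?_, ?_⟩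
    · intro b c hb hc
      have hbc : μ (b + c) = 0 := by rw [map_add, hb, hc, add_zero]
      simp only [hb, hc, hbc, dif_pos]
      rw [← map_add]
      rfl
    · intro b hb
      simp only [hb, dif_pos]
      rw [QuotientAddGroup.mk'_apply, QuotientAddGroup.eq_zero_iff, hmem]
      exact ⟨fun h => ⟨hb, h⟩, fun ⟨_, h⟩ => h⟩
    · refine ⟨a.1, a.2, ?_⟩
      have : μ a.1 = 0 := a.2
      simp only [this, dif_pos]
      exact ha
  · rw [QuotientAddGroup.ker_mk']
    have h1 : Nat.card V' = Nat.card φ.ker :=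
      Nat.card_congr (φ.ker.equivMapOfInjective μ.ker.subtype
        (Subtype.val_injective)).symm.toEquiv
    have h2 : Function.Surjective φ := by
      intro z
      refine ⟨z.val • a, ?_⟩
      rw [map_nsmul, ha, nsmul_one, ZMod.natCast_zmod_val]
    have h3 : Nat.card φ.ker * Nat.card φ.range = Nat.card μ.ker := by
      rw [← AddSubgroup.card_mul_index φ.ker, AddSubgroup.index_ker]
    have h4 : Nat.card φ.range = p := by
      rw [AddMonoidHom.range_eq_top.2 h2, AddSubgroup.card_top, Nat.card_zmod]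
    rw [h1, ← h3, h4]

end Pool.Agent.CA
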