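import Mathlib

/-!
# Linear arboricity of abelian Cayley graphs: definitions

Notation. A half-edge is a pair `(x, t)`, `x` a vertex (an element of the quotient `Q` of `G`), `t` a
slot. `L x` is a bijection from the slots to the label indices, the label of the half-edge
`(x, t)` is `e (L x t)`.
-/

set_option autoImplicit false

namespace Pool.Agent.CA

open Equiv

/-! ### Linear forests -/

section LF

variable {T ι κ : Type} [AddCommGroup T]

/-- the signed label of the dart `d` -/
def sa (a : ι → T) (d : ι × Bool) : T := if d.2 then a d.1 else -a d.1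

/-- The colour of the dart `d` at `x`; `col x i` is the colour of the edge `{x, x + a i}`. -/
def cd (a : ι → T) (col : T → ι → κ) (x : T) (d : ι × Bool) : κ :=
  if d.2 then col x d.1 else col (x - a d.1) d.1

/-- a set of vertices is closed under the edges of colour `k` -/
def Clo (a : ι → T) (col : T → ι → κ) (k : κ) (C : Set T) : Prop :=
  ∀ x ∈ C, ∀ d, cd a col x d = k → x + sa a d ∈ C

/-- every colour class is a linear forest: all degrees are at most two and every nonempty union of
components contains a vertex of degree at most one -/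
structure LF (a : ι → T) (col : T → ι → κ) : Prop where
  deg : ∀ x k, {d | cd a col x d = k}.ncard ≤ 2
  acyc : ∀ k (C : Set T), C.Nonempty → Clo a col k C → ∃ x ∈ C, {d | cd a col x d = k}.ncard ≠ 2

/-- the dart `d` at `x` belongs to the set `N` of edges -/
def Dart (a : ι → T) (N : Set (T × ι)) (x : T) (d : ι × Bool) : Prop :=
  if d.2 then (x, d.1) ∈ N else (x - a d.1, d.1) ∈ N

/-- A decomposition of the Cayley multigraph of `a` into `2`-factors together with a set `NN` of
edges such that every cycle of the `2`-factors contains two edges of `NN`. The edges of `NN` join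
consecutive levels `lev`, at most one upwards and one downwards at every vertex. `M` is a subgroup
of index `p`, generated together with `s`; the first level is `M`, the last level is `M - s`. -/
structure Fac (M : AddSubgroup T) (s : T) (p : ℕ) (a : ι → T) where
  col : T → ι → ι
  NN : Set (T × ι)
  lev : T → ℕ
  two : ∀ x j, {d | cd a col x d = j}.ncard = 2
  lev_lt : ∀ x, lev x < p
  lev_zero : ∀ x, lev x = 0 ↔ x ∈ M
  lev_last : ∀ x, lev x = p - 1 ↔ x + s ∈ M
  step : ∀ x d, Dart a NN x d → lev (x + sa a d) = lev x + 1 ∨ lev x = lev (x + sa a d) + 1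
  up : ∀ x d d', Dart a NN x d → Dart a NN x d' → lev (x + sa a d) = lev x + 1 →
    lev (x + sa a d') = lev x + 1 → d = d'
  down : ∀ x d d', Dart a NN x d → Dart a NN x d' → lev x = lev (x + sa a d) + 1 →
    lev x = lev (x + sa a d') + 1 → d = d'
  loops : ∀ j (C : Set T), C.Nonempty → Clo a col j C →
    ∃ e₁ ∈ NN, ∃ e₂ ∈ NN, e₁ ≠ e₂ ∧ col e₁.1 e₁.2 = j ∧ col e₂.1 e₂.2 = j ∧ e₁.1 ∈ C ∧ e₂.1 ∈ C

end LF

/-! ### Systems of loops -/

section Sys

variable {G Q Sl : Type} [AddCommGroup G] [AddCommGroup Q]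

/-- the label of a half-edge -/
def lab (e : Sl → G) (L : Q → Perm Sl) (h : Q × Sl) : G := e (L h.1 h.2)

/-- the label of a half-edge with sign `+`, else `0` -/
def outl (e : Sl → G) (sg : Sl → Bool) (L : Q → Perm Sl) (h : Q × Sl) : G :=
  if sg h.2 then lab e L h else 0

/-- the label of a half-edge with sign `-`, else `0` -/
def inl (e : Sl → G) (sg : Sl → Bool) (L : Q → Perm Sl) (h : Q × Sl) : G :=
  if sg h.2 then 0 else lab e L h

/-- the signed label of a half-edge -/
def sig (e : Sl → G) (sg : Sl → Bool) (L : Q → Perm Sl) (h : Q × Sl) : G :=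
  if sg h.2 then lab e L h else -lab e L h

/-- A labelling `L` of the half-edges at every vertex such that every slot is a perfect matching
`x ↦ x + μ (label)`, and the successor on the half-edges: leave `x` by a `+` half-edge, arrive at a
vertex by a `-` half-edge (if the next slot is a `-` slot). The loops are the cycles of `succ`. -/
structure Sys (e : Sl → G) (sg : Sl → Bool) (nx : Perm Sl) (μ : G →+ Q) where
  L : Q → Perm Sl
  succ : Perm (Q × Sl)
  bij : ∀ t, Function.Bijective fun x : Q => x + μ (e (L x t))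
  snd : ∀ h, (succ h).2 = nx h.2
  fst : ∀ h, (succ h).1 + μ (inl e sg L (succ h)) = h.1 + μ (outl e sg L h)

variable {e : Sl → G} {sg : Sl → Bool} {nx : Perm Sl} {μ : G →+ Q}

/-- the length of the loop of `h` -/
noncomputable def Sys.per (S : Sys e sg nx μ) (h : Q × Sl) : ℕ := Function.minimalPeriod S.succ h

/-- sum of the signed labels of the first `k` half-edges of the loop, starting with `h` -/
def Sys.F (S : Sys e sg nx μ) (h : Q × Sl) (k : ℕ) : G :=
  ∑ i ∈ Finset.range k, sig e sg S.L ((S.succ ^ i) h)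

/-- the holonomy of the loop of `h` -/
noncomputable def Sys.hol (S : Sys e sg nx μ) (h : Q × Sl) : G := S.F h (S.per h)

/-- `(sum over the arc from h to succ^m h) - (sum over the other arc)`, both without the ends -/
noncomputable def Sys.arc (S : Sys e sg nx μ) (h : Q × Sl) (m : ℕ) : G :=
  S.F h m + S.F h m - S.hol h - sig e sg S.L h + sig e sg S.L ((S.succ ^ m) h)

/-- A system with a set `D` of designated half-edges. All designated half-edges at a vertex `x` have
the same class `ν x` of labels, and `x ↦ x + ν x` is injective. -/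
structure St (e : Sl → G) (sg : Sl → Bool) (nx : Perm Sl) (μ : G →+ Q) extends
    Sys e sg nx μ where
  D : Set (Q × Sl)
  wd : ∀ h ∈ D, ∀ h' ∈ D, h.1 = h'.1 → μ (lab e L h) = μ (lab e L h')
  inj : ∀ h ∈ D, ∀ h' ∈ D, h.1 + μ (lab e L h) = h'.1 + μ (lab e L h') → h.1 = h'.1

/-- the designated half-edges on the loop of `h` -/
def St.DL (S : St e sg nx μ) (h : Q × Sl) : Set (Q × Sl) := {d | d ∈ S.D ∧ S.succ.SameCycle h d}

/-- the sign of a half-edge relative to the orientation `η` of the vertices -/
def ns (sg : Sl → Bool) (η : Q → Bool) (h : Q × Sl) : Bool := sg h.2 == η h.1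

/-- the invariant in the odd phase; `I` says whether the two arcs of the `2`-ended loops must have
equal sums -/
def OddGood (S : St e sg nx μ) (η : Q → Bool) (I : Prop) : Prop :=
  ∀ h, (∃ p q, p ≠ q ∧ S.DL h = {p, q} ∧ ns sg η p ≠ ns sg η q ∧
      (I → ∃ m, 0 < m ∧ m < S.per p ∧ (S.succ ^ m) p = q ∧ S.arc p m = 0)) ∨
    (3 ≤ (S.DL h).ncard ∧ Set.InjOn Prod.fst (S.DL h) ∧
      ∀ d ∈ S.DL h, ∀ d' ∈ S.DL h, ns sg η d = ns sg η d')

/-- the invariant in the `2`-phase -/
def TwoGood (S : St e sg nx μ) (Δ : Q → G) : Prop :=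
  ∀ h, (∃ p q, p ≠ q ∧ S.DL h = {p, q} ∧
      ∃ m, 0 < m ∧ m < S.per p ∧ (S.succ ^ m) p = q ∧ S.arc p m = Δ q.1 - Δ p.1) ∨
    (3 ≤ (S.DL h).ncard ∧ Set.InjOn Prod.fst (S.DL h))

/-- `S'` refines `S` along `π` -/
def Ref {Q' : Type} [AddCommGroup Q'] {μ' : G →+ Q'} (π : Q' →+ Q) (S' : St e sg nx μ')
    (S : St e sg nx μ) : Prop :=
  ∀ h ∈ S'.D, (π h.1, h.2) ∈ S.D ∧ μ (lab e S'.L h) = μ (lab e S.L (π h.1, h.2))

end Sys

/-! ### The two combinatorial statements -/

/-- The combinatorial odd step. `H`: half-edges, `v`: their vertices, `l`: their loops, `s`: signs. The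
labels `b₀` are permuted at every vertex by `w`. `κ x = some k`: type `C k`, `κ x = none`: type `I`. -/
def OddComb : Prop :=
  ∀ (p : ℕ) [Fact p.Prime], p ≠ 2 → ∀ (V Lp H : Type) [Finite V] [Finite Lp] [Fintype H]
    [DecidableEq Lp] (v : H → V) (l : H → Lp) (s : H → Bool) (b₀ : H → ZMod p) (c : Lp → ZMod p),
    (∀ i, (∃ h h', h ≠ h' ∧ {x | l x = i} = {h, h'} ∧ s h ≠ s h') ∨
      ({x | l x = i}.ncard = 3 ∧ Set.InjOn v {x | l x = i} ∧
        ∀ h h', l h = i → l h' = i → s h = s h')) →
    ∃ (w : Perm H) (κ : V → Option (ZMod p)), (∀ h, v (w h) = v h) ∧ ∀ i,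
      (∑ h with l h = i, (if s h then b₀ (w h) else -b₀ (w h)) = c i →
        ∀ h, l h = i → κ (v h) = some (b₀ (w h))) ∧
      (∑ h with l h = i, (if s h then b₀ (w h) else -b₀ (w h)) ≠ c i →
        (∃ h, l h = i ∧ κ (v h) = some (b₀ (w h))) ∨ ∀ h, l h = i → κ (v h) = none)

/-- The combinatorial `2`-step. A half-edge `h` is selected if its label is `σ (v h)`. The last part
says that the closed triples with exactly two selected half-edges form a forest after contraction of
the closed `2`-ended loops. -/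
def TwoComb : Prop :=
  ∀ (V Lp H : Type) [Finite V] [Finite Lp] [Fintype H] [DecidableEq Lp] (v : H → V) (l : H → Lp)
    (b₀ : H → ZMod 2) (c : Lp → ZMod 2),
    (∀ i, (∃ h h', h ≠ h' ∧ {x | l x = i} = {h, h'} ∧ c i = 0) ∨
      ({x | l x = i}.ncard = 3 ∧ Set.InjOn v {x | l x = i})) →
    ∃ (w : Perm H) (σ : V → ZMod 2), (∀ h, v (w h) = v h) ∧
      (∀ i, (∑ h with l h = i, b₀ (w h) = c i →
          2 ≤ {h | l h = i ∧ b₀ (w h) = σ (v h)}.ncard) ∧
        (∃ h, l h = i ∧ b₀ (w h) = σ (v h))) ∧
      ∀ (A : Type) [AddCommGroup A] (d : H → H → A), (∀ h h', d h h' = -d h' h) →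
        ∃ f : V → A, ∀ i, ∑ h with l h = i, b₀ (w h) = c i → ∀ h h', h ≠ h' →
          {x | l x = i ∧ b₀ (w x) = σ (v x)} = {h, h'} →
          ({x | l x = i}.ncard = 2 → f (v h') = f (v h)) ∧
          ({x | l x = i}.ncard = 3 → f (v h') - f (v h) = d h h')

end Pool.Agent.CA
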