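import Pool.Agent.CA.Defs
import Pool.Agent.Helper43.LA.Defs

/-!
# CA-MERGE: the forests of the `p` copies of `M` absorb the `s`-edges between them

`T / M` has prime order `p`, `s ∉ M`: every `x : T` is uniquely `x = m + k • s` with `m ∈ M`, `k < p`. Given
forest data `D` on `M` (labels `b : ιB → M`, colours `C`), colour on `T`
* the `b i`-edge `{x, x + b i}` with the colour `some c`, `c` the colour of the dart `(i, true)` at `m` in `D`
  (the first component of the unique element in `D.dart m (i, true)`);
* the `s`-edge `{x, x + s}`, `x = m + k • s`, with `none` if `k = p - 1` (iff `x + s ∈ M`), and for `k < p - 1`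
  with `some c`, where `c` is the unique colour with `D.nx c m = none` if `k` is even, and the unique
  colour with `D.pv c m = none` if `k` is odd.

Degrees: the darts of colour `c` at `m` in `D` are at most `D.nx c m` and `D.pv c m`, so their number is
`2 - [D.nx c m = none] - [D.pv c m = none]`; the `s`-edges at `x` use different parities (`k` and `k - 1`).
Colour `none`: at most the two edges `{x, x+s}` (if `x + s ∈ M`) and `{x - s, x}` (if `x ∈ M`), and not both.

Acyclic, colour `some c`: let `A` be closed, nonempty, with all degrees `2`. Take `x = m + k • s ∈ A` with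
`k` MINIMAL, and let `β` be the parity of `k - 1`. Following the next (or previous) arcs of `D` of colour
`c` from `m` (well-founded: `D.wf_nx`, `D.wf_pv`; all darts used stay in the copy `k`, so in `A`) one
reaches `m' + k • s ∈ A` with `D.nx c m' = none` (`k - 1` even) resp. `D.pv c m' = none` (`k - 1` odd). If
`k > 0` the `s`-edge `{x' - s, x'}`, `x' = m' + k • s`, has colour `some c`, so `x' - s ∈ A`: contradiction to
the minimality. If `k = 0` choose the parity odd (`D.pv c m' = none`): the place is unused at `x'`
(the `s`-edge `{x' - s, x'}` has colour `none`, the edge `{x', x' + s}` uses the even place), so the degree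
is at most `1`. Colour `none`: all degrees are at most one.
-/

set_option autoImplicit false

namespace Pool.Agent.CA

open Pool.Agent.Helper39.HD

section MergeAux

variable {T : Type} [AddCommGroup T] {M : AddSubgroup T} {s : T} {p : ℕ}

private theorem ord_eq (hp : p.Prime) (hM : M.index = p) (hs : s ∉ M) :
    addOrderOf (s : T ⧸ M) = p := by
  have hc : Nat.card (T ⧸ M) = p := hM
  have h1 : addOrderOf (s : T ⧸ M) ∣ p := hc ▸ addOrderOf_dvd_natCard _
  rcases (Nat.dvd_prime hp).1 h1 with h | h
  · rw [AddMonoid.addOrderOf_eq_one_iff, QuotientAddGroup.eq_zero_iff] at h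
    exact absurd h hs
  · exact h

private theorem lv_ex [Finite T] (hp : p.Prime) (hM : M.index = p) (hs : s ∉ M) (x : T) :
    ∃ k < p, x - k • s ∈ M := by
  classical
  have hσ : (s : T ⧸ M) ≠ 0 := by rwa [Ne, QuotientAddGroup.eq_zero_iff]
  have hc : Nat.card (T ⧸ M) = p := hM
  have := Fact.mk hp
  have h1 : (x : T ⧸ M) ∈ AddSubmonoid.multiples (s : T ⧸ M) := mem_multiples_of_prime_card hc hσ
  rw [mem_multiples_iff_mem_range_addOrderOf, Finset.mem_image] at h1
  obtain ⟨k, hk, h2⟩ := h1
  rw [ord_eq hp hM hs, Finset.mem_range] at hk
  refine ⟨k, hk, ?_⟩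
  rw [← QuotientAddGroup.eq_zero_iff]
  simp only [QuotientAddGroup.mk_sub, QuotientAddGroup.mk_nsmul]
  rw [← h2, sub_self]

private theorem lv_le (hp : p.Prime) (hM : M.index = p) (hs : s ∉ M) {x : T} {k k' : ℕ}
    (hk : k < p) (h : x - k • s ∈ M) (h' : x - k' • s ∈ M) : k ≤ k' := by
  by_contra hlt
  rw [not_le] at hlt
  have h1 : (k - k') • s ∈ M := by
    have : (k - k') • s = (x - k' • s) - (x - k • s) := by
      rw [sub_nsmul _ hlt.le]
      abel
    rw [this]
    exact M.sub_mem h' h
  rw [← QuotientAddGroup.eq_zero_iff, QuotientAddGroup.mk_nsmul, ← addOrderOf_dvd_iff_nsmul_eq_zero,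
    ord_eq hp hM hs] at h1
  have := Nat.le_of_dvd (by omega) h1
  omega

/-- level function and the component in `M` -/
private structure Lev (M : AddSubgroup T) (s : T) where
  lv : T → ℕ
  mc : T → M
  eq : ∀ x, (mc x : T) + lv x • s = x
  lvM : ∀ x (m : M), lv (x + m) = lv x
  lvs : ∀ x, x + s ∉ M → lv (x + s) = lv x + 1

private theorem exists_lev [Finite T] (hp : p.Prime) (hM : M.index = p) (hs : s ∉ M) :
    Nonempty (Lev M s) := by
  choose lv hlt hmem using lv_ex hp hM hs
  have huniq : ∀ (x : T) (k : ℕ), k < p → x - k • s ∈ M → lv x = k := fun x k hk h =>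
    le_antisymm (lv_le hp hM hs (hlt x) (hmem x) h) (lv_le hp hM hs hk h (hmem x))
  refine ⟨⟨lv, fun x => ⟨x - lv x • s, hmem x⟩, ?_, ?_, ?_⟩⟩
  · intro x
    exact sub_add_cancel _ _
  · intro x m
    refine huniq _ _ (hlt x) ?_
    have : x + (m : T) - lv x • s = (x - lv x • s) + m := by abel
    rw [this]
    exact M.add_mem (hmem x) m.2
  · intro x hx
    have h1 : x + s - (lv x + 1) • s = x - lv x • s := by
      rw [succ_nsmul]
      abel
    have h2 : lv x + 1 ≠ p := by
      intro h3
      apply hx
      have h4 : p • s ∈ M := by
        rw [← QuotientAddGroup.eq_zero_iff, QuotientAddGroup.mk_nsmul,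
          ← addOrderOf_dvd_iff_nsmul_eq_zero, ord_eq hp hM hs]
      have h5 : x + s = (x - lv x • s) + p • s := by
        rw [← h3, succ_nsmul]
        abel
      rw [h5]
      exact M.add_mem (hmem x) h4
    refine huniq _ _ ?_ ?_
    · have := hlt x
      omega
    · rw [h1]
      exact hmem x

variable (E : Lev M s)

private theorem Lev.mcM (x : T) (m : M) : E.mc (x + m) = E.mc x + m := by
  apply Subtype.ext
  have h1 := E.eq (x + m)
  have h2 := E.eq x
  rw [E.lvM] at h1
  rw [AddSubgroup.coe_add]
  have h3 : (E.mc (x + m) : T) + E.lv x • s = (E.mc x : T) + m + E.lv x • s := by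
    rw [h1, add_right_comm, h2]
  exact add_right_cancel h3

private theorem Lev.mcs (x : T) (hx : x + s ∉ M) : E.mc (x + s) = E.mc x := by
  apply Subtype.ext
  have h1 := E.eq (x + s)
  have h2 := E.eq x
  rw [E.lvs x hx, succ_nsmul, ← add_assoc] at h1
  have h3 := add_right_cancel h1
  exact add_right_cancel (h3.trans h2.symm)

variable {ιB C : Type} {b : ιB → M} (D : ForestData M ιB C (fun i => Equiv.addRight (b i)))

/-- one of the two places -/
private def vv (q : Bool) (c : C) (m : M) : Option (ιB × Bool) := if q then D.nx c m else D.pv c m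

open scoped Classical in
/-- the colouring -/
private noncomputable def mcol (x : T) : Option ιB → Option C
  | some i => some (D.dart (E.mc x) (i, true)).choose.1
  | none => if x + s ∈ M then none else
      if Even (E.lv x) then some (D.nx_none (E.mc x)).choose else some (D.pv_none (E.mc x)).choose

/-- the dart occupying the place `q` -/
private noncomputable def occ (q : Bool) (x : T) (c : C) : Option ιB × Bool :=
  match vv D q c (E.mc x) with
  | some d => (some d.1, d.2)
  | none => (none, q == decide (Even (E.lv x)))

private theorem stp_coe (d : ιB × Bool) (m : M) :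
    (stp (fun i => Equiv.addRight (b i)) d m : M) =
      m + (if d.2 then b d.1 else -b d.1) := by
  obtain ⟨i, β⟩ := d
  cases β <;> simp [stp]

private theorem sa_some (d : ιB × Bool) :
    sa (fun o : Option ιB => o.elim s fun i => (b i : T)) (some d.1, d.2) =
      ((if d.2 then b d.1 else -b d.1 : M) : T) := by
  obtain ⟨i, β⟩ := d
  cases β <;> simp [sa]

private theorem mcol_none (x : T) (o : Option ιB) :
    mcol E D x o = none ↔ o = none ∧ x + s ∈ M := by
  cases o with
  | some i => simp [mcol]
  | none =>
    simp only [mcol, true_and]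
    split_ifs with h1 h2
    · simp [h1]
    · simp [h1]
    · simp [h1]

private theorem mcol_none_some {x : T} {c : C} (h : mcol E D x none = some c) :
    x + s ∉ M ∧ vv D (decide (Even (E.lv x))) c (E.mc x) = none := by
  simp only [mcol] at h
  split_ifs at h with h1 h2
  · refine ⟨h1, ?_⟩
    rw [← Option.some.inj h]
    simpa [vv, h2] using (D.nx_none (E.mc x)).choose_spec.1
  · refine ⟨h1, ?_⟩
    rw [← Option.some.inj h]
    simpa [vv, h2] using (D.pv_none (E.mc x)).choose_spec.1

private theorem occ_some {q : Bool} {x : T} {c : C} {d : ιB × Bool}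
    (h : vv D q c (E.mc x) = some d) : occ E D q x c = (some d.1, d.2) := by
  simp [occ, h]

private theorem occ_none {q : Bool} {x : T} {c : C}
    (h : vv D q c (E.mc x) = none) : occ E D q x c = (none, q == decide (Even (E.lv x))) := by
  simp [occ, h]

private theorem key {x : T} {c : C} {d : Option ιB × Bool}
    (h : cd (fun o : Option ιB => o.elim s fun i => (b i : T)) (mcol E D) x d = some c) :
    ∃ q, d = occ E D q x c := by
  obtain ⟨o, β⟩ := d
  cases o with
  | some i =>
    cases β with
    | true =>
      have h1 : some (D.dart (E.mc x) (i, true)).choose.1 = some c := by simpa [cd, mcol] using h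
      have h2 := (D.dart (E.mc x) (i, true)).choose_spec.1
      beta_reduce at h2
      rw [Option.some.inj h1] at h2
      exact ⟨(D.dart (E.mc x) (i, true)).choose.2, (occ_some E D (d := (i, true)) h2).symm⟩
    | false =>
      have hm : E.mc (x - (b i : T)) = E.mc x - b i := by
        have := E.mcM x (-b i)
        rw [AddSubgroup.coe_neg, ← sub_eq_add_neg] at this
        rw [this, sub_eq_add_neg]
      have h1 : some (D.dart (E.mc (x - (b i : T))) (i, true)).choose.1 = some c := by
        simpa [cd, mcol] using h
      rw [hm] at h1
      have h2 := (D.dart (E.mc x - b i) (i, true)).choose_spec.1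
      beta_reduce at h2
      rw [Option.some.inj h1] at h2
      set q := (D.dart (E.mc x - b i) (i, true)).choose.2
      have hst1 : stp (fun i => Equiv.addRight (b i)) (i, true) (E.mc x - b i) = E.mc x := by
        rw [stp_coe]
        simp
      have hst2 : stp (fun i => Equiv.addRight (b i)) (i, false) (E.mc x) = E.mc x - b i := by
        rw [stp_coe]
        simp [sub_eq_add_neg]
      have h3 : vv D (!q) c (E.mc x) = some (i, false) := by
        cases hq : q with
        | true =>
          rw [hq] at h2
          have h4 := (D.inv c (E.mc x - b i) i true).1 (by simpa using h2)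
          rw [hst1] at h4
          simpa [vv] using h4
        | false =>
          rw [hq] at h2
          have h4 := (D.inv c (E.mc x) i false).2 (by rw [hst2]; simpa using h2)
          simpa [vv] using h4
      exact ⟨!q, (occ_some E D h3).symm⟩
  | none =>
    cases β with
    | true =>
      have h1 : mcol E D x none = some c := by simpa [cd] using h
      obtain ⟨-, h3⟩ := mcol_none_some E D h1
      refine ⟨_, (Eq.trans (occ_none E D h3) ?_).symm⟩
      simp
    | false =>
      have h1 : mcol E D (x - s) none = some c := by simpa [cd] using h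
      obtain ⟨h2, h3⟩ := mcol_none_some E D h1
      have h4 := E.lvs _ h2
      have h5 := E.mcs _ h2
      rw [sub_add_cancel] at h4 h5
      rw [← h5] at h3
      refine ⟨_, (Eq.trans (occ_none E D h3) ?_).symm⟩
      rw [h4]
      by_cases he : Even (E.lv (x - s)) <;> simp [he, Nat.even_add_one]

private theorem deg_some (x : T) (c : C) :
    {d | cd (fun o : Option ιB => o.elim s fun i => (b i : T)) (mcol E D) x d = some c} ⊆
      {occ E D true x c, occ E D false x c} := by
  intro d hd
  obtain ⟨q, hq⟩ := key E D hd
  cases q
  · right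
    exact hq
  · left
    exact hq

private theorem pair_le {α : Type} (x y : α) : ({x, y} : Set α).ncard ≤ 2 := by
  have := Set.ncard_insert_le x ({y} : Set α)
  rw [Set.ncard_singleton] at this
  exact this

private theorem walk {c : C} {A : Set T}
    (hA : Clo (fun o : Option ιB => o.elim s fun i => (b i : T)) (mcol E D) (some c) A)
    (hocc : ∀ x ∈ A, ∀ q, cd (fun o : Option ιB => o.elim s fun i => (b i : T)) (mcol E D) x
      (occ E D q x c) = some c) (q : Bool) (n : ℕ) (m : M) :
    ∀ x ∈ A, E.mc x = m → E.lv x = n → ∃ y ∈ A, E.lv y = n ∧ vv D q c (E.mc y) = none := by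
  have hwf : WellFounded (fun y x : M => ∃ l, vv D q c x = some l ∧
      y = stp (fun i => Equiv.addRight (b i)) l x) := by
    cases q
    · simpa [vv] using D.wf_pv c
    · simpa [vv] using D.wf_nx c
  induction m using hwf.induction with
  | h m ih =>
    intro x hx hm hn
    cases hv : vv D q c (E.mc x) with
    | none => exact ⟨x, hx, hn, hv⟩
    | some d =>
      have h1 := hocc x hx q
      rw [occ_some E D hv] at h1
      have h2 := hA x hx _ h1
      rw [sa_some] at h2
      refine ih (stp (fun i => Equiv.addRight (b i)) d m) ⟨d, by rw [← hm]; exact hv, rfl⟩ _ h2 ?_ ?_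
      · rw [E.mcM, stp_coe, hm]
      · rw [E.lvM, hn]

private theorem lf_mcol (hs : s ∉ M) [Finite ιB] :
    LF (fun o : Option ιB => o.elim s fun i => (b i : T)) (mcol E D) := by
  have hnone : ∀ x : T, {d | cd (fun o : Option ιB => o.elim s fun i => (b i : T)) (mcol E D) x d =
      none}.ncard ≤ 1 := by
    intro x
    obtain ⟨β, hβ⟩ : ∃ β : Bool, {d | cd (fun o : Option ιB => o.elim s fun i => (b i : T))
        (mcol E D) x d = none} ⊆ {((none : Option ιB), β)} := by
      by_cases hx : x ∈ M
      · refine ⟨false, ?_⟩
        rintro ⟨o, β⟩ hd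
        cases β with
        | true =>
          have h1 : mcol E D x o = none := by simpa [cd] using hd
          obtain ⟨-, h2⟩ := (mcol_none E D x o).1 h1
          exact absurd ((M.add_mem_cancel_left hx).1 h2) hs
        | false =>
          have h1 : mcol E D (x - (o.elim s fun i => (b i : T))) o = none := by simpa [cd] using hd
          obtain ⟨h2, -⟩ := (mcol_none E D _ o).1 h1
          rw [h2]
          rfl
      · refine ⟨true, ?_⟩
        rintro ⟨o, β⟩ hd
        cases β with
        | true =>
          have h1 : mcol E D x o = none := by simpa [cd] using hd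
          obtain ⟨h2, -⟩ := (mcol_none E D x o).1 h1
          rw [h2]
          rfl
        | false =>
          have h1 : mcol E D (x - (o.elim s fun i => (b i : T))) o = none := by simpa [cd] using hd
          obtain ⟨h2, h3⟩ := (mcol_none E D _ o).1 h1
          rw [h2] at h3
          exact absurd (by simpa using h3) hx
    calc _ ≤ ({((none : Option ιB), β)} : Set (Option ιB × Bool)).ncard :=
          Set.ncard_le_ncard hβ
      _ = 1 := Set.ncard_singleton _
  refine ⟨?_, ?_⟩
  · intro x k
    cases k with
    | none => exact (hnone x).trans (by norm_num)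
    | some c => exact (Set.ncard_le_ncard (deg_some E D x c) (Set.toFinite _)).trans (pair_le _ _)
  · intro k A hne hclo
    cases k with
    | none =>
      obtain ⟨x, hx⟩ := hne
      refine ⟨x, hx, ?_⟩
      have := hnone x
      omega
    | some c =>
      by_contra hcon
      push Not at hcon
      have hocc : ∀ x ∈ A, ∀ q, cd (fun o : Option ιB => o.elim s fun i => (b i : T)) (mcol E D) x
          (occ E D q x c) = some c := by
        intro x hx q
        have h1 := Set.eq_of_subset_of_ncard_le (deg_some E D x c)
          ((pair_le _ _).trans (hcon x hx).ge) (Set.toFinite _)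
        have h2 : occ E D q x c ∈ ({occ E D true x c, occ E D false x c} : Set _) := by
          cases q <;> simp
        rw [← h1] at h2
        exact h2
      obtain ⟨x0, hx0, hmin⟩ := (measure E.lv).wf.has_min A hne
      obtain ⟨y, hy, hyn, hyv⟩ := walk E D hclo hocc (!(decide (Even (E.lv x0)))) _ _ x0 hx0 rfl rfl
      have h1 := hocc y hy (!(decide (Even (E.lv x0))))
      rw [occ_none E D hyv, hyn] at h1
      have h2 : ((!(decide (Even (E.lv x0)))) == decide (Even (E.lv x0))) = false := by
        cases decide (Even (E.lv x0)) <;> rfl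
      rw [h2] at h1
      have h3 := hclo y hy _ h1
      have h4 : y - s ∈ A := by simpa [sa, sub_eq_add_neg] using h3
      have h5 : mcol E D (y - s) none = some c := by simpa [cd] using h1
      obtain ⟨h6, -⟩ := mcol_none_some E D h5
      have h7 := E.lvs _ h6
      rw [sub_add_cancel] at h7
      apply hmin _ h4
      show E.lv (y - s) < E.lv x0
      omega

end MergeAux

theorem merge {T ιB C : Type} [AddCommGroup T] [Finite T] [Finite ιB] {M : AddSubgroup T} {s : T}
    {p : ℕ} (hp : p.Prime) (hM : M.index = p) (hs : s ∉ M) (b : ιB → M)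
    (D : ForestData M ιB C (fun i => Equiv.addRight (b i))) :
    ∃ col : T → Option ιB → Option C,
      LF (fun o : Option ιB => o.elim s fun i => (b i : T)) col ∧
      ∀ x o, col x o = none ↔ o = none ∧ x + s ∈ M := by
  obtain ⟨E⟩ := exists_lev hp hM hs
  exact ⟨mcol E D, lf_mcol E D hs, mcol_none E D⟩

end Pool.Agent.CA
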