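import Pool.Agent.CA.Host
import Pool.Agent.CA.Merge

/-!
# CA-ASM: the colouring of all edges of `T`

Labels `ιB ⊕ Option ι`: `inl i ↦ b i`, `inr none ↦ s`, `inr (some i) ↦ a i`. Colours `C ⊕ Option ι`. With
`colB` from `merge`, `F : Fac M s p a` and `P` from `HostData`:
* `inl i` at `x`: `inl c` where `colB x (some i) = some c` (never `none`);
* `inr none` at `x` (edge `{x, x + s}`): `inl c` if `colB x none = some c`; `inr none` if `colB x none = none`
  (iff `x + s ∈ M`);
* `inr (some i)` at `x`: `inr none` if `(x, i) ∈ P`, else `inr (some (F.col x i))`.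

Colour `inl c`: the darts are exactly those of colour `some c` of `colB` (transport the set of darts along
`Option ιB × Bool → (ιB ⊕ Option ι) × Bool`). Colour `inr none`: the darts are the `P`-darts and the two
possible `s`-darts: their number is `hdeg M s a P x`, use `H.deg`, `H.acyc`. Colour `inr (some j)`: the
darts are the darts of colour `j` of `F.col` which are not in `P`; at most two by `F.two`. If a closed
nonempty set `A` has all these degrees equal to `2`, then by `F.two` no dart of colour `j` at a vertex
of `A` is in `P`, so `A` is closed under `F.col`, colour `j`, and `H.hit` gives `(x, i) ∈ P` of colour `j`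
with `x ∈ A`: contradiction.
-/

set_option autoImplicit false

namespace Pool.Agent.CA

section AsmAux

variable {T ιB C ι : Type} [AddCommGroup T]

open scoped Classical in
/-- the colouring -/
private noncomputable def acol (colB : T → Option ιB → Option C) (fc : T → ι → ι)
    (P : Set (T × ι)) (x : T) : ιB ⊕ Option ι → C ⊕ Option ι
  | Sum.inl i => (colB x (some i)).elim (Sum.inr none) Sum.inl
  | Sum.inr none => (colB x none).elim (Sum.inr none) Sum.inl
  | Sum.inr (some i) => if (x, i) ∈ P then Sum.inr none else Sum.inr (some (fc x i))

/-- embedding of the darts of `colB` -/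
private def phi : Option ιB × Bool → (ιB ⊕ Option ι) × Bool
  | (some i, β) => (Sum.inl i, β)
  | (none, β) => (Sum.inr none, β)

/-- embedding of the darts of `F` -/
private def psi (d : ι × Bool) : (ιB ⊕ Option ι) × Bool := (Sum.inr (some d.1), d.2)

private theorem phi_inj : Function.Injective (phi : Option ιB × Bool → (ιB ⊕ Option ι) × Bool) := by
  rintro ⟨_ | i, β⟩ ⟨_ | i', β'⟩ h <;> simp_all [phi]

private theorem psi_inj : Function.Injective (psi : ι × Bool → (ιB ⊕ Option ι) × Bool) := by
  rintro ⟨i, β⟩ ⟨i', β'⟩ h
  simp_all [psi]

private theorem cases_dart (d : (ιB ⊕ Option ι) × Bool) :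
    (∃ d', d = phi d') ∨ ∃ d', d = psi d' := by
  obtain ⟨i | (_ | i), β⟩ := d
  · exact Or.inl ⟨(some i, β), rfl⟩
  · exact Or.inl ⟨(none, β), rfl⟩
  · exact Or.inr ⟨(i, β), rfl⟩

private theorem phi_ne_psi (d : Option ιB × Bool) (d' : ι × Bool) :
    (phi d : (ιB ⊕ Option ι) × Bool) ≠ psi d' := by
  obtain ⟨_ | i, β⟩ := d <;> simp [phi, psi]

variable (b : ιB → T) (a : ι → T) (s : T)

private theorem sa_phi (d : Option ιB × Bool) :
    sa (Sum.elim b fun o : Option ι => o.elim s a) (phi d) =
      sa (fun o : Option ιB => o.elim s b) d := by
  obtain ⟨_ | i, β⟩ := d <;> rfl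

private theorem sa_psi (d : ι × Bool) :
    sa (Sum.elim b fun o : Option ι => o.elim s a) (psi d) = sa a d := rfl

private theorem cd_phi (colB : T → Option ιB → Option C) (fc : T → ι → ι) (P : Set (T × ι)) (x : T)
    (d : Option ιB × Bool) :
    cd (Sum.elim b fun o : Option ι => o.elim s a) (acol colB fc P) x (phi d) =
      (cd (fun o : Option ιB => o.elim s b) colB x d).elim (Sum.inr none) Sum.inl := by
  obtain ⟨_ | i, β⟩ := d <;> cases β <;> simp [phi, cd, acol]

open scoped Classical in
private theorem cd_psi (colB : T → Option ιB → Option C) (fc : T → ι → ι) (P : Set (T × ι)) (x : T)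
    (d : ι × Bool) :
    cd (Sum.elim b fun o : Option ι => o.elim s a) (acol colB fc P) x (psi d) =
      if Dart a P x d then Sum.inr none else Sum.inr (some (cd a fc x d)) := by
  obtain ⟨i, β⟩ := d
  cases β with
  | true =>
    by_cases h : (x, i) ∈ P
    · have h' : Dart a P x (i, true) := h
      rw [if_pos h']
      simp [psi, cd, acol, h]
    · have h' : ¬ Dart a P x (i, true) := h
      rw [if_neg h']
      simp [psi, cd, acol, h]
  | false =>
    by_cases h : (x - a i, i) ∈ P
    · have h' : Dart a P x (i, false) := h
      rw [if_pos h']
      simp [psi, cd, acol, h]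
    · have h' : ¬ Dart a P x (i, false) := h
      rw [if_neg h']
      simp [psi, cd, acol, h]

end AsmAux

theorem asm {T ιB C ι : Type} [AddCommGroup T] [Finite T] [Finite ιB] [Finite ι]
    {M : AddSubgroup T} {s : T} {p : ℕ} (hs : s ∉ M) (b : ιB → T) (a : ι → T)
    (colB : T → Option ιB → Option C)
    (hB : LF (fun o : Option ιB => o.elim s b) colB)
    (hB' : ∀ x o, colB x o = none ↔ o = none ∧ x + s ∈ M)
    (F : Fac M s p a) (H : HostData F) :
    ∃ col : T → ιB ⊕ Option ι → C ⊕ Option ι, LF (Sum.elim b fun o => o.elim s a) col := by
  classical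
  refine ⟨acol colB F.col H.P, ?_⟩
  -- the sets of darts
  have hinl : ∀ x c, {d | cd (Sum.elim b fun o : Option ι => o.elim s a)
      (acol colB F.col H.P) x d = Sum.inl c} =
      phi '' {d | cd (fun o : Option ιB => o.elim s b) colB x d = some c} := by
    intro x c
    ext d
    constructor
    · intro hd
      rcases cases_dart d with ⟨d', rfl⟩ | ⟨d', rfl⟩
      · refine ⟨d', ?_, rfl⟩
        simp only [Set.mem_ofPred_eq] at hd ⊢
        rw [cd_phi] at hd
        cases h : cd (fun o : Option ιB => o.elim s b) colB x d' with
        | none => simp [h] at hd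
        | some c' =>
          rw [h] at hd
          simp at hd
          rw [hd]
      · simp only [Set.mem_ofPred_eq] at hd
        rw [cd_psi] at hd
        by_cases h : Dart a H.P x d'
        · rw [if_pos h] at hd
          simp at hd
        · rw [if_neg h] at hd
          simp at hd
    · rintro ⟨d', hd', rfl⟩
      simp only [Set.mem_ofPred_eq] at hd' ⊢
      rw [cd_phi, hd']
      rfl
  have hnone : ∀ x, {d | cd (Sum.elim b fun o : Option ι => o.elim s a)
      (acol colB F.col H.P) x d = Sum.inr none} =
      phi '' {d | cd (fun o : Option ιB => o.elim s b) colB x d = none} ∪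
        psi '' {d | Dart a H.P x d} := by
    intro x
    ext d
    constructor
    · intro hd
      simp only [Set.mem_ofPred_eq] at hd
      rcases cases_dart d with ⟨d', rfl⟩ | ⟨d', rfl⟩
      · left
        refine ⟨d', ?_, rfl⟩
        rw [cd_phi] at hd
        simp only [Set.mem_ofPred_eq]
        cases h : cd (fun o : Option ιB => o.elim s b) colB x d' with
        | none => rfl
        | some c' => simp [h] at hd
      · right
        refine ⟨d', ?_, rfl⟩
        rw [cd_psi] at hd
        by_contra hn
        simp only [Set.mem_ofPred_eq] at hn
        rw [if_neg hn] at hd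
        simp at hd
    · rintro (⟨d', hd', rfl⟩ | ⟨d', hd', rfl⟩)
      · simp only [Set.mem_ofPred_eq] at hd' ⊢
        rw [cd_phi, hd']
        rfl
      · simp only [Set.mem_ofPred_eq] at hd' ⊢
        rw [cd_psi, if_pos hd']
  have hsome : ∀ x j, {d | cd (Sum.elim b fun o : Option ι => o.elim s a)
      (acol colB F.col H.P) x d = Sum.inr (some j)} =
      psi '' {d | ¬ Dart a H.P x d ∧ cd a F.col x d = j} := by
    intro x j
    ext d
    constructor
    · intro hd
      simp only [Set.mem_ofPred_eq] at hd
      rcases cases_dart d with ⟨d', rfl⟩ | ⟨d', rfl⟩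
      · rw [cd_phi] at hd
        cases h : cd (fun o : Option ιB => o.elim s b) colB x d' with
        | none => simp [h] at hd
        | some c' => simp [h] at hd
      · refine ⟨d', ?_, rfl⟩
        rw [cd_psi] at hd
        by_cases h : Dart a H.P x d'
        · rw [if_pos h] at hd
          simp at hd
        · rw [if_neg h] at hd
          exact ⟨h, by simpa using hd⟩
    · rintro ⟨d', ⟨h1, h2⟩, rfl⟩
      simp only [Set.mem_ofPred_eq]
      rw [cd_psi, if_neg h1, h2]
  -- the darts of colour `none` of `colB`
  have hBn : ∀ x, ({d | cd (fun o : Option ιB => o.elim s b) colB x d = none} :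
      Set (Option ιB × Bool)).ncard = (if x + s ∈ M then 1 else 0) + (if x ∈ M then 1 else 0) := by
    intro x
    have e : ({d | cd (fun o : Option ιB => o.elim s b) colB x d = none} :
        Set (Option ιB × Bool)) =
        (if x + s ∈ M then {(none, true)} else ∅) ∪ (if x ∈ M then {(none, false)} else ∅) := by
      ext ⟨o, β⟩
      simp only [Set.mem_ofPred_eq, Set.mem_union]
      cases β with
      | true =>
        have h1 : (((o, true) : Option ιB × Bool) ∈
            (if x ∈ M then ({(none, false)} : Set (Option ιB × Bool)) else ∅)) ↔ False := by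
          split_ifs <;> simp
        rw [h1, or_false]
        have h2 : cd (fun o : Option ιB => o.elim s b) colB x (o, true) = colB x o := by
          simp [cd]
        rw [h2, hB']
        split_ifs with h <;> simp [h]
      | false =>
        have h1 : (((o, false) : Option ιB × Bool) ∈
            (if x + s ∈ M then ({(none, true)} : Set (Option ιB × Bool)) else ∅)) ↔ False := by
          split_ifs <;> simp
        rw [h1, false_or]
        have h2 : cd (fun o : Option ιB => o.elim s b) colB x (o, false) =
            colB (x - o.elim s b) o := by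
          simp [cd]
        rw [h2, hB']
        constructor
        · rintro ⟨rfl, h⟩
          have h' : x ∈ M := by simpa using h
          rw [if_pos h']
          simp
        · intro h
          split_ifs at h with h'
          · simp only [Set.mem_singleton_iff, Prod.mk.injEq, and_true] at h
            subst h
            exact ⟨rfl, by simpa using h'⟩
          · simp at h
    rw [e]
    have hdis : Disjoint (if x + s ∈ M then ({(none, true)} : Set (Option ιB × Bool)) else ∅)
        (if x ∈ M then {(none, false)} else ∅) := by
      rw [Set.disjoint_left]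
      intro d hd hd'
      split_ifs at hd hd' <;> simp_all
    rw [Set.ncard_union_eq hdis (Set.toFinite _) (Set.toFinite _)]
    congr 1 <;> split_ifs <;> simp
  have hdn : ∀ x, {d | cd (Sum.elim b fun o : Option ι => o.elim s a)
      (acol colB F.col H.P) x d = Sum.inr none}.ncard = hdeg M s a H.P x := by
    intro x
    rw [hnone x]
    have hdis : Disjoint
        ((phi : Option ιB × Bool → (ιB ⊕ Option ι) × Bool) ''
          {d | cd (fun o : Option ιB => o.elim s b) colB x d = none})
        (psi '' {d | Dart a H.P x d}) := by
      rw [Set.disjoint_left]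
      rintro _ ⟨d, _, rfl⟩ ⟨d', _, h⟩
      exact phi_ne_psi d d' h.symm
    rw [Set.ncard_union_eq hdis (Set.toFinite _) (Set.toFinite _),
      Set.ncard_image_of_injective _ phi_inj, Set.ncard_image_of_injective _ psi_inj, hBn, hdeg]
    ring
  refine ⟨?_, ?_⟩
  · rintro x (c | _ | j)
    · rw [hinl, Set.ncard_image_of_injective _ phi_inj]
      exact hB.deg x (some c)
    · rw [hdn]
      exact H.deg x
    · rw [hsome, Set.ncard_image_of_injective _ psi_inj]
      exact (Set.ncard_le_ncard (fun d hd => hd.2) (Set.toFinite _)).trans (F.two x j).le
  · rintro (c | _ | j) A hA hclo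
    · obtain ⟨x, hx, h⟩ := hB.acyc (some c) A hA (by
        intro x hx d hd
        have h1 := hclo x hx (phi d) (by rw [cd_phi, hd]; rfl)
        rwa [sa_phi] at h1)
      refine ⟨x, hx, ?_⟩
      rw [hinl, Set.ncard_image_of_injective _ phi_inj]
      exact h
    · obtain ⟨x, hx, h⟩ := H.acyc A hA (by
        intro x hx d hd
        have h1 := hclo x hx (psi d) (by rw [cd_psi, if_pos hd])
        rwa [sa_psi] at h1) (by
        intro x hx h
        have h1 := hclo x hx (phi (none, true)) (by
          rw [cd_phi]
          have : cd (fun o : Option ιB => o.elim s b) colB x (none, true) = none := by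
            simp only [cd, if_true]
            exact (hB' x none).2 ⟨rfl, h⟩
          rw [this]
          rfl)
        rw [sa_phi] at h1
        simpa [sa] using h1) (by
        intro x hx h
        have h1 := hclo x hx (phi (none, false)) (by
          rw [cd_phi]
          have : cd (fun o : Option ιB => o.elim s b) colB x (none, false) = none := by
            have h2 : cd (fun o : Option ιB => o.elim s b) colB x (none, false) =
              colB (x - s) none := by simp [cd]
            rw [h2]
            exact (hB' (x - s) none).2 ⟨rfl, by simpa using h⟩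
          rw [this]
          rfl)
        rw [sa_phi] at h1
        simpa [sa, sub_eq_add_neg] using h1)
      refine ⟨x, hx, ?_⟩
      rw [hdn]
      exact h
    · by_contra hcon
      push Not at hcon
      have hno : ∀ x ∈ A, ∀ d, cd a F.col x d = j → ¬ Dart a H.P x d := by
        intro x hx d hd
        have h2 := hcon x hx
        rw [hsome, Set.ncard_image_of_injective _ psi_inj] at h2
        have heq : {d | ¬ Dart a H.P x d ∧ cd a F.col x d = j} = {d | cd a F.col x d = j} :=
          Set.eq_of_subset_of_ncard_le (fun d hd => hd.2) (by rw [h2, F.two x j])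
            (Set.toFinite _)
        have : d ∈ {d | ¬ Dart a H.P x d ∧ cd a F.col x d = j} := by
          rw [heq]
          exact hd
        exact this.1
      obtain ⟨e, he, hej, heA⟩ := H.hit j A hA (by
        intro x hx d hd
        have h1 := hclo x hx (psi d) (by rw [cd_psi, if_neg (hno x hx d hd), hd])
        rwa [sa_psi] at h1)
      refine hno e.1 heA (e.2, true) ?_ ?_
      · simpa [cd] using hej
      · simpa [Dart] using he

end Pool.Agent.CA
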