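import Pool.Agent.Helper39.HD.Orient

/-!
# CA-BAL: a balanced 2-colouring of the edges of a bipartite multigraph

Proof. Choose in every fibre of `f` (and of `g`) a maximal matching, i.e. involutions `σ₀`, `τ₀` of `X`
with `f (σ₀ x) = f x`, and `σ₀ x ≠ x` for some `x` in every fibre with at least two elements (well-order
the fibre or use a `Finset`/`Fin n` enumeration of `X` restricted to the fibre: it is enough that ONE pair
of each fibre with two elements is exchanged and everything else is fixed!). So: for every `k : A` whose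
fibre has at least two elements choose two different elements `x_k, y_k` of the fibre, and let `σ₀`
exchange `x_k` and `y_k` for all these `k` and fix all other elements; the same for `g`, `τ₀`.
On `X × Bool` let `σ (x, b) = (σ₀ x, b)` if `σ₀ x ≠ x` and `(x, !b)` otherwise; `τ` likewise. These are
fixed-point-free involutions; `Pool.Agent.Helper39.HD.Orient.orient_two` gives `F : X × Bool → Bool` with
`F (σ e) = !F e`, `F (τ e) = !F e`. Take `c x = F (x, false)`: the two elements `x_k, y_k` get different
colours.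
-/

set_option autoImplicit false

namespace Pool.Agent.CA

/-- one pair of every fibre with at least two elements is exchanged -/
theorem pairing {X A : Type} [Nonempty X] (f : X → A) :
    ∃ s : X → X, (∀ x, s (s x) = x) ∧ (∀ x, f (s x) = f x) ∧
      ∀ x y, x ≠ y → f x = f y → ∃ z, f z = f x ∧ s z ≠ z := by
  classical
  let P : A → Prop := fun k => ∃ p : X × X, p.1 ≠ p.2 ∧ f p.1 = k ∧ f p.2 = k
  let pr : A → X × X := fun k => if h : P k then h.choose else Classical.arbitrary _
  have hpr : ∀ k, P k → (pr k).1 ≠ (pr k).2 ∧ f (pr k).1 = k ∧ f (pr k).2 = k := by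
    intro k hk
    have : pr k = hk.choose := dif_pos hk
    rw [this]
    exact hk.choose_spec
  let s : X → X := fun x => if P (f x) then Equiv.swap (pr (f x)).1 (pr (f x)).2 x else x
  have hs1 : ∀ x, P (f x) → s x = Equiv.swap (pr (f x)).1 (pr (f x)).2 x := fun x h => if_pos h
  have hs0 : ∀ x, ¬ P (f x) → s x = x := fun x h => if_neg h
  have hf : ∀ x, f (s x) = f x := by
    intro x
    by_cases h : P (f x)
    · rw [hs1 x h]
      obtain ⟨h1, h2, h3⟩ := hpr _ h
      by_cases e1 : x = (pr (f x)).1
      · have : Equiv.swap (pr (f x)).1 (pr (f x)).2 x = (pr (f x)).2 := by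
          conv_lhs => arg 2; rw [e1]
          exact Equiv.swap_apply_left _ _
        rw [this, h3]
      · by_cases e2 : x = (pr (f x)).2
        · have : Equiv.swap (pr (f x)).1 (pr (f x)).2 x = (pr (f x)).1 := by
            conv_lhs => arg 2; rw [e2]
            exact Equiv.swap_apply_right _ _
          rw [this, h2]
        · rw [Equiv.swap_apply_of_ne_of_ne e1 e2]
    · rw [hs0 x h]
  refine ⟨s, ?_, hf, ?_⟩
  · intro x
    by_cases h : P (f x)
    · have h' : P (f (s x)) := by rw [hf]; exact h
      rw [hs1 (s x) h', hf x, hs1 x h, Equiv.swap_apply_self]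
    · have h' : ¬ P (f (s x)) := by rw [hf]; exact h
      rw [hs0 (s x) h', hs0 x h]
  · intro x y hxy hfy
    have h : P (f x) := ⟨(x, y), hxy, rfl, hfy.symm⟩
    obtain ⟨h1, h2, h3⟩ := hpr _ h
    refine ⟨(pr (f x)).1, h2, ?_⟩
    have h' : P (f (pr (f x)).1) := by rw [h2]; exact h
    rw [hs1 _ h', h2, Equiv.swap_apply_left]
    exact h1.symm

/-- the fixed-point-free involution of `X × Bool` belonging to an involution of `X` -/
theorem lift_inv {X : Type} (s : X → X) (hs : ∀ x, s (s x) = x) :
    ∃ σ : Equiv.Perm (X × Bool), σ * σ = 1 ∧ (∀ e, σ e ≠ e) ∧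
      ∀ x b, s x ≠ x → σ (x, b) = (s x, b) := by
  classical
  let t : X × Bool → X × Bool := fun e => if s e.1 ≠ e.1 then (s e.1, e.2) else (e.1, !e.2)
  have t1 : ∀ e, s e.1 ≠ e.1 → t e = (s e.1, e.2) := fun e h => if_pos h
  have t0 : ∀ e, ¬ s e.1 ≠ e.1 → t e = (e.1, !e.2) := fun e h => if_neg h
  have ht : Function.Involutive t := by
    rintro ⟨x, b⟩
    by_cases h : s x ≠ x
    · rw [t1 (x, b) h]
      have h' : s (s x, b).1 ≠ (s x, b).1 := by
        change s (s x) ≠ s x
        rw [hs]
        exact h.symm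
      rw [t1 _ h']
      change (s (s x), b) = (x, b)
      rw [hs]
    · rw [t0 (x, b) h]
      have h' : ¬ s (x, !b).1 ≠ (x, !b).1 := h
      rw [t0 _ h']
      change (x, !!b) = (x, b)
      rw [Bool.not_not]
  refine ⟨ht.toPerm, ?_, ?_, ?_⟩
  · ext1 e
    exact ht e
  · rintro ⟨x, b⟩ he
    change t (x, b) = (x, b) at he
    by_cases h : s x ≠ x
    · rw [t1 (x, b) h] at he
      exact h (congrArg Prod.fst he)
    · rw [t0 (x, b) h] at he
      have : (!b) = b := congrArg Prod.snd he
      cases b <;> simp at this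
  · intro x b h
    exact t1 (x, b) h

theorem bal {X A B : Type} [Finite X] (f : X → A) (g : X → B) :
    ∃ c : X → Bool, (∀ x y, x ≠ y → f x = f y → ∀ β, ∃ z, f z = f x ∧ c z = β) ∧
      (∀ x y, x ≠ y → g x = g y → ∀ β, ∃ z, g z = g x ∧ c z = β) := by
  rcases isEmpty_or_nonempty X with hX | hX
  · exact ⟨fun _ => true, fun x => hX.elim x, fun x => hX.elim x⟩
  obtain ⟨s, s1, s2, s3⟩ := pairing f
  obtain ⟨t, t1, t2, t3⟩ := pairing g
  obtain ⟨σ, σ1, σ2, σ3⟩ := lift_inv s s1
  obtain ⟨τ, τ1, τ2, τ3⟩ := lift_inv t t1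
  obtain ⟨F, F1, F2⟩ := Pool.Agent.Helper39.HD.Orient.orient_two σ τ σ1 τ1 σ2 τ2
  refine ⟨fun x => F (x, false), ?_, ?_⟩
  · intro x y hxy hf β
    obtain ⟨z, z1, z2⟩ := s3 x y hxy hf
    by_cases h : F (z, false) = β
    · exact ⟨z, z1, h⟩
    · refine ⟨s z, by rw [s2, z1], ?_⟩
      have := F1 (z, false)
      rw [σ3 z false z2] at this
      change F (s z, false) = β
      rw [this]
      cases hb : F (z, false) <;> cases β <;> simp_all
  · intro x y hxy hf β
    obtain ⟨z, z1, z2⟩ := t3 x y hxy hf
    by_cases h : F (z, false) = β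
    · exact ⟨z, z1, h⟩
    · refine ⟨t z, by rw [t2, z1], ?_⟩
      have := F2 (z, false)
      rw [τ3 z false z2] at this
      change F (t z, false) = β
      rw [this]
      cases hb : F (z, false) <;> cases β <;> simp_all

end Pool.Agent.CA
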