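import Pool.Agent.Helper39.HD.Forest

/-!
# CA-CARD: the number of colours of forest data

`C` is finite: for every `k : C` there is an `x` with `D.nx k x = none` (well-foundedness `D.wf_nx k`, `X`
nonempty), and `k` is determined by `x` (`D.nx_none`), so `C` injects into `X`. At a fixed point `x` the map
`D.dart x` is a bijection from `L × Bool` to the set of the `(k, β) : C × Bool` with
`(if β then D.nx k x else D.pv k x) ≠ none`, whose complement has exactly two elements
(`D.nx_none`, `D.pv_none`). So `2 * card L + 2 = 2 * card C`.
-/

set_option autoImplicit false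

namespace Pool.Agent.CA

open Pool.Agent.Helper39.HD

theorem fd_card {X L C : Type} [Finite X] [Nonempty X] [Finite L] {act : L → Equiv.Perm X}
    (D : ForestData X L C act) : Finite C ∧ Nat.card C = Nat.card L + 1 := by
  classical
  have hex : ∀ k, ∃ x, D.nx k x = none := by
    intro k
    obtain ⟨x, -, hx⟩ := (D.wf_nx k).has_min Set.univ Set.univ_nonempty
    refine ⟨x, ?_⟩
    by_contra hne
    obtain ⟨l, hl⟩ := Option.ne_none_iff_exists'.1 hne
    exact hx (stp act l x) (Set.mem_univ _) ⟨l, hl, rfl⟩
  choose g hg using hex
  have hginj : Function.Injective g := by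
    intro k k' h
    exact (D.nx_none (g k)).unique (hg k) (by rw [h]; exact hg k')
  haveI hfin : Finite C := Finite.of_injective g hginj
  refine ⟨hfin, ?_⟩
  haveI := Fintype.ofFinite C
  haveI := Fintype.ofFinite L
  obtain ⟨x⟩ := ‹Nonempty X›
  have h1 : (Finset.univ : Finset (C × Bool)).card =
      ∑ b : Option (L × Bool), (Finset.univ.filter fun p : C × Bool =>
        (if p.2 then D.nx p.1 x else D.pv p.1 x) = b).card :=
    Finset.card_eq_sum_card_fiberwise fun p _ => Finset.mem_coe.2 (Finset.mem_univ _)
  have h2 : ∀ l : L × Bool, (Finset.univ.filter fun p : C × Bool =>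
      (if p.2 then D.nx p.1 x else D.pv p.1 x) = some l).card = 1 := by
    intro l
    obtain ⟨p, hp, hu⟩ := D.dart x l
    rw [Finset.card_eq_one]
    refine ⟨p, ?_⟩
    ext q
    simp only [Finset.mem_filter, Finset.mem_univ, true_and, Finset.mem_singleton]
    constructor
    · intro hq
      exact hu q hq
    · rintro rfl
      exact hp
  have h3 : (Finset.univ.filter fun p : C × Bool =>
      (if p.2 then D.nx p.1 x else D.pv p.1 x) = none).card = 2 := by
    obtain ⟨k0, hk0, hu0⟩ := D.nx_none x
    obtain ⟨k1, hk1, hu1⟩ := D.pv_none x
    rw [Finset.card_eq_two]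
    refine ⟨(k0, true), (k1, false), by simp, ?_⟩
    ext ⟨k, β⟩
    simp only [Finset.mem_filter, Finset.mem_univ, true_and, Finset.mem_insert,
      Finset.mem_singleton, Prod.mk.injEq]
    cases β
    · simp only [Bool.false_eq_true, if_false, and_false, false_or, and_true]
      constructor
      · intro h
        exact hu1 k h
      · rintro rfl
        exact hk1
    · simp only [if_true, and_true, Bool.true_eq_false, and_false, or_false]
      constructor
      · intro h
        exact hu0 k h
      · rintro rfl
        exact hk0
  rw [Fintype.sum_option, h3, Finset.sum_congr rfl fun l _ => h2 l] at h1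
  simp only [Finset.card_univ, Fintype.card_prod, Fintype.card_bool, Finset.sum_const,
    smul_eq_mul, mul_one] at h1
  rw [Nat.card_eq_fintype_card, Nat.card_eq_fintype_card]
  omega

end Pool.Agent.CA
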