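import Pool.Agent.C90.State

/-!
# The output of the algebraic middle
-/

set_option autoImplicit false

namespace Pool.Agent.CA

open C90

/-- From a state of the odd phase at level `V` one gets labels in `G` itself such that every loop
has at least two designated slots. -/
def DescendStmt : Prop :=
  ∀ (G I : Type) [AddCommGroup G] [Finite G] [Finite I] (V : AddSubgroup G) (lab0 : I × Bool → G)
    (bal : Prop) (s : St V lab0 True bal), (Even (Nat.card V) → bal) →
    ∃ (lab : G → I × Bool → G) (nu : G → G) (Des : Set (G × (I × Bool))),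
      (∀ x, ∃ r : Equiv.Perm (I × Bool), ∀ k, lab x k = lab0 (r k)) ∧
      (∀ k, Function.Injective fun x => x + lab x k) ∧
      (Function.Injective fun x => x + nu x) ∧
      (∀ x k, (x, k) ∈ Des → lab x k = nu x ∧ ((x : G ⧸ V), k) ∈ s.Des) ∧
      (∀ x : G, ((nu x : G) : G ⧸ V) = s.nu (x : G ⧸ V)) ∧
      (∀ (x : G) k, ((x : G ⧸ V), k) ∉ s.Des → lab x k = s.lab ((x : G ⧸ V), k)) ∧
      (∀ i x, ∃ y b y' b', (y, (i, b)) ∈ Des ∧ (y', (i, b')) ∈ Des ∧ (y, b) ≠ (y', b') ∧
        Relation.EqvGen (fun u v => u + lab u (i, true) = v + lab v (i, false)) x y ∧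
        Relation.EqvGen (fun u v => u + lab u (i, true) = v + lab v (i, false)) x y')

end Pool.Agent.CA
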