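import Pool.Agent.C90.Descend
import Pool.Agent.CA.DescendStmt

/-!
# The output of the algebraic middle, proved
-/

set_option autoImplicit false

namespace Pool.Agent.CA

theorem descendStmt : DescendStmt := fun _ _ _ _ _ _ _ _ s hb => C90.descend s hb

end Pool.Agent.CA
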