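import Pool.Agent.CA.StartC

/-!
# Levels of index two (helper39)
-/

set_option autoImplicit false

namespace Pool.Agent.CA

theorem evenFac (h : DescendStmt) {T ι : Type} [AddCommGroup T] [Finite T]
    [Finite ι] {M : AddSubgroup T} (hM : M.index = 2) {s : T} (hs : s ∉ M) (a : ι → T)
    (ha : ∀ i, a i ∉ M) (hinj : Function.Injective a) (hneg : ∀ i j, a i ≠ -a j) :
    Nonempty (Fac M s 2 a) :=
  evenFacC h hM hs a ha hinj hneg

end Pool.Agent.CA
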