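import Pool.Agent.CA.Defs
import Pool.Agent.Helper39.HD.Orient

/-!
# CA-FD: oriented forest data from a colouring whose classes are linear forests

Copy and adapt the proof of `Pool.Agent.Helper39.HD.forestData_of_linearForests` (in
`Pool/Agent/Helper39/HD/Orient.lean`): the colour of the dart `d` at `x` is `c x d := cd a col x d`;
`c (x + sa a d) (d.1, !d.2) = c x d`; three different darts at `x` never have the same colour (`h.deg`);
`exists_pairing`, `orient_two`, `one_missing` (compose with `κ ≃ Fin (card ι + 1)`), `half_card` as there.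
Only the well-foundedness is different: let `N : T → Option T` be the next vertex in colour `k`. If the
relation is not well-founded, let `A` be the set of the non-accessible vertices: it is nonempty, every
`x ∈ A` has a next vertex, which is in `A`, and every `y` with next vertex in `A` is in `A`. The map
`A → A`, `x ↦ next x`, is injective (orientation: an arc into `y` is determined by `y`), so bijective
(`T` finite). So every `x ∈ A` has a dart with orientation `true` and one with orientation `false` of
colour `k`, and both lead to `A`: `A` is closed under colour `k` and all degrees are `2`, contradiction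
to `h.acyc`. No assumption on `a` (injectivity, `a i ≠ 0`, ...) is needed.
-/

set_option autoImplicit false

namespace Pool.Agent.CA

open Pool.Agent.Helper39.HD

open Orient in
theorem fd_of_lf {T ι κ : Type} [AddCommGroup T] [Finite T] [Finite ι] [Finite κ] {a : ι → T}
    {col : T → ι → κ} (h : LF a col) (hκ : Nat.card κ = Nat.card ι + 1) :
    Nonempty (ForestData T ι κ (fun i => Equiv.addRight (a i))) := by
  classical
  set act : ι → Equiv.Perm T := fun i => Equiv.addRight (a i) with hact
  have stpt : ∀ (s : ι) x, stp act (s, true) x = x + a s := fun s x => rfl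
  have stpf : ∀ (s : ι) x, stp act (s, false) x = x + -(a s) := fun s x => rfl
  have stpsa : ∀ (d : ι × Bool) x, stp act d x = x + sa a d := by
    rintro ⟨s, _ | _⟩ x
    · rw [stpf]; rfl
    · rw [stpt]; rfl
  have sinv : ∀ (l : ι × Bool) x, stp act (l.1, !l.2) (stp act l x) = x := by
    rintro ⟨s, _ | _⟩ x
    · simp [stpt, stpf]
    · simp [stpt, stpf]
  let c : T → ι × Bool → κ := fun x l => cd a col x l
  -- the reversal
  let E := T × (ι × Bool)
  let σf : E → E := fun e => (stp act e.2 e.1, (e.2.1, !e.2.2))
  have σσ : ∀ e, σf (σf e) = e := by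
    rintro ⟨x, l⟩
    simp only [σf, sinv, Bool.not_not]
  have cσ : ∀ x (l : ι × Bool), c (stp act l x) (l.1, !l.2) = c x l := by
    rintro x ⟨s, _ | _⟩
    · simp only [c, cd, stpf, Bool.not_false, if_true, Bool.false_eq_true, if_false,
        sub_eq_add_neg]
    · simp only [c, cd, stpt, Bool.not_true, if_true, Bool.false_eq_true, if_false,
        add_sub_cancel_right]
  let σ : Equiv.Perm E := Function.Involutive.toPerm σf σσ
  have σ2 : σ * σ = 1 := Equiv.ext σσ
  have σ0 : ∀ e, σ e ≠ e := by
    rintro ⟨x, s, β⟩ he
    have h2 : (!β) = β := congrArg (fun e : E => e.2.2) he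
    cases β <;> simp at h2
  -- the pairing
  have hcard : Nat.card (ι × Bool) = 2 * Nat.card ι := by
    rw [Nat.card_prod]
    simp [mul_comm]
  have hfib : ∀ x (l l' l'' : ι × Bool), c x l' = c x l → c x l'' = c x l →
      l = l' ∨ l = l'' ∨ l' = l'' := by
    intro x l l' l'' h1 h2
    by_contra hcon
    push Not at hcon
    obtain ⟨n1, n2, n3⟩ := hcon
    have h3 : ({l, l', l''} : Set (ι × Bool)).ncard = 3 :=
      Set.ncard_eq_three.2 ⟨l, l', l'', n1, n2, n3, rfl⟩
    have h4 : ({l, l', l''} : Set (ι × Bool)) ⊆ {d | cd a col x d = c x l} := by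
      intro y hy
      simp only [Set.mem_insert_iff, Set.mem_singleton_iff] at hy
      rcases hy with rfl | rfl | rfl
      · rfl
      · exact h1
      · exact h2
    have h5 := (Set.ncard_le_ncard h4 (Set.toFinite _)).trans (h.deg x (c x l))
    omega
  choose τ τ1 τ2 τ3 using fun x => exists_pairing (c x) (by rw [hcard]; exact even_two_mul _)
    (hfib x)
  let τP : Equiv.Perm E := Function.Involutive.toPerm (fun e : E => (e.1, τ e.1 e.2))
    (fun e => Prod.ext rfl (τ1 e.1 e.2))
  have τ4 : τP * τP = 1 := Equiv.ext fun e => Prod.ext rfl (τ1 e.1 e.2)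
  obtain ⟨f, fσ, fτ⟩ := orient_two σ τP σ2 τ4 σ0 (fun e he => τ2 e.1 e.2 (congrArg Prod.snd he))
  have fσ' : ∀ x (l : ι × Bool), f (stp act l x, (l.1, !l.2)) = !f (x, l) := fun x l => fσ (x, l)
  have fτ' : ∀ x (l : ι × Bool), f (x, τ x l) = !f (x, l) := fun x l => fτ (x, l)
  have huniq : ∀ x (l l' : ι × Bool), c x l = c x l' → f (x, l) = f (x, l') → l = l' := by
    intro x l l' h1 h2
    by_contra hne
    have h3 := τ3 x l' l hne h1
    have h4 := fτ' x l'
    rw [h3, h2] at h4
    cases h5 : f (x, l') <;> rw [h5] at h4 <;> simp at h4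
  let sel : Bool → κ → T → Option (ι × Bool) := fun β k x =>
    if h : ∃ l, c x l = k ∧ f (x, l) = β then some h.choose else none
  have sel_some : ∀ β k x l, sel β k x = some l ↔ c x l = k ∧ f (x, l) = β := by
    intro β k x l
    simp only [sel]
    constructor
    · intro h
      split_ifs at h with h1
      have h2 : h1.choose = l := by simpa using h
      rw [← h2]
      exact h1.choose_spec
    · intro h
      have h1 : ∃ l, c x l = k ∧ f (x, l) = β := ⟨l, h⟩
      rw [dif_pos h1]
      congr 1
      exact huniq x _ _ (h1.choose_spec.1.trans h.1.symm) (h1.choose_spec.2.trans h.2.symm)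
  have sel_none : ∀ β k x, sel β k x = none ↔ ∀ l, c x l = k → f (x, l) ≠ β := by
    intro β k x
    constructor
    · intro h l hl hf
      have := (sel_some β k x l).2 ⟨hl, hf⟩
      rw [h] at this
      simp at this
    · intro h
      cases h1 : sel β k x with
      | none => rfl
      | some l =>
        obtain ⟨h2, h3⟩ := (sel_some β k x l).1 h1
        exact absurd h3 (h l h2)
  have sel_inv : ∀ β k x (l : ι × Bool), sel β k x = some l ↔
      sel (!β) k (stp act l x) = some (l.1, !l.2) := by
    intro β k x l
    rw [sel_some, sel_some, cσ, fσ']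
    cases f (x, l) <;> cases β <;> simp
  let e : κ ≃ Fin (Nat.card ι + 1) := Finite.equivFinOfCardEq hκ
  have missing : ∀ β x, ∃! k, sel β k x = none := by
    intro β x
    have h1 : ∃! k, ∀ b : {l : ι × Bool // f (x, l) = β}, e (c x b.1) ≠ k :=
      one_missing (fun b : {l : ι × Bool // f (x, l) = β} => e (c x b.1))
        (fun b b' hb => Subtype.ext (huniq x _ _ (e.injective hb) (b.2.trans b'.2.symm)))
        (half_card (τ x) (τ1 x) (fun l => f (x, l)) (fτ' x) hcard β)
    obtain ⟨k, hk, hk'⟩ := h1
    refine ⟨e.symm k, ?_, ?_⟩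
    · refine (sel_none β _ x).2 ?_
      intro l hl hf
      exact hk ⟨l, hf⟩ (by rw [hl, Equiv.apply_symm_apply])
    · intro k' h2
      rw [Equiv.eq_symm_apply]
      apply hk'
      rintro ⟨l, hl⟩ h3
      exact (sel_none β k' x).1 h2 l (e.injective h3) hl
  have wf : ∀ β k, WellFounded (fun y x => ∃ l, sel β k x = some l ∧ y = stp act l x) := by
    intro β k
    by_contra hwf
    set r : T → T → Prop := fun y x => ∃ l, sel β k x = some l ∧ y = stp act l x with hr
    let A : Set T := {x | ¬ Acc r x}
    have hA : A.Nonempty := by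
      by_contra hA
      apply hwf
      refine ⟨fun x => ?_⟩
      by_contra hx
      exact hA ⟨x, hx⟩
    have hnext : ∀ x ∈ A, ∃ l, sel β k x = some l ∧ stp act l x ∈ A := by
      intro x hx
      by_contra hcon
      push Not at hcon
      apply hx
      refine Acc.intro x ?_
      rintro y ⟨l, hl, rfl⟩
      have := hcon l hl
      simpa [A] using this
    choose nl nl1 nl2 using hnext
    have hinj : Function.Injective
        fun x : A => (⟨stp act (nl x.1 x.2) x.1, nl2 x.1 x.2⟩ : A) := by
      rintro ⟨x, hx⟩ ⟨y, hy⟩ hxy
      have hxy' : stp act (nl x hx) x = stp act (nl y hy) y := congrArg Subtype.val hxy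
      have h1 := (sel_inv β k x (nl x hx)).1 (nl1 x hx)
      have h2 := (sel_inv β k y (nl y hy)).1 (nl1 y hy)
      rw [hxy', h2] at h1
      have h3 : nl x hx = nl y hy := by
        have h4 := Option.some.inj h1
        have h5 : (nl y hy).1 = (nl x hx).1 := (Prod.mk.inj h4).1
        have h6 : (!(nl y hy).2) = (!(nl x hx).2) := (Prod.mk.inj h4).2
        exact Prod.ext h5.symm (Bool.not_inj h6).symm
      rw [h3] at hxy'
      exact Subtype.ext ((stp act (nl y hy)).injective hxy')
    have hsurj := Finite.surjective_of_injective hinj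
    have hprev : ∀ x ∈ A, ∃ l, sel (!β) k x = some l ∧ stp act l x ∈ A := by
      intro x hx
      obtain ⟨⟨y, hy⟩, hyx⟩ := hsurj ⟨x, hx⟩
      have hyx' : stp act (nl y hy) y = x := congrArg Subtype.val hyx
      have h1 := (sel_inv β k y (nl y hy)).1 (nl1 y hy)
      rw [hyx'] at h1
      refine ⟨_, h1, ?_⟩
      have h2 := sinv (nl y hy) y
      rw [hyx'] at h2
      rw [h2]
      exact hy
    have hboth : ∀ x ∈ A, ∃ l l', l ≠ l' ∧ {d | cd a col x d = k} = {l, l'} ∧
        stp act l x ∈ A ∧ stp act l' x ∈ A := by
      intro x hx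
      obtain ⟨l', hl', hA'⟩ := hprev x hx
      have hl := nl1 x hx
      obtain ⟨c1, f1⟩ := (sel_some _ _ _ _).1 hl
      obtain ⟨c2, f2⟩ := (sel_some _ _ _ _).1 hl'
      refine ⟨nl x hx, l', ?_, ?_, nl2 x hx, hA'⟩
      · intro h3
        rw [h3, f2] at f1
        cases β <;> simp at f1
      · ext d
        constructor
        · intro hd
          have hd' : c x d = k := hd
          by_cases h3 : f (x, d) = β
          · exact Or.inl (huniq x _ _ (hd'.trans c1.symm) (h3.trans f1.symm))
          · right
            refine huniq x _ _ (hd'.trans c2.symm) ?_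
            rw [f2]
            exact Bool.eq_not.2 h3
        · rintro (rfl | hd)
          · exact c1
          · rw [Set.mem_singleton_iff] at hd
            rw [hd]
            exact c2
    obtain ⟨x, hx, hx2⟩ := h.acyc k A hA (by
      intro x hx d hd
      obtain ⟨l, l', -, hset, h1, h2⟩ := hboth x hx
      have hd' : d ∈ ({l, l'} : Set (ι × Bool)) := by
        rw [← hset]
        exact hd
      rw [← stpsa]
      rcases hd' with rfl | hd'
      · exact h1
      · rw [Set.mem_singleton_iff] at hd'
        rw [hd']
        exact h2)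
    obtain ⟨l, l', hne, hset, -, -⟩ := hboth x hx
    apply hx2
    rw [hset]
    exact Set.ncard_pair hne
  exact ⟨{
    nx := sel true
    pv := sel false
    inv := fun k x l β => sel_inv true k x (l, β)
    dart := by
      intro x l
      refine ⟨(c x l, f (x, l)), ?_, ?_⟩
      · dsimp only
        cases hf : f (x, l)
        · simp only [Bool.false_eq_true, if_false]
          exact (sel_some _ _ _ _).2 ⟨rfl, hf⟩
        · simp only [if_true]
          exact (sel_some _ _ _ _).2 ⟨rfl, hf⟩
      · rintro ⟨k, _ | _⟩ hk
        · simp only [Bool.false_eq_true, if_false] at hk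
          obtain ⟨h1, h2⟩ := (sel_some _ _ _ _).1 hk
          rw [h1, h2]
        · simp only [if_true] at hk
          obtain ⟨h1, h2⟩ := (sel_some _ _ _ _).1 hk
          rw [h1, h2]
    nx_none := missing true
    pv_none := missing false
    wf_nx := wf true
    wf_pv := wf false }⟩

end Pool.Agent.CA
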