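import Pool.Agent.CA.StartEven

/-!
# The factorisation of a level of index 2 from labellings of the points of `M`
-/

set_option autoImplicit false

namespace Pool.Agent.CA

open Equiv

section

variable {T ι : Type} [AddCommGroup T] [Finite ι] {M : AddSubgroup T}

/-- the factorisation of a level of index 2 from the final state -/
theorem facEven_of [Finite T] (hM : M.index = 2) {s : T} (hs : s ∉ M) (a : ι → T)
    (ha : ∀ i, a i ∉ M) (hinj : Function.Injective a) (hneg : ∀ i j, a i ≠ -a j)
    (e : ι × Bool → M) (he : ∀ d, (e d : T) = sa a d - s)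
    (L : M → Perm (ι × Bool)) (D : Set (M × (ι × Bool)))
    (bij : ∀ t, Function.Bijective fun x : M => x + e (L x t))
    (wd : ∀ x t t', (x, t) ∈ D → (x, t') ∈ D → e (L x t) = e (L x t'))
    (inj : ∀ x t y t', (x, t) ∈ D → (y, t') ∈ D → x + e (L x t) = y + e (L y t') → x = y)
    (loops : ∀ (j : ι) (x : M), ∃ d₁ ∈ D, ∃ d₂ ∈ D, d₁ ≠ d₂ ∧ d₁.2.1 = j ∧ d₂.2.1 = j ∧
      ∀ P : M → Prop, P x → (∀ u v, P u → (u + e (L u (j, true)) = v + e (L v (j, false)) ∨
        v + e (L v (j, true)) = u + e (L u (j, false))) → P v) → P d₁.1 ∧ P d₂.1) :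
    Nonempty (Fac M s 2 a) := by
  classical
  have hsinj := sa_injective hinj hneg
  have hadd : ∀ {x y : T}, x + y ∈ M ↔ (x ∈ M ↔ y ∈ M) := AddSubgroup.add_mem_iff_of_index_two hM
  have hsa : ∀ d, sa a d ∉ M := by
    rintro ⟨i, _ | _⟩
    · simpa [sa] using ha i
    · simpa [sa] using ha i
  have hin : ∀ {x : T} (d), x ∈ M → x + sa a d ∉ M := fun d hx h => hsa d ((hadd.1 h).1 hx)
  have hout : ∀ {x : T} (d), x ∉ M → x + sa a d ∈ M := fun d hx =>
    hadd.2 ⟨fun h => absurd h hx, fun h => absurd h (hsa d)⟩
  -- the labels at the points of M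
  let LL : T → Perm (ι × Bool) := fun y => if hy : y ∈ M then L ⟨y, hy⟩ else 1
  have hLL : ∀ y : M, LL y = L y := fun y => dif_pos y.2
  let DD : T → ι × Bool → Prop := fun y t => ∃ hy : y ∈ M, ((⟨y, hy⟩ : M), t) ∈ D
  let col : T → ι → ι := fun x i =>
    if x ∈ M then ((LL x).symm (i, true)).1 else ((LL (x + a i)).symm (i, false)).1
  have cd_in : ∀ {x : T} (d), x ∈ M → cd a col x d = ((LL x).symm d).1 := by
    rintro x ⟨i, _ | _⟩ hx
    · have h1 : x - a i ∉ M := by
        have := hin (i, false) hx
        simpa [sa, sub_eq_add_neg] using this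
      simp only [cd, Bool.false_eq_true, if_false, col, h1]
      rw [sub_add_cancel]
    · simp only [cd, if_true, col, hx]
  have cd_out : ∀ {x : T} (d), x ∉ M → cd a col x d = ((LL (x + sa a d)).symm (fl d)).1 := by
    rintro x ⟨i, _ | _⟩ hx
    · have h1 : x - a i ∈ M := by
        have := hout (i, false) hx
        simpa [sa, sub_eq_add_neg] using this
      simp only [cd, Bool.false_eq_true, if_false, col, h1, if_true, sa, fl, Bool.not_false]
      rw [sub_eq_add_neg]
    · simp only [cd, if_true, col, hx, if_false, sa, fl, Bool.not_true]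
  -- every slot is a perfect matching
  have hbij : ∀ (t : ι × Bool) (x : T), x ∉ M → ∃ y : M, (y : T) + sa a (L y t) = x ∧
      ∀ y' : M, (y' : T) + sa a (L y' t) = x → y' = y := by
    intro t x hx
    have hxs : x - s ∈ M := by
      rw [sub_eq_add_neg]
      exact hadd.2 ⟨fun h => absurd h hx, fun h => absurd (by simpa using h) hs⟩
    obtain ⟨y, hy⟩ := (bij t).2 ⟨x - s, hxs⟩
    have key : ∀ y : M, (y : T) + sa a (L y t) = x ↔
        y + e (L y t) = (⟨x - s, hxs⟩ : M) := by
      intro y
      rw [Subtype.ext_iff]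
      simp only [AddSubgroup.coe_add, he]
      rw [← add_sub_assoc, sub_left_inj]
    refine ⟨y, (key y).2 hy, fun y' hy' => ?_⟩
    exact (bij t).1 (((key y').1 hy').trans hy.symm)
  have htwo : ∀ x j, {d | cd a col x d = j}.ncard = 2 := by
    intro x j
    by_cases hx : x ∈ M
    · have : {d | cd a col x d = j} = (LL x) '' {(j, true), (j, false)} := by
        ext d
        simp only [Set.mem_ofPred_eq, cd_in d hx, Set.mem_image, Set.mem_insert_iff,
          Set.mem_singleton_iff, exists_eq_or_imp, exists_eq_left]
        constructor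
        · intro h
          rcases h2 : (LL x).symm d with ⟨j', _ | _⟩
          · right
            rw [h2] at h
            obtain rfl : j' = j := h
            rw [← h2, Equiv.apply_symm_apply]
          · left
            rw [h2] at h
            obtain rfl : j' = j := h
            rw [← h2, Equiv.apply_symm_apply]
        · rintro (rfl | rfl) <;> simp
      rw [this, Set.ncard_image_of_injective _ (LL x).injective, Set.ncard_pair (by simp)]
    · obtain ⟨y1, hy1, hu1⟩ := hbij (j, true) x hx
      obtain ⟨y2, hy2, hu2⟩ := hbij (j, false) x hx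
      have : {d | cd a col x d = j} = {fl (L y1 (j, true)), fl (L y2 (j, false))} := by
        ext d
        simp only [Set.mem_ofPred_eq, cd_out d hx, Set.mem_insert_iff, Set.mem_singleton_iff]
        constructor
        · intro h
          let y : M := ⟨x + sa a d, hout d hx⟩
          have hLy : LL (x + sa a d) = L y := hLL y
          rw [hLy] at h
          rcases h2 : (L y).symm (fl d) with ⟨j', _ | _⟩
          · rw [h2] at h
            obtain rfl : j' = j := h
            have h3 : L y (j', false) = fl d := by rw [← h2, Equiv.apply_symm_apply]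
            have h4 : y = y2 := hu2 y (by
              rw [h3, sa_fl]
              change x + sa a d + -sa a d = x
              abel)
            right
            rw [← h4, h3, fl_fl]
          · rw [h2] at h
            obtain rfl : j' = j := h
            have h3 : L y (j', true) = fl d := by rw [← h2, Equiv.apply_symm_apply]
            have h4 : y = y1 := hu1 y (by
              rw [h3, sa_fl]
              change x + sa a d + -sa a d = x
              abel)
            left
            rw [← h4, h3, fl_fl]
        · rintro (rfl | rfl)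
          · have h3 : x + sa a (fl (L y1 (j, true))) = y1 := by
              rw [sa_fl, ← hy1]; abel
            rw [h3, hLL, fl_fl, Equiv.symm_apply_apply]
          · have h3 : x + sa a (fl (L y2 (j, false))) = y2 := by
              rw [sa_fl, ← hy2]; abel
            rw [h3, hLL, fl_fl, Equiv.symm_apply_apply]
      rw [this, Set.ncard_pair]
      intro h
      have h1 := fl_inj h
      have h2 : y1 = y2 := by
        apply Subtype.ext
        have := hy1.trans hy2.symm
        rw [h1] at this
        exact add_right_cancel this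
      rw [h2] at h1
      have := (L y2).injective h1
      simp at this
  -- the designated edges
  let NN : Set (T × ι) := {p | if p.1 ∈ M then DD p.1 ((LL p.1).symm (p.2, true)) else
    DD (p.1 + a p.2) ((LL (p.1 + a p.2)).symm (p.2, false))}
  have nn_in : ∀ {x : T} (d), x ∈ M → (Dart a NN x d ↔ DD x ((LL x).symm d)) := by
    rintro x ⟨i, _ | _⟩ hx
    · have h1 : x - a i ∉ M := by
        have := hin (i, false) hx
        simpa [sa, sub_eq_add_neg] using this
      simp only [Dart, Bool.false_eq_true, if_false, NN, Set.mem_ofPred_eq, h1]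
      rw [sub_add_cancel]
    · simp only [Dart, if_true, NN, Set.mem_ofPred_eq, hx]
  have nn_out : ∀ {x : T} (d), x ∉ M →
      (Dart a NN x d ↔ DD (x + sa a d) ((LL (x + sa a d)).symm (fl d))) := by
    rintro x ⟨i, _ | _⟩ hx
    · have h1 : x - a i ∈ M := by
        have := hout (i, false) hx
        simpa [sa, sub_eq_add_neg] using this
      simp only [Dart, Bool.false_eq_true, if_false, NN, Set.mem_ofPred_eq, h1, if_true, sa, fl,
        Bool.not_false]
      rw [sub_eq_add_neg]
    · simp only [Dart, if_true, NN, Set.mem_ofPred_eq, hx, if_false, sa, fl, Bool.not_true]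
  let lev : T → ℕ := fun x => if x ∈ M then 0 else 1
  have lev_in : ∀ {x : T}, x ∈ M → lev x = 0 := fun hx => if_pos hx
  have lev_out : ∀ {x : T}, x ∉ M → lev x = 1 := fun hx => if_neg hx
  have hup : ∀ x d d', Dart a NN x d → Dart a NN x d' → x ∈ M → d = d' := by
    intro x d d' hd hd' hx
    rw [nn_in d hx] at hd
    rw [nn_in d' hx] at hd'
    obtain ⟨hy, h1⟩ := hd
    obtain ⟨hy', h2⟩ := hd'
    have h3 := wd _ _ _ h1 h2
    have h4 : LL x = L ⟨x, hx⟩ := hLL ⟨x, hx⟩
    rw [h4, Equiv.apply_symm_apply, Equiv.apply_symm_apply] at h3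
    have h5 := congrArg Subtype.val h3
    rw [he, he, sub_left_inj] at h5
    exact hsinj h5
  have hdown : ∀ x d d', Dart a NN x d → Dart a NN x d' → x ∉ M → d = d' := by
    intro x d d' hd hd' hx
    rw [nn_out d hx] at hd
    rw [nn_out d' hx] at hd'
    obtain ⟨hy, h1⟩ := hd
    obtain ⟨hy', h2⟩ := hd'
    have h3 := inj _ _ _ _ h1 h2 (by
      have h4 : LL (x + sa a d) = L ⟨x + sa a d, hy⟩ := hLL ⟨x + sa a d, hy⟩
      have h5 : LL (x + sa a d') = L ⟨x + sa a d', hy'⟩ := hLL ⟨x + sa a d', hy'⟩
      rw [h4, h5, Equiv.apply_symm_apply, Equiv.apply_symm_apply]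
      apply Subtype.ext
      simp only [AddSubgroup.coe_add, he, sa_fl]
      abel)
    have h6 := congrArg Subtype.val h3
    exact hsinj (add_left_cancel h6)
  refine ⟨{ col := col, NN := NN, lev := lev, two := htwo, lev_lt := ?_, lev_zero := ?_,
            lev_last := ?_, step := ?_, up := ?_, down := ?_, loops := ?_ }⟩
  · intro x
    by_cases hx : x ∈ M
    · rw [lev_in hx]; norm_num
    · rw [lev_out hx]; norm_num
  · intro x
    by_cases hx : x ∈ M
    · simp [lev_in hx, hx]
    · simp [lev_out hx, hx]
  · intro x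
    by_cases hx : x ∈ M
    · have : x + s ∉ M := fun h => hs ((hadd.1 h).1 hx)
      simp [lev_in hx, this]
    · have : x + s ∈ M := hadd.2 ⟨fun h => absurd h hx, fun h => absurd h hs⟩
      simp [lev_out hx, this]
  · intro x d _
    by_cases hx : x ∈ M
    · left
      rw [lev_in hx, lev_out (hin d hx)]
    · right
      rw [lev_out hx, lev_in (hout d hx)]
  · intro x d d' hd hd' h1 h2
    by_cases hx : x ∈ M
    · exact hup x d d' hd hd' hx
    · rw [lev_out hx, lev_in (hout d hx)] at h1
      omega
  · intro x d d' hd hd' h1 h2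
    by_cases hx : x ∈ M
    · rw [lev_in hx, lev_out (hin d hx)] at h1
      omega
    · exact hdown x d d' hd hd' hx
  · intro j C hC hclo
    -- a point of C in M
    obtain ⟨y0, hy0⟩ : ∃ y : M, (y : T) ∈ C := by
      obtain ⟨x, hx⟩ := hC
      by_cases hxM : x ∈ M
      · exact ⟨⟨x, hxM⟩, hx⟩
      · obtain ⟨d, hd⟩ : ∃ d, cd a col x d = j := by
          have := htwo x j
          have h2 : {d | cd a col x d = j}.Nonempty := by
            rw [Set.nonempty_iff_ne_empty]
            intro h
            rw [h, Set.ncard_empty] at this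
            omega
          exact h2
        exact ⟨⟨x + sa a d, hout d hxM⟩, hclo x hx d hd⟩
    have hinv : ∀ u v : M, (u : T) ∈ C → (u + e (L u (j, true)) = v + e (L v (j, false)) ∨
        v + e (L v (j, true)) = u + e (L u (j, false))) → (v : T) ∈ C := by
      have key : ∀ (u v : M) (b : Bool), (u : T) ∈ C →
          u + e (L u (j, b)) = v + e (L v (j, !b)) → (v : T) ∈ C := by
        intro u v b hu h4
        have h5 := congrArg Subtype.val h4
        simp only [AddSubgroup.coe_add, he] at h5
        have h6 : (v : T) + sa a (L v (j, !b)) = u + sa a (L u (j, b)) := by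
          rw [← add_sub_assoc, ← add_sub_assoc, sub_left_inj] at h5
          exact h5.symm
        have h7 : (u : T) + sa a (L u (j, b)) ∈ C := by
          apply hclo u hu
          rw [cd_in _ u.2, hLL, Equiv.symm_apply_apply]
        have h8 : (v : T) = (u : T) + sa a (L u (j, b)) + sa a (fl (L v (j, !b))) := by
          rw [← h6, sa_fl]; abel
        rw [h8]
        apply hclo _ h7
        rw [cd_out _ (hin _ u.2), ← h8, hLL, fl_fl, Equiv.symm_apply_apply]
      intro u v hu h
      rcases h with h | h
      · exact key u v true hu h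
      · exact key u v false hu h.symm
    obtain ⟨d1, hd1, d2, hd2, hne, hj1, hj2, hP⟩ := loops j y0
    obtain ⟨hP1, hP2⟩ := hP (fun u => (u : T) ∈ C) hy0 hinv
    -- the edge of a designated half-edge
    let ed : M × (ι × Bool) → T × ι := fun h =>
      if (L h.1 h.2).2 then ((h.1 : T), (L h.1 h.2).1) else
        ((h.1 : T) - a (L h.1 h.2).1, (L h.1 h.2).1)
    have hed : ∀ h : M × (ι × Bool), h ∈ D → h.2.1 = j ∧ (h.1 : T) ∈ C →
        ed h ∈ NN ∧ col (ed h).1 (ed h).2 = j ∧ (ed h).1 ∈ C := by
      rintro ⟨x, t⟩ hD ⟨h1, h2⟩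
      have h1' : t.1 = j := h1
      have h2' : (x : T) ∈ C := h2
      have hcd : cd a col x (L x t) = j := by
        rw [cd_in _ x.2, hLL, Equiv.symm_apply_apply, h1']
      have hda : Dart a NN x (L x t) := by
        rw [nn_in _ x.2, hLL, Equiv.symm_apply_apply]
        exact ⟨x.2, hD⟩
      rcases hL : L x t with ⟨i, _ | _⟩
      · rw [hL] at hcd hda
        have h3 : ed (x, t) = ((x : T) - a i, i) := by simp [ed, hL]
        rw [h3]
        refine ⟨hda, hcd, ?_⟩
        have := hclo x h2' (i, false) hcd
        simpa [sa, sub_eq_add_neg] using this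
      · rw [hL] at hcd hda
        have h3 : ed (x, t) = ((x : T), i) := by simp [ed, hL]
        rw [h3]
        exact ⟨hda, hcd, h2'⟩
    obtain ⟨g1, g2, g3⟩ := hed d1 hd1 ⟨hj1, hP1⟩
    obtain ⟨g4, g5, g6⟩ := hed d2 hd2 ⟨hj2, hP2⟩
    refine ⟨ed d1, g1, ed d2, g4, ?_, g2, g5, g3, g6⟩
    intro heq
    apply hne
    obtain ⟨x1, t1⟩ := d1
    obtain ⟨x2, t2⟩ := d2
    rcases hL1 : L x1 t1 with ⟨i1, _ | _⟩ <;> rcases hL2 : L x2 t2 with ⟨i2, _ | _⟩
    · simp only [ed, hL1, hL2, Bool.false_eq_true, if_false, Prod.mk.injEq] at heq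
      obtain ⟨h1, h2⟩ := heq
      subst h2
      have h3 : x1 = x2 := Subtype.ext (sub_left_inj.1 h1)
      subst h3
      rw [(L x1).injective (hL1.trans hL2.symm)]
    · simp only [ed, hL1, hL2, Bool.false_eq_true, if_false, if_true, Prod.mk.injEq] at heq
      exfalso
      have h1 := hin (i1, false) x1.2
      simp only [sa, Bool.false_eq_true, if_false, ← sub_eq_add_neg] at h1
      rw [heq.1] at h1
      exact h1 x2.2
    · simp only [ed, hL1, hL2, Bool.false_eq_true, if_false, if_true, Prod.mk.injEq] at heq
      exfalso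
      have h1 := hin (i2, false) x2.2
      simp only [sa, Bool.false_eq_true, if_false, ← sub_eq_add_neg] at h1
      rw [← heq.1] at h1
      exact h1 x1.2
    · simp only [ed, hL1, hL2, if_true, Prod.mk.injEq] at heq
      obtain ⟨h1, h2⟩ := heq
      subst h2
      have h3 : x1 = x2 := Subtype.ext h1
      subst h3
      rw [(L x1).injective (hL1.trans hL2.symm)]

end

end Pool.Agent.CA
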