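import Mathlib

/-!
# The zigzag Hamilton path of `ZMod p`

The level of `v` is `v.val` if this is even and `p - 1 - v.val` if it is odd: the path
`0, -2, 2, -4, 4, …, -1`.
-/

set_option autoImplicit false

namespace Pool.Agent.CA

/-- position of `v` on the zigzag path -/
def zl {p : ℕ} (v : ZMod p) : ℕ := if v.val % 2 = 0 then v.val else p - 1 - v.val

section

variable {p : ℕ} [Fact p.Prime]

theorem zl_lt (v : ZMod p) : zl v < p := by
  have hp : 0 < p := (Fact.out : p.Prime).pos
  have h := ZMod.val_lt v
  unfold zl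
  split_ifs <;> omega

theorem zl_zero (hp2 : p % 2 = 1) (v : ZMod p) : zl v = 0 ↔ v = 0 := by
  have hp : 0 < p := (Fact.out : p.Prime).pos
  have h := ZMod.val_lt v
  rw [← ZMod.val_eq_zero]
  unfold zl
  split_ifs <;> omega

theorem val_neg_one' (hp2 : p % 2 = 1) (v : ZMod p) : v + 1 = 0 ↔ v.val = p - 1 := by
  have hp : 1 < p := (Fact.out : p.Prime).one_lt
  have h := ZMod.val_lt v
  constructor
  · intro hv
    have h1 : ((v.val + 1 : ℕ) : ZMod p) = 0 := by
      push_cast
      rw [ZMod.natCast_zmod_val]
      exact hv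
    rw [ZMod.natCast_eq_zero_iff] at h1
    have := Nat.le_of_dvd (by omega) h1
    omega
  · intro hv
    have h1 : ((v.val + 1 : ℕ) : ZMod p) = 0 := by
      rw [hv, Nat.sub_add_cancel hp.le]
      simp
    push_cast at h1
    rwa [ZMod.natCast_zmod_val] at h1

theorem zl_last (hp2 : p % 2 = 1) (v : ZMod p) : zl v = p - 1 ↔ v + 1 = 0 := by
  have hp : 1 < p := (Fact.out : p.Prime).one_lt
  have h := ZMod.val_lt v
  rw [val_neg_one' hp2]
  unfold zl
  split_ifs <;> omega

theorem zl_inj (hp2 : p % 2 = 1) {v w : ZMod p} (h : zl v = zl w) : v = w := by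
  have hp : 1 < p := (Fact.out : p.Prime).one_lt
  have h1 := ZMod.val_lt v
  have h2 := ZMod.val_lt w
  apply ZMod.val_injective p
  unfold zl at h
  split_ifs at h <;> omega

/-- the value of a sum of two naturals -/
theorem val_of_eq {v : ZMod p} {n : ℕ} (hn : n < p) (h : v = (n : ZMod p)) : v.val = n := by
  rw [h, ZMod.val_natCast, Nat.mod_eq_of_lt hn]

theorem zig_aux (hp2 : p % 2 = 1) (w : ZMod p) (hw : w.val % 2 = 1) (v : ZMod p) :
    zl (v - (w + w)) = zl v + 1 ↔ v = w ∨ v = w - 1 := by
  have hp : 1 < p := (Fact.out : p.Prime).one_lt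
  have h1 := ZMod.val_lt v
  have h2 := ZMod.val_lt w
  have cw : ((w.val : ℕ) : ZMod p) = w := ZMod.natCast_zmod_val w
  have cv : ((v.val : ℕ) : ZMod p) = v := ZMod.natCast_zmod_val v
  have cp : ((p : ℕ) : ZMod p) = 0 := ZMod.natCast_self p
  constructor
  · intro h
    set u := v - (w + w) with hu
    have h3 := ZMod.val_lt u
    have cu : ((u.val : ℕ) : ZMod p) = u := ZMod.natCast_zmod_val u
    have h2w : v - u = w + w := by rw [hu]; ring
    have key : ∀ z : ZMod p, z + z = w + w → z = w := by
      intro z hz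
      have h4 : (2 : ZMod p) * (z - w) = 0 := by linear_combination hz
      have h5 : (2 : ZMod p) ≠ 0 := by
        intro h5
        have : ((2 : ℕ) : ZMod p) = 0 := by exact_mod_cast h5
        rw [ZMod.natCast_eq_zero_iff] at this
        have := Nat.le_of_dvd (by norm_num) this
        omega
      exact sub_eq_zero.1 ((mul_eq_zero.1 h4).resolve_left h5)
    unfold zl at h
    split_ifs at h with ha hb hb
    · omega
    · left
      have h4 : u.val + v.val = p := by omega
      have h5 : u + v = 0 := by
        have h6 : ((u.val + v.val : ℕ) : ZMod p) = 0 := by rw [h4]; exact cp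
        push_cast at h6
        rwa [cu, cv] at h6
      apply key
      rw [← h2w]
      linear_combination h5
    · -- v even, u odd: u.val = p - 2 - v.val
      right
      have h4 : u.val + v.val + 2 = p := by omega
      have h5 : u + v + 2 = 0 := by
        have h6 : ((u.val + v.val + 2 : ℕ) : ZMod p) = 0 := by rw [h4]; exact cp
        push_cast at h6
        rwa [cu, cv] at h6
      have : v + 1 = w := by
        apply key
        rw [← h2w]
        linear_combination h5
      rw [← this]; ring
    · omega
  · rintro (rfl | rfl)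
    · have h4 : v - (v + v) = ((p - v.val : ℕ) : ZMod p) := by
        rw [Nat.cast_sub h1.le, cv, cp]; ring
      have h5 := val_of_eq (by omega) h4
      unfold zl
      rw [h5]
      split_ifs <;> omega
    · have h0 : (w - 1 : ZMod p) = ((w.val - 1 : ℕ) : ZMod p) := by
        rw [Nat.cast_sub (by omega), cw]; simp
      have h6 := val_of_eq (by omega) h0
      have h4 : w - 1 - (w + w) = ((p - 1 - w.val : ℕ) : ZMod p) := by
        rw [Nat.cast_sub (by omega), Nat.cast_sub hp.le, cw, cp]; push_cast; ring
      have h5 := val_of_eq (by omega) h4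
      unfold zl
      rw [h5, h6]
      split_ifs <;> omega

/-- every class `c ≠ 0` goes, with the right sign, at exactly two places one level up -/
theorem zig (hp2 : p % 2 = 1) (c : ZMod p) (hc : c ≠ 0) :
    ∃ (β : Bool) (v₁ v₂ : ZMod p), v₁ ≠ v₂ ∧ zl v₁ + zl v₂ + 2 = p ∧
      ∀ v, zl (v + (if β then c else -c)) = zl v + 1 ↔ v = v₁ ∨ v = v₂ := by
  have hp : 1 < p := (Fact.out : p.Prime).one_lt
  have h2 : (2 : ZMod p) ≠ 0 := by
    intro h5
    have : ((2 : ℕ) : ZMod p) = 0 := by exact_mod_cast h5
    rw [ZMod.natCast_eq_zero_iff] at this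
    have := Nat.le_of_dvd (by norm_num) this
    omega
  have main : ∀ w : ZMod p, w.val % 2 = 1 → w ≠ w - 1 ∧ zl w + zl (w - 1) + 2 = p := by
    intro w hw
    have h1 := ZMod.val_lt w
    have cw : ((w.val : ℕ) : ZMod p) = w := ZMod.natCast_zmod_val w
    have h0 : (w - 1 : ZMod p) = ((w.val - 1 : ℕ) : ZMod p) := by
      rw [Nat.cast_sub (by omega), cw]; simp
    have h6 := val_of_eq (by omega) h0
    refine ⟨fun h => ?_, ?_⟩
    · have : (1 : ZMod p) = 0 := by linear_combination h
      exact one_ne_zero this
    · unfold zl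
      rw [h6]
      split_ifs <;> omega
  set w : ZMod p := -(c / 2) with hw
  have hww : w + w = -c := by
    rw [hw]; field_simp; ring
  have hw0 : w ≠ 0 := by
    intro h
    rw [h] at hww
    apply hc
    linear_combination hww
  have hwv : w.val ≠ 0 := by rwa [Ne, ZMod.val_eq_zero]
  rcases Nat.mod_two_eq_zero_or_one w.val with h | h
  · -- then `-w` is odd
    have hneg : (-w).val = p - w.val := by
      have : NeZero w := ⟨hw0⟩
      exact ZMod.val_neg_of_ne_zero w
    have h1 := ZMod.val_lt w
    have h' : (-w).val % 2 = 1 := by rw [hneg]; omega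
    obtain ⟨h3, h4⟩ := main (-w) h'
    refine ⟨false, -w, -w - 1, h3, h4, fun v => ?_⟩
    have := zig_aux hp2 (-w) h' v
    have e : v - (-w + -w) = v + -c := by rw [← hww]; ring
    rw [e] at this
    simpa using this
  · obtain ⟨h3, h4⟩ := main w h
    refine ⟨true, w, w - 1, h3, h4, fun v => ?_⟩
    have := zig_aux hp2 w h v
    have e : v - (w + w) = v + c := by rw [hww]; ring
    rw [e] at this
    simpa using this

end

end Pool.Agent.CA
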