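import Pool.Agent.CA.StartEven
import Pool.Agent.CA.Zig

/-!
# The factorisation of a level of odd prime index from labellings of the points
-/

set_option autoImplicit false

namespace Pool.Agent.CA

open Equiv

section

variable {T ι : Type} [AddCommGroup T] {p : ℕ} [Fact p.Prime]

/-- the factorisation of a level of odd prime index from the final state -/
theorem facOdd_of [Finite T] (hp2 : p % 2 = 1) {M : AddSubgroup T} (ψ : T →+ ZMod p)
    (hψ : ∀ x, ψ x = 0 ↔ x ∈ M) {s : T} (hs : ψ s = 1) (a : ι → T)
    (hinj : Function.Injective a) (hneg : ∀ i j, a i ≠ -a j) (β : ι → Bool)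
    (L : T → Perm ι) (D : Set (T × ι))
    (bij : ∀ t, Function.Bijective fun x : T => x + sa a (L x t, β (L x t)))
    (wd : ∀ x t t', (x, t) ∈ D → (x, t') ∈ D →
      sa a (L x t, β (L x t)) = sa a (L x t', β (L x t')))
    (inj : ∀ x t y t', (x, t) ∈ D → (y, t') ∈ D →
      x + sa a (L x t, β (L x t)) = y + sa a (L y t', β (L y t')) → x = y)
    (loops : ∀ (j : ι) (x : T), ∃ d₁ ∈ D, ∃ d₂ ∈ D, d₁ ≠ d₂ ∧ d₁.2 = j ∧ d₂.2 = j ∧
      ∀ P : T → Prop, P x → (∀ u v, P u → (v = u + sa a (L u j, β (L u j)) ∨
        u = v + sa a (L v j, β (L v j))) → P v) → P d₁.1 ∧ P d₂.1)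
    (hD : ∀ h ∈ D, zl (ψ h.1 + ψ (sa a (L h.1 h.2, β (L h.1 h.2)))) = zl (ψ h.1) + 1) :
    Nonempty (Fac M s p a) := by
  classical
  have hsinj := sa_injective hinj hneg
  -- every slot is a perfect matching
  have hbij : ∀ (t : ι) (x : T), ∃ y : T, y + sa a (L y t, β (L y t)) = x ∧
      ∀ y' : T, y' + sa a (L y' t, β (L y' t)) = x → y' = y := by
    intro t x
    obtain ⟨y, hy⟩ := (bij t).2 x
    exact ⟨y, hy, fun y' hy' => (bij t).1 (hy'.trans hy.symm)⟩
  let col : T → ι → ι := fun x i =>
    if β i then (L x).symm i else (L (x + a i)).symm i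
  have cd_f : ∀ (x : T) i, cd a col x (i, β i) = (L x).symm i := by
    intro x i
    by_cases h : β i = true
    · simp only [cd, h, if_true, col]
    · simp only [cd, h, if_false, col, sub_add_cancel, Bool.false_eq_true]
  have cd_b : ∀ (x : T) i, cd a col x (i, !β i) = (L (x + sa a (i, !β i))).symm i := by
    intro x i
    by_cases h : β i = true
    · simp only [cd, h, if_true, col, Bool.not_true, Bool.false_eq_true, if_false, sa,
        sub_eq_add_neg]
    · have h' : β i = false := by simpa using h
      simp only [cd, h', if_true, col, Bool.not_false, Bool.false_eq_true, if_false, sa]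
  have hdart : ∀ d : ι × Bool, d = (d.1, β d.1) ∨ d = (d.1, !β d.1) := by
    rintro ⟨i, b⟩
    rcases h : β i <;> cases b <;> simp [h]
  have sa_b : ∀ i, sa a (i, !β i) = - sa a (i, β i) := fun i => sa_fl a (i, β i)
  have htwo : ∀ x j, {d | cd a col x d = j}.ncard = 2 := by
    intro x j
    obtain ⟨y, hy, hu⟩ := hbij j x
    have : {d | cd a col x d = j} =
        {(L x j, β (L x j)), (L y j, !β (L y j))} := by
      ext d
      simp only [Set.mem_ofPred_eq, Set.mem_insert_iff, Set.mem_singleton_iff]
      constructor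
      · intro h
        rcases hdart d with hd | hd
        · rw [hd, cd_f] at h
          left
          have : L x j = d.1 := by rw [← h, Equiv.apply_symm_apply]
          rw [this]
          exact hd
        · rw [hd, cd_b] at h
          right
          have h1 : L (x + sa a (d.1, !β d.1)) j = d.1 := by rw [← h, Equiv.apply_symm_apply]
          have h2 : x + sa a (d.1, !β d.1) = y := by
            apply hu
            rw [h1, sa_b]; abel
          rw [← h2, h1]
          exact hd
      · rintro (rfl | rfl)
        · rw [cd_f, Equiv.symm_apply_apply]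
        · rw [cd_b]
          have h2 : x + sa a (L y j, !β (L y j)) = y := by
            rw [sa_b, ← hy]; abel
          rw [h2, Equiv.symm_apply_apply]
    rw [this, Set.ncard_pair]
    intro h
    have h1 := congrArg Prod.fst h
    have h2 := congrArg Prod.snd h
    simp only at h1 h2
    rw [h1] at h2
    simp at h2
  let NN : Set (T × ι) := {q | if β q.2 then (q.1, (L q.1).symm q.2) ∈ D else
    (q.1 + a q.2, (L (q.1 + a q.2)).symm q.2) ∈ D}
  have nn_f : ∀ (x : T) i, Dart a NN x (i, β i) ↔ (x, (L x).symm i) ∈ D := by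
    intro x i
    by_cases h : β i = true
    · simp only [Dart, h, if_true, NN, Set.mem_ofPred_eq]
    · simp only [Dart, h, if_false, NN, Set.mem_ofPred_eq, sub_add_cancel, Bool.false_eq_true]
  have nn_b : ∀ (x : T) i, Dart a NN x (i, !β i) ↔
      (x + sa a (i, !β i), (L (x + sa a (i, !β i))).symm i) ∈ D := by
    intro x i
    by_cases h : β i = true
    · simp only [Dart, h, if_true, NN, Set.mem_ofPred_eq, Bool.not_true, Bool.false_eq_true,
        if_false, sa, sub_eq_add_neg]
    · have h' : β i = false := by simpa using h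
      simp only [Dart, h', if_true, NN, Set.mem_ofPred_eq, Bool.not_false, Bool.false_eq_true,
        if_false, sa]
  have hup : ∀ (x : T) i, (x, (L x).symm i) ∈ D →
      zl (ψ (x + sa a (i, β i))) = zl (ψ x) + 1 := by
    intro x i h
    have := hD _ h
    simp only [Equiv.apply_symm_apply] at this
    rw [map_add]
    exact this
  have hstep : ∀ x d, Dart a NN x d →
      (d = (d.1, β d.1) ∧ (x, (L x).symm d.1) ∈ D ∧
        zl (ψ (x + sa a d)) = zl (ψ x) + 1) ∨
      (d = (d.1, !β d.1) ∧ (x + sa a d, (L (x + sa a d)).symm d.1) ∈ D ∧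
        zl (ψ x) = zl (ψ (x + sa a d)) + 1) := by
    intro x d hd
    rcases hdart d with h | h
    · left
      rw [h, nn_f] at hd
      refine ⟨h, hd, ?_⟩
      rw [h]
      exact hup x _ hd
    · right
      rw [h, nn_b, ← h] at hd
      refine ⟨h, hd, ?_⟩
      have h1 := hup _ _ hd
      have h2 : x + sa a d + sa a (d.1, β d.1) = x := by
        conv_lhs => rw [h]
        rw [sa_b]; abel
      rwa [h2] at h1
  refine ⟨{ col := col, NN := NN, lev := fun x => zl (ψ x), two := htwo,
            lev_lt := fun x => zl_lt _, lev_zero := fun x => ?_, lev_last := fun x => ?_,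
            step := ?_, up := ?_, down := ?_, loops := ?_ }⟩
  · rw [zl_zero hp2, hψ]
  · rw [zl_last hp2, ← hψ, map_add, hs]
  · intro x d hd
    rcases hstep x d hd with ⟨-, -, h⟩ | ⟨-, -, h⟩
    · exact Or.inl h
    · exact Or.inr h
  · intro x d d' hd hd' h1 h2
    rcases hstep x d hd with ⟨h3, h4, -⟩ | ⟨-, -, h⟩
    · rcases hstep x d' hd' with ⟨h5, h6, -⟩ | ⟨-, -, h⟩
      · have h7 := wd _ _ _ h4 h6
        simp only [Equiv.apply_symm_apply] at h7
        rw [h3, h5]
        exact hsinj h7
      · omega
    · omega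
  · intro x d d' hd hd' h1 h2
    rcases hstep x d hd with ⟨-, -, h⟩ | ⟨h3, h4, -⟩
    · omega
    · rcases hstep x d' hd' with ⟨-, -, h⟩ | ⟨h5, h6, -⟩
      · omega
      · have h7 := inj _ _ _ _ h4 h6 (by
          simp only [Equiv.apply_symm_apply]
          have e1 : x + sa a d + sa a (d.1, β d.1) = x := by
            conv_lhs => rw [h3]
            rw [sa_b]; abel
          have e2 : x + sa a d' + sa a (d'.1, β d'.1) = x := by
            conv_lhs => rw [h5]
            rw [sa_b]; abel
          rw [e1, e2])
        exact hsinj (add_left_cancel h7)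
  · intro j C hC hclo
    obtain ⟨x0, hx0⟩ := hC
    have hinv : ∀ u v : T, u ∈ C → (v = u + sa a (L u j, β (L u j)) ∨
        u = v + sa a (L v j, β (L v j))) → v ∈ C := by
      rintro u v hu (h | h)
      · rw [h]
        apply hclo u hu
        rw [cd_f, Equiv.symm_apply_apply]
      · have h1 : v = u + sa a (L v j, !β (L v j)) := by
          rw [sa_b, ← sub_eq_add_neg, eq_sub_iff_add_eq]
          exact h.symm
        rw [h1]
        apply hclo u hu
        rw [cd_b, ← h1, Equiv.symm_apply_apply]
    obtain ⟨d1, hd1, d2, hd2, hne, hj1, hj2, hP⟩ := loops j x0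
    obtain ⟨hP1, hP2⟩ := hP (fun u => u ∈ C) hx0 hinv
    let ed : T × ι → T × ι := fun h =>
      if β (L h.1 h.2) then (h.1, L h.1 h.2) else (h.1 - a (L h.1 h.2), L h.1 h.2)
    have hed : ∀ h : T × ι, h ∈ D → h.2 = j ∧ h.1 ∈ C →
        ed h ∈ NN ∧ col (ed h).1 (ed h).2 = j ∧ (ed h).1 ∈ C := by
      rintro ⟨x, t⟩ hDm ⟨h1, h2⟩
      obtain rfl : t = j := h1
      have h2' : x ∈ C := h2
      by_cases hb : β (L x t) = true
      · have h3 : ed (x, t) = (x, L x t) := by simp [ed, hb]
        rw [h3]
        refine ⟨?_, ?_, h2'⟩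
        · simp only [NN, Set.mem_ofPred_eq, hb, if_true, Equiv.symm_apply_apply]
          exact hDm
        · simp only [col, hb, if_true, Equiv.symm_apply_apply]
      · have h3 : ed (x, t) = (x - a (L x t), L x t) := by simp [ed, hb]
        rw [h3]
        refine ⟨?_, ?_, ?_⟩
        · simp only [NN, Set.mem_ofPred_eq, hb, if_false, sub_add_cancel,
            Equiv.symm_apply_apply, Bool.false_eq_true]
          exact hDm
        · simp only [col, hb, if_false, sub_add_cancel, Equiv.symm_apply_apply,
            Bool.false_eq_true]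
        · have h4 := hclo x h2' (L x t, β (L x t)) (by rw [cd_f, Equiv.symm_apply_apply])
          have hb' : β (L x t) = false := by simpa using hb
          rw [hb'] at h4
          simpa [sa, sub_eq_add_neg] using h4
    obtain ⟨g1, g2, g3⟩ := hed d1 hd1 ⟨hj1, hP1⟩
    obtain ⟨g4, g5, g6⟩ := hed d2 hd2 ⟨hj2, hP2⟩
    refine ⟨ed d1, g1, ed d2, g4, ?_, g2, g5, g3, g6⟩
    intro heq
    apply hne
    obtain ⟨x1, t1⟩ := d1
    obtain ⟨x2, t2⟩ := d2
    have ht1 : t1 = j := hj1
    have ht2 : t2 = j := hj2
    subst ht1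
    subst ht2
    have hi : L x1 t2 = L x2 t2 := by
      have := congrArg Prod.snd heq
      simp only [ed] at this
      split_ifs at this <;> exact this
    by_cases hb : β (L x1 t2) = true
    · have hb2 : β (L x2 t2) = true := by rw [← hi]; exact hb
      have := congrArg Prod.fst heq
      simp only [ed, hb, hb2, if_true] at this
      rw [this]
    · have hb2 : ¬ β (L x2 t2) = true := by rw [← hi]; exact hb
      have := congrArg Prod.fst heq
      simp only [ed, hb, hb2, if_false, hi, Bool.false_eq_true] at this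
      rw [sub_left_inj.1 this]

end

end Pool.Agent.CA
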