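import Pool.Agent.CA.Defs
import Pool.Agent.CA.Bal

/-!
# CA-HOST: the host forest

Given `F : Fac M s p a`, choose a set `P` of edges of `NN`, one on every loop of every `2`-factor, such
that `P` together with the `s`-edges `{x, x + s}`, `x + s ∈ M`, is a linear forest.

Proof. `X := {e : T × ι // e ∈ F.NN}` (finite). For a colour `j` let `R j x y := ∃ d, cd a F.col x d = j ∧
y = x + sa a d` (symmetric). `H x y := (∃ d, Dart a F.NN x d ∧ y = x + sa a d) ∨ (x + s ∈ M ∧ y = x + s) ∨
(x ∈ M ∧ y = x - s)` (symmetric). Let `f e := (j, class of e.1 modulo EqvGen (R j))`, `j = F.col e.1 e.2`,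
and `g e := class of e.1 modulo EqvGen H`. `bal f g` gives `c : X → Bool`. For every value `k` of `f` whose
fibre contains an element with `c = true` choose one, `q k`; `P := {q k}`, so `c = true` on `P`.

`hit`: let `C` be nonempty and closed under the edges of colour `j`; let `x₀ ∈ C` and `C₀ ⊆ C` the class
of `x₀` modulo `EqvGen (R j)`; it is closed and nonempty, so `F.loops` gives `e₁ ≠ e₂` of `NN` with colour
`j` and `e₁.1, e₂.1 ∈ C₀`, so `f e₁ = f e₂`, the fibre contains an element with `c = true`, and `P` contains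
an element `e` with `f e = f e₁`, i.e. `e.1 ∈ C₀ ⊆ C`.

`deg`: every dart of `NN` at `x` is upwards or downwards (`F.step`), at most one of each (`F.up`, `F.down`);
if `x ∈ M` (level `0`) none is downwards, if `x + s ∈ M` (level `p - 1`) none is upwards (`F.lev_lt`), and
not both since `s ∉ M`.

`acyc`: let `C` be nonempty and closed, and all degrees equal to `2`. The same count for `NN` instead of
`P` gives `≤ 2`, so at the vertices of `C` all darts of `NN` are darts of `P`. Hence `C` is closed under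
`H` and contains an end of some `e ∈ P` (at `x ∈ C` the two `s`-terms are not both `1`, so there is a dart
of `P`); hence `e.1 ∈ C`. If the fibre of `g e` contains a second element, then it contains `e'` with
`c e' = false`, `e'.1 ∈ C`, the dart `(e'.2, true)` at `e'.1` is in `NN`, so in `P`, so `c e' = true`,
contradiction. If `e` is the only element of `NN` in its class: let `u`, `v` be the lower and the upper
end of `e`. `v` has degree `2` and no second dart of `NN`, and `v ∉ M`, so `v + s ∈ M`, i.e. `v` is on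
level `p - 1`; `u` has no second dart of `NN`, `u + s ∉ M` (if `u` were on level `p - 1 = lev v` ...), so
`u ∈ M`; so `p = 2`. `w := v + s ∈ C ∩ M` has degree `2` and `w + s ∉ M` or `w ∈ M` contributes one only, so a
dart of `NN` at `w`, which must be `e`; so `w = u` (as `w = v` would give `s = 0 ∈ M`), i.e. `u = v + s`, and
`e = {u, v}` gives `a e.2 = s` or `a e.2 = -s`: contradiction to `hne`.
-/

set_option autoImplicit false

namespace Pool.Agent.CA

variable {T ι : Type} [AddCommGroup T]

open scoped Classical in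
/-- the host degree of `x`: darts of `P` at `x`, the `s`-edge `{x, x + s}` if `x + s ∈ M` and the `s`-edge
`{x - s, x}` if `x ∈ M` -/
noncomputable def hdeg (M : AddSubgroup T) (s : T) (a : ι → T) (P : Set (T × ι)) (x : T) : ℕ :=
  {d : ι × Bool | Dart a P x d}.ncard + (if x + s ∈ M then 1 else 0) + (if x ∈ M then 1 else 0)

/-- the choice of the edges for the host forest -/
structure HostData {M : AddSubgroup T} {s : T} {p : ℕ} {a : ι → T} (F : Fac M s p a) where
  P : Set (T × ι)
  hit : ∀ j (C : Set T), C.Nonempty → Clo a F.col j C → ∃ e ∈ P, F.col e.1 e.2 = j ∧ e.1 ∈ C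
  deg : ∀ x, hdeg M s a P x ≤ 2
  acyc : ∀ C : Set T, C.Nonempty → (∀ x ∈ C, ∀ d, Dart a P x d → x + sa a d ∈ C) →
    (∀ x ∈ C, x + s ∈ M → x + s ∈ C) → (∀ x ∈ C, x ∈ M → x - s ∈ C) → ∃ x ∈ C, hdeg M s a P x ≠ 2

/-! ### closures -/

private def hcl (K : Set (Set T)) (x : T) : Set T := {y | ∀ C ∈ K, x ∈ C → y ∈ C}

omit [AddCommGroup T] in
private theorem hcl_self (K : Set (Set T)) (x : T) : x ∈ hcl K x := fun _ _ h => h

omit [AddCommGroup T] in
private theorem hcl_sub {K : Set (Set T)} {C : Set T} {x : T} (hC : C ∈ K) (hx : x ∈ C) :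
    hcl K x ⊆ C := fun _ hy => hy C hC hx

omit [AddCommGroup T] in
private theorem hcl_eq {K : Set (Set T)} (hK : ∀ C ∈ K, Cᶜ ∈ K) {x y : T} (h : y ∈ hcl K x) :
    hcl K y = hcl K x := by
  ext z
  constructor
  · intro hz C hC hx
    exact hz C hC (h C hC hx)
  · intro hz C hC hy
    apply hz C hC
    by_contra hx
    exact h Cᶜ (hK C hC) hx hy

private theorem sa_rev (a : ι → T) (d : ι × Bool) : sa a (d.1, !d.2) = -sa a d := by
  obtain ⟨i, b⟩ := d
  cases b <;> simp [sa]

private theorem cd_rev {κ : Type} (a : ι → T) (col : T → ι → κ) (x : T) (d : ι × Bool) :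
    cd a col (x + sa a d) (d.1, !d.2) = cd a col x d := by
  obtain ⟨i, b⟩ := d
  cases b <;> simp [cd, sa, sub_eq_add_neg]

private theorem dart_rev {a : ι → T} {N : Set (T × ι)} {x : T} {d : ι × Bool}
    (h : Dart a N x d) : Dart a N (x + sa a d) (d.1, !d.2) := by
  obtain ⟨i, b⟩ := d
  cases b
  · simpa [Dart, sa, sub_eq_add_neg] using h
  · simpa [Dart, sa, sub_eq_add_neg] using h

private theorem clo_compl {κ : Type} {a : ι → T} {col : T → ι → κ} {j : κ} {C : Set T}
    (h : Clo a col j C) : Clo a col j Cᶜ := by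
  intro x hx d hd hC
  apply hx
  have h2 := h _ hC (d.1, !d.2) (by rw [cd_rev]; exact hd)
  rw [sa_rev] at h2
  simpa using h2

private theorem clo_hcl {κ : Type} {a : ι → T} {col : T → ι → κ} {j : κ} (x : T) :
    Clo a col j (hcl {C | Clo a col j C} x) := by
  intro y hy d hd C hC hx
  exact hC y (hy C hC hx) d hd

private def HClo (M : AddSubgroup T) (s : T) (a : ι → T) (N : Set (T × ι)) (C : Set T) : Prop :=
  (∀ x ∈ C, ∀ d, Dart a N x d → x + sa a d ∈ C) ∧ (∀ x ∈ C, x + s ∈ M → x + s ∈ C) ∧
    (∀ x ∈ C, x ∈ M → x - s ∈ C)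

private theorem hclo_compl {M : AddSubgroup T} {s : T} {a : ι → T} {N : Set (T × ι)} {C : Set T}
    (h : HClo M s a N C) : HClo M s a N Cᶜ := by
  obtain ⟨h1, h2, h3⟩ := h
  refine ⟨?_, ?_, ?_⟩
  · intro x hx d hd hC
    apply hx
    have := h1 _ hC (d.1, !d.2) (dart_rev hd)
    rw [sa_rev] at this
    simpa using this
  · intro x hx hM hC
    apply hx
    have := h3 _ hC hM
    simpa using this
  · intro x hx hM hC
    apply hx
    have := h2 _ hC (by simpa using hM)
    simpa using this

private theorem hclo_hcl {M : AddSubgroup T} {s : T} {a : ι → T} {N : Set (T × ι)} (x : T) :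
    HClo M s a N (hcl {C | HClo M s a N C} x) := by
  refine ⟨?_, ?_, ?_⟩
  · intro y hy d hd C hC hx
    exact hC.1 y (hy C hC hx) d hd
  · intro y hy hd C hC hx
    exact hC.2.1 y (hy C hC hx) hd
  · intro y hy hd C hC hx
    exact hC.2.2 y (hy C hC hx) hd

/-! ### degrees -/

private def hU {M : AddSubgroup T} {s : T} {p : ℕ} {a : ι → T} (F : Fac M s p a) (x : T) :
    Set (ι × Bool) := {d | Dart a F.NN x d ∧ F.lev (x + sa a d) = F.lev x + 1}

private def hD {M : AddSubgroup T} {s : T} {p : ℕ} {a : ι → T} (F : Fac M s p a) (x : T) :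
    Set (ι × Bool) := {d | Dart a F.NN x d ∧ F.lev x = F.lev (x + sa a d) + 1}

open scoped Classical in
private theorem hU_le [Finite ι] {M : AddSubgroup T} {s : T} {p : ℕ} {a : ι → T}
    (F : Fac M s p a) (x : T) : (hU F x).ncard + (if x + s ∈ M then 1 else 0) ≤ 1 := by
  split_ifs with h
  · have h0 : hU F x = ∅ := by
      ext d
      simp only [hU, Set.mem_ofPred_eq, Set.mem_empty_iff_false, iff_false]
      rintro ⟨-, h2⟩
      have h3 := F.lev_lt (x + sa a d)
      have h4 := (F.lev_last x).2 h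
      have h5 := F.lev_lt x
      omega
    rw [h0]; simp
  · rw [add_zero, Set.ncard_le_one (Set.toFinite _)]
    rintro d ⟨h1, h2⟩ d' ⟨h1', h2'⟩
    exact F.up x d d' h1 h1' h2 h2'

open scoped Classical in
private theorem hD_le [Finite ι] {M : AddSubgroup T} {s : T} {p : ℕ} {a : ι → T}
    (F : Fac M s p a) (x : T) : (hD F x).ncard + (if x ∈ M then 1 else 0) ≤ 1 := by
  split_ifs with h
  · have h0 : hD F x = ∅ := by
      ext d
      simp only [hD, Set.mem_ofPred_eq, Set.mem_empty_iff_false, iff_false]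
      rintro ⟨-, h2⟩
      have h4 := (F.lev_zero x).2 h
      omega
    rw [h0]; simp
  · rw [add_zero, Set.ncard_le_one (Set.toFinite _)]
    rintro d ⟨h1, h2⟩ d' ⟨h1', h2'⟩
    exact F.down x d d' h1 h1' h2 h2'

private theorem dart_mono {a : ι → T} {P N : Set (T × ι)} (h : P ⊆ N) {x : T} {d : ι × Bool}
    (hd : Dart a P x d) : Dart a N x d := by
  unfold Dart at hd ⊢
  split_ifs at hd ⊢ with h1
  · exact h hd
  · exact h hd

private theorem dart_NN_sub {M : AddSubgroup T} {s : T} {p : ℕ} {a : ι → T}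
    (F : Fac M s p a) (x : T) : {d | Dart a F.NN x d} ⊆ hU F x ∪ hD F x := by
  intro d hd
  rcases F.step x d hd with h | h
  · exact Or.inl ⟨hd, h⟩
  · exact Or.inr ⟨hd, h⟩

theorem host [Finite T] [Finite ι] {M : AddSubgroup T} {s : T} {p : ℕ} {a : ι → T}
    (F : Fac M s p a) (hs : s ∉ M) (hne : ∀ i, a i ≠ s ∧ a i ≠ -s) : Nonempty (HostData F) := by
  classical
  let X : Type := {e : T × ι // e ∈ F.NN}
  let f : X → ι × Set T := fun e =>
    (F.col e.1.1 e.1.2, hcl {C | Clo a F.col (F.col e.1.1 e.1.2) C} e.1.1)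
  let g : X → Set T := fun e => hcl {C | HClo M s a F.NN C} e.1.1
  obtain ⟨c, hcf, hcg⟩ := bal f g
  let S : ι × Set T → Option X := fun k =>
    if h : ∃ w, f w = k ∧ c w = true then some h.choose else none
  have hS1 : ∀ k x, S k = some x → f x = k ∧ c x = true := by
    intro k x hk
    simp only [S] at hk
    split_ifs at hk with h
    have := h.choose_spec
    rw [Option.some.inj hk] at this
    exact this
  have hS2 : ∀ k, (∃ w, f w = k ∧ c w = true) → ∃ x, S k = some x := by
    intro k h
    simp only [S]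
    rw [dif_pos h]
    exact ⟨_, rfl⟩
  let P : Set (T × ι) := {e | ∃ k x, S k = some x ∧ x.1 = e}
  have hPN : P ⊆ F.NN := by
    rintro e ⟨k, x, -, rfl⟩
    exact x.2
  have hPc : ∀ (e : T × ι) (h : e ∈ F.NN), e ∈ P → c ⟨e, h⟩ = true := by
    rintro e h ⟨k, x, hk, rfl⟩
    exact (hS1 k x hk).2
  have hdegle : ∀ x, {d | Dart a P x d}.ncard ≤ {d | Dart a F.NN x d}.ncard := fun x =>
    Set.ncard_le_ncard (fun d hd => dart_mono hPN hd) (Set.toFinite _)
  have hNNle : ∀ x, {d | Dart a F.NN x d}.ncard ≤ (hU F x).ncard + (hD F x).ncard := fun x =>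
    (Set.ncard_le_ncard (dart_NN_sub F x) (Set.toFinite _)).trans (Set.ncard_union_le _ _)
  refine ⟨⟨P, ?_, ?_, ?_⟩⟩
  · -- hit
    rintro j C ⟨x₀, hx₀⟩ hC
    have hK : ∀ C' ∈ {C' | Clo a F.col j C'}, C'ᶜ ∈ {C' | Clo a F.col j C'} :=
      fun C' h => clo_compl h
    obtain ⟨e₁, he₁, e₂, he₂, hne12, hj1, hj2, hm1, hm2⟩ :=
      F.loops j (hcl {C' | Clo a F.col j C'} x₀) ⟨x₀, hcl_self _ _⟩ (clo_hcl x₀)
    have hf1 : f ⟨e₁, he₁⟩ = (j, hcl {C' | Clo a F.col j C'} x₀) := by
      simp only [f]
      rw [hj1, hcl_eq hK hm1]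
    have hf2 : f ⟨e₂, he₂⟩ = (j, hcl {C' | Clo a F.col j C'} x₀) := by
      simp only [f]
      rw [hj2, hcl_eq hK hm2]
    obtain ⟨z, hz1, hz2⟩ := hcf ⟨e₁, he₁⟩ ⟨e₂, he₂⟩ (fun h => hne12 (congrArg Subtype.val h))
      (hf1.trans hf2.symm) true
    obtain ⟨x, hx⟩ := hS2 _ ⟨z, hz1.trans hf1, hz2⟩
    have hfx := (hS1 _ _ hx).1
    simp only [f, Prod.mk.injEq] at hfx
    obtain ⟨hfx1, hfx2⟩ := hfx
    refine ⟨x.1, ⟨_, x, hx, rfl⟩, hfx1, ?_⟩
    have : x.1.1 ∈ hcl {C' | Clo a F.col j C'} x₀ := by
      rw [← hfx2]; exact hcl_self _ _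
    exact hcl_sub hC hx₀ this
  · -- deg
    intro x
    have h1 := hU_le F x
    have h2 := hD_le F x
    have h3 := hdegle x
    have h4 := hNNle x
    unfold hdeg
    omega
  · -- acyc
    rintro C ⟨x₀, hx₀⟩ hC1 hC2 hC3
    by_contra hcon
    push Not at hcon
    -- equality everywhere
    have key : ∀ x ∈ C, {d | Dart a P x d} = {d | Dart a F.NN x d} ∧
        ((x + s ∈ M) ∨ ∃ d, d ∈ hU F x) ∧ ((x ∈ M) ∨ ∃ d, d ∈ hD F x) := by
      intro x hx
      have h0 := hcon x hx
      unfold hdeg at h0
      have h1 := hU_le F x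
      have h2 := hD_le F x
      have h3 := hdegle x
      have h4 := hNNle x
      refine ⟨?_, ?_, ?_⟩
      · have hle : {d | Dart a F.NN x d}.ncard ≤ {d | Dart a P x d}.ncard := by omega
        exact Set.eq_of_subset_of_ncard_le (fun d hd => dart_mono hPN hd) hle (Set.toFinite _)
      · by_contra hh
        push Not at hh
        have hU0 : hU F x = ∅ := Set.eq_empty_of_forall_notMem hh.2
        have hn := congrArg Set.ncard hU0
        rw [Set.ncard_empty] at hn
        rw [if_neg hh.1] at h0
        omega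
      · by_contra hh
        push Not at hh
        have hD0 : hD F x = ∅ := Set.eq_empty_of_forall_notMem hh.2
        have hn := congrArg Set.ncard hD0
        rw [Set.ncard_empty] at hn
        rw [if_neg hh.1] at h0
        omega
    have hCH : HClo M s a F.NN C := by
      refine ⟨?_, hC2, hC3⟩
      intro x hx d hd
      have : d ∈ {d | Dart a P x d} := by rw [(key x hx).1]; exact hd
      exact hC1 x hx d this
    -- an edge of P
    obtain ⟨e, heP, heC⟩ : ∃ e ∈ P, e.1 ∈ C := by
      have hex : ∃ d, Dart a P x₀ d := by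
        obtain ⟨k1, k2, k3⟩ := key x₀ hx₀
        have hor : ∃ d, Dart a F.NN x₀ d := by
          rcases k2 with k2 | ⟨d, hd⟩
          · rcases k3 with k3 | ⟨d, hd⟩
            · exact absurd ((M.add_mem_cancel_left k3).1 k2) hs
            · exact ⟨d, hd.1⟩
          · exact ⟨d, hd.1⟩
        obtain ⟨d, hd⟩ := hor
        refine ⟨d, ?_⟩
        have : d ∈ {d | Dart a P x₀ d} := by rw [k1]; exact hd
        exact this
      obtain ⟨⟨i, b⟩, hd⟩ := hex
      cases b
      · have h2 := hC1 x₀ hx₀ _ hd
        simp only [Dart, sa, Bool.false_eq_true, if_false, ← sub_eq_add_neg] at hd h2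
        exact ⟨_, hd, h2⟩
      · simp only [Dart, if_true] at hd
        exact ⟨_, hd, hx₀⟩
    have heN : e ∈ F.NN := hPN heP
    have hKH : ∀ C' ∈ {C' | HClo M s a F.NN C'}, C'ᶜ ∈ {C' | HClo M s a F.NN C'} :=
      fun C' h => hclo_compl h
    set K := hcl {C' | HClo M s a F.NN C'} e.1 with hKdef
    have hKC : K ⊆ C := hcl_sub hCH heC
    have hKclo : HClo M s a F.NN K := hclo_hcl e.1
    -- the edge is alone in its class
    have alone : ∀ e' ∈ F.NN, e'.1 ∈ K → e' = e := by
      intro e' he' hm
      by_contra hne'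
      have hg : g ⟨e', he'⟩ = g ⟨e, heN⟩ := hcl_eq hKH hm
      obtain ⟨z, hz1, hz2⟩ := hcg ⟨e, heN⟩ ⟨e', he'⟩
        (fun h => hne' (congrArg Subtype.val h).symm) hg.symm false
      have hzK : z.1.1 ∈ K := by
        have : z.1.1 ∈ g z := hcl_self _ _
        rw [hz1] at this
        exact this
      have hd : Dart a F.NN z.1.1 (z.1.2, true) := by
        simp only [Dart, if_true]
        exact z.2
      have hd' : (z.1.2, true) ∈ {d | Dart a P z.1.1 d} := by
        rw [(key z.1.1 (hKC hzK)).1]; exact hd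
      simp only [Set.mem_ofPred_eq, Dart, if_true] at hd'
      have := hPc z.1 z.2 hd'
      rw [hz2] at this
      exact Bool.false_ne_true this
    obtain ⟨x, i⟩ := e
    -- darts in the class
    have darts : ∀ w ∈ K, ∀ d, Dart a F.NN w d →
        (w = x ∧ d = (i, true)) ∨ (w = x + a i ∧ d = (i, false)) := by
      rintro w hw ⟨i', b⟩ hd
      cases b
      · right
        have h2 := hKclo.1 w hw _ hd
        simp only [Dart, sa, Bool.false_eq_true, if_false, ← sub_eq_add_neg] at hd h2
        have := alone _ hd h2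
        simp only [Prod.mk.injEq] at this
        obtain ⟨h3, rfl⟩ := this
        refine ⟨?_, rfl⟩
        rw [← h3]; abel
      · left
        simp only [Dart, if_true] at hd
        have := alone _ hd hw
        simp only [Prod.mk.injEq] at this
        obtain ⟨h3, rfl⟩ := this
        exact ⟨h3, rfl⟩
    have hdx : Dart a F.NN x (i, true) := by
      simp only [Dart, if_true]; exact heN
    have hxK : x ∈ K := hcl_self _ _
    have hyK : x + a i ∈ K := by
      have := hKclo.1 x hxK _ hdx
      simpa [sa] using this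
    have hs0 : s ≠ 0 := fun h => hs (h ▸ M.zero_mem)
    have hlev := F.step x (i, true) hdx
    have hsat : sa a (i, true) = a i := by simp [sa]
    have hsaf : sa a (i, false) = -a i := by simp [sa]
    rw [hsat] at hlev
    rcases hlev with hl | hl
    · -- x lower, x + a i upper
      have hyM : x + a i + s ∈ M := by
        rcases (key _ (hKC hyK)).2.1 with h | ⟨d, hd1, hd2⟩
        · exact h
        · exfalso
          rcases darts _ hyK d hd1 with ⟨h1, h2⟩ | ⟨h1, h2⟩
          · rw [h1] at hl; omega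
          · rw [h2, hsaf, add_neg_cancel_right] at hd2; omega
      have hwK : x + a i + s ∈ K := hKclo.2.1 _ hyK hyM
      rcases (key _ (hKC hwK)).2.1 with h | ⟨d, hd1, hd2⟩
      · exact hs ((M.add_mem_cancel_left hyM).1 h)
      · rcases darts _ hwK d hd1 with ⟨h1, h2⟩ | ⟨h1, h2⟩
        · apply (hne i).2
          have h3 : x + (a i + s) = x + 0 := by rw [add_zero, ← add_assoc]; exact h1
          exact eq_neg_of_add_eq_zero_left (add_left_cancel h3)
        · apply hs0
          have h3 : x + a i + s = x + a i + 0 := by rw [add_zero]; exact h1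
          exact add_left_cancel h3
    · -- x upper, x + a i lower
      have hxM : x + s ∈ M := by
        rcases (key _ (hKC hxK)).2.1 with h | ⟨d, hd1, hd2⟩
        · exact h
        · exfalso
          rcases darts _ hxK d hd1 with ⟨h1, h2⟩ | ⟨h1, h2⟩
          · rw [h2, hsat] at hd2; omega
          · rw [← h1] at hl; omega
      have hwK : x + s ∈ K := hKclo.2.1 _ hxK hxM
      rcases (key _ (hKC hwK)).2.1 with h | ⟨d, hd1, hd2⟩
      · exact hs ((M.add_mem_cancel_left hxM).1 h)
      · rcases darts _ hwK d hd1 with ⟨h1, h2⟩ | ⟨h1, h2⟩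
        · apply hs0
          have h3 : x + s = x + 0 := by rw [add_zero]; exact h1
          exact add_left_cancel h3
        · apply (hne i).1
          exact (add_left_cancel h1).symm

end Pool.Agent.CA
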