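import Pool.Agent.CA.StartC

/-!
# Levels of odd prime index in groups of odd order (helper39)
-/

set_option autoImplicit false

namespace Pool.Agent.CA

theorem oddFac (h : DescendStmt) {T ι : Type} [AddCommGroup T] [Finite T]
    [Finite ι] (hT : Odd (Nat.card T)) {M : AddSubgroup T} {p : ℕ} (hp : p.Prime) (hM : M.index = p)
    {s : T} (hs : s ∉ M) (a : ι → T) (ha : ∀ i, a i ∉ M) (hinj : Function.Injective a)
    (hneg : ∀ i j, a i ≠ -a j) : Nonempty (Fac M s p a) := by
  have : Fact p.Prime := ⟨hp⟩
  exact oddFacC h hT hM hs a ha hinj hneg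

end Pool.Agent.CA
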