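import Mathlib

/-!
# CA-SUBIDX: a finite abelian group has a subgroup of every prime index which divides its order
-/

set_option autoImplicit false

namespace Pool.Agent.CA

theorem exists_index_aux {V : Type} [AddCommGroup V] {p : ℕ} [Fact p.Prime] [Module (ZMod p) V]
    {v : V} (hv : v ≠ 0) : ∃ g : V →+ ZMod p, Function.Surjective g := by
  obtain ⟨f, hf⟩ : ∃ f : V →ₗ[ZMod p] ZMod p, f v ≠ 0 := by
    by_contra hn
    push Not at hn
    exact hv ((Module.forall_dual_apply_eq_zero_iff (ZMod p) _).1 hn)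
  refine ⟨f.toAddMonoidHom, fun a => ⟨(a / f v) • v, ?_⟩⟩
  show f ((a / f v) • v) = a
  rw [map_smul, smul_eq_mul, div_mul_cancel₀ _ hf]

theorem exists_index {T : Type} [AddCommGroup T] [Finite T] {p : ℕ} (hp : p.Prime)
    (h : p ∣ Nat.card T) : ∃ M : AddSubgroup T, M.index = p := by
  have : Fact p.Prime := ⟨hp⟩
  -- multiplication by `p` is not surjective
  obtain ⟨x, hx⟩ := exists_prime_addOrderOf_dvd_card' p h
  have hninj : ¬ Function.Injective (fun y : T => p • y) := by
    intro hi
    have h0 : x = 0 := by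
      apply hi
      show p • x = p • (0 : T)
      rw [smul_zero, ← hx]
      exact addOrderOf_nsmul_eq_zero x
    rw [h0, addOrderOf_zero] at hx
    exact hp.one_lt.ne hx
  have hnsurj : ¬ Function.Surjective (fun y : T => p • y) := fun hs =>
    hninj ((Finite.injective_iff_surjective).2 hs)
  set R : AddSubgroup T := (nsmulAddMonoidHom (α := T) p).range with hR
  have hRne : ∃ z : T, z ∉ R := by
    by_contra hn
    push Not at hn
    exact hnsurj fun z => hn z
  obtain ⟨z, hz⟩ := hRne
  have hV : ∀ v : T ⧸ R, p • v = 0 := by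
    intro v
    obtain ⟨y, rfl⟩ := QuotientAddGroup.mk_surjective v
    rw [← QuotientAddGroup.mk_nsmul, QuotientAddGroup.eq_zero_iff]
    exact ⟨y, rfl⟩
  have hz' : (QuotientAddGroup.mk z : T ⧸ R) ≠ 0 := by
    rw [Ne, QuotientAddGroup.eq_zero_iff]
    exact hz
  obtain ⟨g0, hg0⟩ : ∃ g : (T ⧸ R) →+ ZMod p, Function.Surjective g :=
    @exists_index_aux (T ⧸ R) _ p _ (AddCommGroup.zmodModule hV) _ hz'
  refine ⟨(g0.comp (QuotientAddGroup.mk' R)).ker, ?_⟩
  have hgs : Function.Surjective (g0.comp (QuotientAddGroup.mk' R)) := by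
    intro a
    obtain ⟨v, hv⟩ := hg0 a
    obtain ⟨y, rfl⟩ := QuotientAddGroup.mk_surjective v
    exact ⟨y, hv⟩
  rw [AddSubgroup.index_ker, AddMonoidHom.range_eq_top.2 hgs]
  simp

end Pool.Agent.CA
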