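import Pool.Agent.CA.Level
import Pool.Agent.CA.EvenFac
import Pool.Agent.CA.OddFac
import Pool.Agent.CA.SubIdx
import Pool.Agent.CA.Descend
import Pool.Agent.Helper43.LA.Layer

/-!
# The linear arboricity of abelian Cayley graphs
-/

set_option autoImplicit false

namespace Pool.Agent.CA

open Pool.Agent.Helper39.HD Pool.Agent.Helper43.LA

theorem exists_fac {T : Type} [AddCommGroup T] [Finite T]
    [Nontrivial T] : ∃ (p : ℕ) (M : AddSubgroup T), p.Prime ∧ M.index = p ∧
      ∀ (s : T), s ∉ M → ∀ (ι : Type) [Finite ι] (a : ι → T), (∀ i, a i ∉ M) →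
        Function.Injective a → (∀ i j, a i ≠ -a j) → Nonempty (Fac M s p a) := by
  rcases Nat.even_or_odd (Nat.card T) with h | h
  · obtain ⟨M, hM⟩ := exists_index (T := T) Nat.prime_two h.two_dvd
    exact ⟨2, M, Nat.prime_two, hM, fun s hs ι _ a ha hinj hneg =>
      evenFac descendStmt hM hs a ha hinj hneg⟩
  · have h1 : Nat.card T ≠ 1 := (Finite.one_lt_card (α := T)).ne'
    obtain ⟨M, hM⟩ := exists_index (T := T) (Nat.minFac_prime h1) (Nat.minFac_dvd _)
    exact ⟨_, M, Nat.minFac_prime h1, hM, fun s hs ι _ a ha hinj hneg =>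
      oddFac descendStmt h (Nat.minFac_prime h1) hM hs a ha hinj hneg⟩

/-- every finite abelian Cayley graph decomposes into (number of generators) + 1 linear forests -/
theorem la {T ι : Type} [AddCommGroup T] [Finite T]
    [Finite ι] (a : ι → T) (hinj : Function.Injective a) (hneg : ∀ i j, a i ≠ -a j) :
    HasFD T a := by
  suffices H : ∀ (n : ℕ) (T : Type) [AddCommGroup T] [Finite T] (ι : Type) [Finite ι] (a : ι → T),
      Function.Injective a → (∀ i j, a i ≠ -a j) → Nat.card T = n → HasFD T a from
    H _ T ι a hinj hneg rfl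
  intro n
  induction n using Nat.strong_induction_on with
  | _ n ih =>
    intro T _ _ ι _ a hinj hneg hn
    classical
    rcases subsingleton_or_nontrivial T with hT | hT
    · have : IsEmpty ι := ⟨fun i => hneg i i (Subsingleton.elim _ _)⟩
      exact hasFD_of_isEmpty a
    obtain ⟨p, M, hp, hM, hfac⟩ := exists_fac (T := T)
    have hlt : Nat.card M < n := by
      rw [← hn, ← M.card_mul_index, hM]
      have h1 : 0 < Nat.card M := Nat.card_pos
      have h2 := hp.two_le
      nlinarith
    have hsub : ∀ (ιB : Type) [Finite ιB] (b : ιB → M), Function.Injective b →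
        (∀ i j, b i ≠ -b j) → HasFD M b := fun ιB _ b h1 h2 => ih _ hlt M ιB b h1 h2 rfl
    by_cases hall : ∀ i, a i ∈ M
    · exact HasFD.of_subgroup M (a := fun i => (⟨a i, hall i⟩ : M))
        (hsub _ _ (fun i j h => hinj (congrArg Subtype.val h))
          (fun i j h => hneg i j (congrArg Subtype.val h)))
    · push Not at hall
      obtain ⟨i0, hi0⟩ := hall
      let ιB := {i // a i ∈ M}
      let ι1 := {i // i ≠ i0 ∧ a i ∉ M}
      obtain ⟨F⟩ := hfac (a i0) hi0 ι1 (fun i => a i.1) (fun i => i.2.2)
        (fun i j h => Subtype.ext (hinj h)) (fun i j => hneg _ _)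
      have h1 := level hp hM hi0 (fun i : ιB => (⟨a i.1, i.2⟩ : M))
        (hsub _ _ (fun i j h => Subtype.ext (hinj (congrArg Subtype.val h)))
          (fun i j h => hneg i.1 j.1 (congrArg Subtype.val h)))
        (fun i : ι1 => a i.1) F (fun i => ⟨fun h => i.2.1 (hinj h), hneg _ _⟩)
      let f : ι → ιB ⊕ Option ι1 := fun i =>
        if h : a i ∈ M then Sum.inl ⟨i, h⟩ else
          if h' : i = i0 then Sum.inr none else Sum.inr (some ⟨i, h', h⟩)
      let g : ιB ⊕ Option ι1 → ι := Sum.elim (fun i => i.1) (fun o => o.elim i0 fun i => i.1)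
      let e : ι ≃ ιB ⊕ Option ι1 :=
        { toFun := f
          invFun := g
          left_inv := by
            intro i
            by_cases h : a i ∈ M
            · simp [f, g, h]
            · by_cases h' : i = i0
              · subst h'
                simp [f, g, h]
              · simp [f, g, h, h']
          right_inv := by
            rintro (⟨i, hi⟩ | _ | ⟨i, hi, hi'⟩)
            · simp [f, g, hi]
            · simp [f, g, hi0]
            · simp [f, g, hi, hi'] }
      refine h1.comap id e ?_
      intro i y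
      change y + a i = y + _
      congr 1
      have h2 : g (e i) = i := e.left_inv i
      conv_lhs => rw [← h2]
      rcases e i with ⟨j, hj⟩ | _ | ⟨j, hj, hj'⟩ <;> rfl

end Pool.Agent.CA
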