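import Pool.Agent.CA.Asm
import Pool.Agent.CA.FD
import Pool.Agent.CA.Card

/-!
# One level
-/

set_option autoImplicit false

namespace Pool.Agent.CA

open Pool.Agent.Helper39.HD Pool.Agent.Helper43.LA

theorem level {T ιB ι : Type} [AddCommGroup T] [Finite T] [Finite ιB] [Finite ι]
    {M : AddSubgroup T} {s : T} {p : ℕ} (hp : p.Prime) (hM : M.index = p) (hs : s ∉ M)
    (b : ιB → M) (hb : HasFD M b) (a : ι → T) (F : Fac M s p a)
    (hne : ∀ i, a i ≠ s ∧ a i ≠ -s) :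
    HasFD T (Sum.elim (fun i => (b i : T)) fun o : Option ι => o.elim s a) := by
  obtain ⟨C, hC, ⟨D⟩⟩ := hb
  obtain ⟨hCf, hcard⟩ := fd_card D
  obtain ⟨colB, h1, h2⟩ := merge hp hM hs b D
  obtain ⟨H⟩ := host F hs hne
  obtain ⟨col, hcol⟩ := asm hs (fun i => (b i : T)) a colB h1 h2 F H
  refine ⟨C ⊕ Option ι, inferInstance, fd_of_lf hcol ?_⟩
  rw [Nat.card_sum, Nat.card_sum, hcard]
  omega

end Pool.Agent.CA
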