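import Pool.Agent.Helper15.OS.Bridge

/-!
# The combinatorial odd step
-/

set_option autoImplicit false

namespace Pool.Agent.CA

theorem oddComb : OddComb := Pool.Agent.Helper15.OS.oddComb

end Pool.Agent.CA
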