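import Pool.Agent.CA.StartEven
import Pool.Agent.CA.Zig

/-!
# Start state and factorisation for a level of odd prime index in a group of odd order
-/

set_option autoImplicit false

namespace Pool.Agent.CA

open Equiv

section

variable {T ι : Type} [AddCommGroup T] [Finite ι] {p : ℕ} [Fact p.Prime]

/-- start state of a level of odd prime index -/
theorem start_odd (hp2 : p % 2 = 1) (ψ : T →+ ZMod p) (a : ι → T) (ha : ∀ i, ψ (a i) ≠ 0) :
    ∃ (β : ι → Bool) (S : St (fun i => sa a (i, β i)) (fun _ : ι => true) (1 : Perm ι) ψ)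
      (η : ZMod p → Bool), (∀ h, h ∈ S.D ↔ zl (h.1 + ψ (sa a (h.2, β h.2))) = zl h.1 + 1) ∧
      (∀ x i, S.L x i = i) ∧ ∀ I : Prop, ¬ I → OddGood S η I := by
  classical
  choose β v₁ v₂ hne hsum hiff using fun i => zig hp2 (ψ (a i)) (ha i)
  have hcl : ∀ i, ψ (sa a (i, β i)) = if β i then ψ (a i) else -ψ (a i) := by
    intro i
    by_cases h : β i = true
    · simp [sa, h]
    · simp [sa, h]
  let e : ι → T := fun i => sa a (i, β i)
  have hne0 : ∀ i, ψ (e i) ≠ 0 := by
    intro i
    change ψ (sa a (i, β i)) ≠ 0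
    rw [hcl]
    split_ifs
    · exact ha i
    · exact neg_ne_zero.2 (ha i)
  have hiff' : ∀ i v, zl (v + ψ (e i)) = zl v + 1 ↔ v = v₁ i ∨ v = v₂ i := by
    intro i v
    change zl (v + ψ (sa a (i, β i))) = zl v + 1 ↔ _
    rw [hcl]
    exact hiff i v
  let S : St e (fun _ : ι => true) (1 : Perm ι) ψ :=
    { L := fun _ => 1
      succ :=
        { toFun := fun h => (h.1 + ψ (e h.2), h.2)
          invFun := fun h => (h.1 - ψ (e h.2), h.2)
          left_inv := fun h => by simp
          right_inv := fun h => by simp }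
      bij := fun t => ⟨fun x y h => add_right_cancel h, fun y => ⟨y - ψ (e t), by simp⟩⟩
      snd := fun h => rfl
      fst := fun h => by simp [inl, outl, lab]
      D := {h | zl (h.1 + ψ (e h.2)) = zl h.1 + 1}
      wd := fun h hh h' hh' hx => by
        have h1 : zl (h.1 + ψ (e h.2)) = zl h.1 + 1 := hh
        have h2 : zl (h'.1 + ψ (e h'.2)) = zl h'.1 + 1 := hh'
        rw [hx] at h1
        have h3 := zl_inj hp2 (h1.trans h2.symm)
        have h4 := add_left_cancel h3
        simpa [lab] using h4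
      inj := fun h hh h' hh' hx => by
        have h1 : zl (h.1 + ψ (e h.2)) = zl h.1 + 1 := hh
        have h2 : zl (h'.1 + ψ (e h'.2)) = zl h'.1 + 1 := hh'
        have h3 : h.1 + ψ (e h.2) = h'.1 + ψ (e h'.2) := by simpa [lab] using hx
        rw [h3] at h1
        apply zl_inj hp2
        omega }
  have hs : ∀ h, S.succ h = (h.1 + ψ (e h.2), h.2) := fun h => rfl
  have hsp : ∀ (n : ℕ) h, (S.succ ^ n) h = (h.1 + n • ψ (e h.2), h.2) := by
    intro n h
    induction n with
    | zero => simp
    | succ n ih =>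
      rw [pow_succ', Perm.mul_apply, ih, hs]
      simp only [succ_nsmul, add_assoc]
  have hcyc : ∀ (x y : ZMod p) i, S.succ.SameCycle (x, i) (y, i) := by
    intro x y i
    refine ⟨(((y - x) / ψ (e i)).val : ℕ), ?_⟩
    rw [zpow_natCast, hsp]
    simp only [nsmul_eq_mul, ZMod.natCast_val, ZMod.cast_id', id_eq, Prod.mk.injEq, and_true]
    rw [div_mul_cancel₀ _ (hne0 i)]
    abel
  refine ⟨β, S, fun v => decide (2 * zl v + 2 < p), fun h => Iff.rfl, fun _ _ => rfl, ?_⟩
  rintro I hI ⟨x, i⟩
  left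
  refine ⟨(v₁ i, i), (v₂ i, i), fun h => hne i (congrArg Prod.fst h), ?_, ?_, fun h => absurd h hI⟩
  · ext ⟨y, j⟩
    constructor
    · rintro ⟨h1, h2⟩
      have h3 : j = i := by
        have : Finite (ZMod p × ι) := inferInstance
        exact sameCycle_of_invariant S.succ (fun h => h.2 = i) (fun h hh => by rw [hs]; exact hh)
          (x := (x, i)) rfl h2
      subst h3
      rcases (hiff' j y).1 h1 with h | h
      · left; rw [h]
      · right; rw [h]; rfl
    · rintro (h | h)
      · obtain ⟨rfl, rfl⟩ := Prod.mk.inj h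
        exact ⟨(hiff' _ _).2 (Or.inl rfl), hcyc _ _ _⟩
      · obtain ⟨rfl, rfl⟩ := Prod.mk.inj h
        exact ⟨(hiff' _ _).2 (Or.inr rfl), hcyc _ _ _⟩
  · have h1 := hsum i
    simp only [ns]
    by_cases h2 : 2 * zl (v₁ i) + 2 < p
    · have h3 : ¬ (2 * zl (v₂ i) + 2 < p) := by omega
      simp [h2, h3]
    · have h3 : 2 * zl (v₂ i) + 2 < p := by omega
      simp [h2, h3]

/-- the factorisation of a level of odd prime index from the final state -/
theorem fac_of_odd [Finite T] (hp2 : p % 2 = 1) {M : AddSubgroup T} (ψ : T →+ ZMod p)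
    (hψ : ∀ x, ψ x = 0 ↔ x ∈ M) {s : T} (hs : ψ s = 1) (a : ι → T)
    (hinj : Function.Injective a) (hneg : ∀ i j, a i ≠ -a j) (β : ι → Bool)
    (S : St (fun i => sa a (i, β i)) (fun _ : ι => true) (1 : Perm ι) (AddMonoidHom.id T))
    (hS : ∀ h, 2 ≤ (S.DL h).ncard)
    (hD : ∀ h ∈ S.D, zl (ψ h.1 + ψ (sa a (S.L h.1 h.2, β (S.L h.1 h.2)))) = zl (ψ h.1) + 1) :
    Nonempty (Fac M s p a) := by
  classical
  have hsinj := sa_injective hinj hneg
  -- every slot is a perfect matching
  have hbij : ∀ (t : ι) (x : T), ∃ y : T, y + sa a (S.L y t, β (S.L y t)) = x ∧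
      ∀ y' : T, y' + sa a (S.L y' t, β (S.L y' t)) = x → y' = y := by
    intro t x
    obtain ⟨y, hy⟩ := (S.bij t).2 x
    exact ⟨y, hy, fun y' hy' => (S.bij t).1 (hy'.trans hy.symm)⟩
  let col : T → ι → ι := fun x i =>
    if β i then (S.L x).symm i else (S.L (x + a i)).symm i
  have cd_f : ∀ (x : T) i, cd a col x (i, β i) = (S.L x).symm i := by
    intro x i
    by_cases h : β i = true
    · simp only [cd, h, if_true, col]
    · simp only [cd, h, if_false, col, sub_add_cancel, Bool.false_eq_true]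
  have cd_b : ∀ (x : T) i, cd a col x (i, !β i) = (S.L (x + sa a (i, !β i))).symm i := by
    intro x i
    by_cases h : β i = true
    · simp only [cd, h, if_true, col, Bool.not_true, Bool.false_eq_true, if_false, sa,
        sub_eq_add_neg]
    · have h' : β i = false := by simpa using h
      simp only [cd, h', if_true, col, Bool.not_false, Bool.false_eq_true, if_false, sa]
  have hdart : ∀ d : ι × Bool, d = (d.1, β d.1) ∨ d = (d.1, !β d.1) := by
    rintro ⟨i, b⟩
    rcases h : β i <;> cases b <;> simp [h]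
  have sa_b : ∀ i, sa a (i, !β i) = - sa a (i, β i) := fun i => sa_fl a (i, β i)
  have htwo : ∀ x j, {d | cd a col x d = j}.ncard = 2 := by
    intro x j
    obtain ⟨y, hy, hu⟩ := hbij j x
    have : {d | cd a col x d = j} =
        {(S.L x j, β (S.L x j)), (S.L y j, !β (S.L y j))} := by
      ext d
      simp only [Set.mem_ofPred_eq, Set.mem_insert_iff, Set.mem_singleton_iff]
      constructor
      · intro h
        rcases hdart d with hd | hd
        · rw [hd, cd_f] at h
          left
          have : S.L x j = d.1 := by rw [← h, Equiv.apply_symm_apply]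
          rw [this]
          exact hd
        · rw [hd, cd_b] at h
          right
          have h1 : S.L (x + sa a (d.1, !β d.1)) j = d.1 := by rw [← h, Equiv.apply_symm_apply]
          have h2 : x + sa a (d.1, !β d.1) = y := by
            apply hu
            rw [h1, sa_b]; abel
          rw [← h2, h1]
          exact hd
      · rintro (rfl | rfl)
        · rw [cd_f, Equiv.symm_apply_apply]
        · rw [cd_b]
          have h2 : x + sa a (S.L y j, !β (S.L y j)) = y := by
            rw [sa_b, ← hy]; abel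
          rw [h2, Equiv.symm_apply_apply]
    rw [this, Set.ncard_pair]
    intro h
    have h1 := congrArg Prod.fst h
    have h2 := congrArg Prod.snd h
    simp only at h1 h2
    rw [h1] at h2
    simp at h2
  let NN : Set (T × ι) := {q | if β q.2 then (q.1, (S.L q.1).symm q.2) ∈ S.D else
    (q.1 + a q.2, (S.L (q.1 + a q.2)).symm q.2) ∈ S.D}
  have nn_f : ∀ (x : T) i, Dart a NN x (i, β i) ↔ (x, (S.L x).symm i) ∈ S.D := by
    intro x i
    by_cases h : β i = true
    · simp only [Dart, h, if_true, NN, Set.mem_ofPred_eq]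
    · simp only [Dart, h, if_false, NN, Set.mem_ofPred_eq, sub_add_cancel, Bool.false_eq_true]
  have nn_b : ∀ (x : T) i, Dart a NN x (i, !β i) ↔
      (x + sa a (i, !β i), (S.L (x + sa a (i, !β i))).symm i) ∈ S.D := by
    intro x i
    by_cases h : β i = true
    · simp only [Dart, h, if_true, NN, Set.mem_ofPred_eq, Bool.not_true, Bool.false_eq_true,
        if_false, sa, sub_eq_add_neg]
    · have h' : β i = false := by simpa using h
      simp only [Dart, h', if_true, NN, Set.mem_ofPred_eq, Bool.not_false, Bool.false_eq_true,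
        if_false, sa]
  have hup : ∀ (x : T) i, (x, (S.L x).symm i) ∈ S.D →
      zl (ψ (x + sa a (i, β i))) = zl (ψ x) + 1 := by
    intro x i h
    have := hD _ h
    simp only [Equiv.apply_symm_apply] at this
    rw [map_add]
    exact this
  have hstep : ∀ x d, Dart a NN x d →
      (d = (d.1, β d.1) ∧ (x, (S.L x).symm d.1) ∈ S.D ∧
        zl (ψ (x + sa a d)) = zl (ψ x) + 1) ∨
      (d = (d.1, !β d.1) ∧ (x + sa a d, (S.L (x + sa a d)).symm d.1) ∈ S.D ∧
        zl (ψ x) = zl (ψ (x + sa a d)) + 1) := by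
    intro x d hd
    rcases hdart d with h | h
    · left
      rw [h, nn_f] at hd
      refine ⟨h, hd, ?_⟩
      rw [h]
      exact hup x _ hd
    · right
      rw [h, nn_b, ← h] at hd
      refine ⟨h, hd, ?_⟩
      have h1 := hup _ _ hd
      have h2 : x + sa a d + sa a (d.1, β d.1) = x := by
        conv_lhs => rw [h]
        rw [sa_b]; abel
      rwa [h2] at h1
  refine ⟨{ col := col, NN := NN, lev := fun x => zl (ψ x), two := htwo,
            lev_lt := fun x => zl_lt _, lev_zero := fun x => ?_, lev_last := fun x => ?_,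
            step := ?_, up := ?_, down := ?_, loops := ?_ }⟩
  · rw [zl_zero hp2, hψ]
  · rw [zl_last hp2, ← hψ, map_add, hs]
  · intro x d hd
    rcases hstep x d hd with ⟨-, -, h⟩ | ⟨-, -, h⟩
    · exact Or.inl h
    · exact Or.inr h
  · intro x d d' hd hd' h1 h2
    rcases hstep x d hd with ⟨h3, h4, -⟩ | ⟨-, -, h⟩
    · rcases hstep x d' hd' with ⟨h5, h6, -⟩ | ⟨-, -, h⟩
      · have h7 := S.wd _ h4 _ h6 rfl
        simp only [lab, AddMonoidHom.id_apply, Equiv.apply_symm_apply] at h7
        rw [h3, h5]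
        exact hsinj h7
      · omega
    · omega
  · intro x d d' hd hd' h1 h2
    rcases hstep x d hd with ⟨-, -, h⟩ | ⟨h3, h4, -⟩
    · omega
    · rcases hstep x d' hd' with ⟨-, -, h⟩ | ⟨h5, h6, -⟩
      · omega
      · have h7 := S.inj _ h4 _ h6 (by
          simp only [lab, AddMonoidHom.id_apply, Equiv.apply_symm_apply]
          have e1 : x + sa a d + sa a (d.1, β d.1) = x := by
            conv_lhs => rw [h3]
            rw [sa_b]; abel
          have e2 : x + sa a d' + sa a (d'.1, β d'.1) = x := by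
            conv_lhs => rw [h5]
            rw [sa_b]; abel
          rw [e1, e2])
        exact hsinj (add_left_cancel h7)
  · intro j C hC hclo
    obtain ⟨x0, hx0⟩ := hC
    have hinv : ∀ h : T × ι, h.2 = j ∧ h.1 ∈ C → (S.succ h).2 = j ∧ (S.succ h).1 ∈ C := by
      rintro ⟨x, i⟩ ⟨h1, h2⟩
      obtain rfl : i = j := h1
      have h3 : (S.succ (x, i)).2 = i := S.snd (x, i)
      have h4 := S.fst (x, i)
      simp only [inl, outl, lab, if_true, AddMonoidHom.id_apply, add_zero] at h4
      refine ⟨h3, ?_⟩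
      rw [h4]
      apply hclo x h2
      rw [cd_f, Equiv.symm_apply_apply]
    have hDL := hS (x0, j)
    obtain ⟨d1, hd1, d2, hd2, hne⟩ := (Set.one_lt_ncard (Set.toFinite _)).1
      (lt_of_lt_of_le one_lt_two hDL)
    let ed : T × ι → T × ι := fun h =>
      if β (S.L h.1 h.2) then (h.1, S.L h.1 h.2) else (h.1 - a (S.L h.1 h.2), S.L h.1 h.2)
    have hed : ∀ h, h ∈ S.D → h.2 = j ∧ h.1 ∈ C →
        ed h ∈ NN ∧ col (ed h).1 (ed h).2 = j ∧ (ed h).1 ∈ C := by
      rintro ⟨x, t⟩ hDm ⟨h1, h2⟩
      obtain rfl : t = j := h1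
      have h2' : x ∈ C := h2
      by_cases hb : β (S.L x t) = true
      · have h3 : ed (x, t) = (x, S.L x t) := by simp [ed, hb]
        rw [h3]
        refine ⟨?_, ?_, h2'⟩
        · simp only [NN, Set.mem_ofPred_eq, hb, if_true, Equiv.symm_apply_apply]
          exact hDm
        · simp only [col, hb, if_true, Equiv.symm_apply_apply]
      · have h3 : ed (x, t) = (x - a (S.L x t), S.L x t) := by simp [ed, hb]
        rw [h3]
        refine ⟨?_, ?_, ?_⟩
        · simp only [NN, Set.mem_ofPred_eq, hb, if_false, sub_add_cancel,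
            Equiv.symm_apply_apply, Bool.false_eq_true]
          exact hDm
        · simp only [col, hb, if_false, sub_add_cancel, Equiv.symm_apply_apply,
            Bool.false_eq_true]
        · have h4 := hclo x h2' (S.L x t, β (S.L x t)) (by rw [cd_f, Equiv.symm_apply_apply])
          have hb' : β (S.L x t) = false := by simpa using hb
          rw [hb'] at h4
          simpa [sa, sub_eq_add_neg] using h4
    have hP1 := sameCycle_of_invariant S.succ (fun h => h.2 = j ∧ h.1 ∈ C) hinv
      (x := (x0, j)) ⟨rfl, hx0⟩ hd1.2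
    have hP2 := sameCycle_of_invariant S.succ (fun h => h.2 = j ∧ h.1 ∈ C) hinv
      (x := (x0, j)) ⟨rfl, hx0⟩ hd2.2
    obtain ⟨g1, g2, g3⟩ := hed d1 hd1.1 hP1
    obtain ⟨g4, g5, g6⟩ := hed d2 hd2.1 hP2
    refine ⟨ed d1, g1, ed d2, g4, ?_, g2, g5, g3, g6⟩
    intro heq
    apply hne
    obtain ⟨x1, t1⟩ := d1
    obtain ⟨x2, t2⟩ := d2
    have ht1 : t1 = j := hP1.1
    have ht2 : t2 = j := hP2.1
    subst ht1
    subst ht2
    have hi : S.L x1 t2 = S.L x2 t2 := by
      have := congrArg Prod.snd heq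
      simp only [ed] at this
      split_ifs at this <;> exact this
    by_cases hb : β (S.L x1 t2) = true
    · have hb2 : β (S.L x2 t2) = true := by rw [← hi]; exact hb
      have := congrArg Prod.fst heq
      simp only [ed, hb, hb2, if_true] at this
      rw [this]
    · have hb2 : ¬ β (S.L x2 t2) = true := by rw [← hi]; exact hb
      have := congrArg Prod.fst heq
      simp only [ed, hb, hb2, if_false, hi, Bool.false_eq_true] at this
      rw [sub_left_inj.1 this]

/-- the homomorphism onto `ZMod p` with kernel `M` and value `1` at `s` -/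
theorem exists_hom {M : AddSubgroup T} (hM : M.index = p) {s : T} (hs : s ∉ M) :
    ∃ ψ : T →+ ZMod p, (∀ x, ψ x = 0 ↔ x ∈ M) ∧ ψ s = 1 := by
  have hcard : Nat.card (T ⧸ M) = p := by rw [← hM]; rfl
  have hcyc : IsAddCyclic (T ⧸ M) := isAddCyclic_of_prime_card hcard
  obtain ⟨g, hg⟩ := hcyc.exists_generator
  let φ : ZMod p ≃+ (T ⧸ M) := zmodAddEquivOfGenerator hg hcard
  let ψ₀ : T →+ ZMod p := φ.symm.toAddMonoidHom.comp (QuotientAddGroup.mk' M)
  have h0 : ∀ x, ψ₀ x = 0 ↔ x ∈ M := by
    intro x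
    change φ.symm (QuotientAddGroup.mk' M x) = 0 ↔ x ∈ M
    rw [AddEquiv.map_eq_zero_iff, QuotientAddGroup.mk'_apply, QuotientAddGroup.eq_zero_iff]
  have hs0 : ψ₀ s ≠ 0 := fun h => hs ((h0 s).1 h)
  refine ⟨(AddMonoidHom.mulLeft (ψ₀ s)⁻¹).comp ψ₀, fun x => ?_, ?_⟩
  · change (ψ₀ s)⁻¹ * ψ₀ x = 0 ↔ x ∈ M
    rw [mul_eq_zero, ← h0]
    constructor
    · rintro (h | h)
      · exact absurd (inv_eq_zero.1 h) hs0
      · exact h
    · exact Or.inr
  · change (ψ₀ s)⁻¹ * ψ₀ s = 1
    exact inv_mul_cancel₀ hs0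

/-- factorisation of a level of odd prime index -/
theorem oddFac_of (hind : IndStmt) [Finite T] (hT : Odd (Nat.card T)) {M : AddSubgroup T}
    (hM : M.index = p) {s : T} (hs : s ∉ M) (a : ι → T) (ha : ∀ i, a i ∉ M)
    (hinj : Function.Injective a) (hneg : ∀ i j, a i ≠ -a j) : Nonempty (Fac M s p a) := by
  have hp2 : p % 2 = 1 := by
    rw [← Nat.odd_iff, ← hM]
    exact hT.of_dvd_nat (AddSubgroup.index_dvd_card M)
  obtain ⟨ψ, hψ, hψs⟩ := exists_hom hM hs
  obtain ⟨β, S, η, hSD, hSL, hgood⟩ := start_odd hp2 ψ a (fun i h => ha i ((hψ _).1 h))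
  have hsurj : Function.Surjective ψ := by
    intro c
    refine ⟨c.val • s, ?_⟩
    rw [map_nsmul, hψs]
    simp
  have hodd : ¬ Even (Nat.card ψ.ker) := by
    rw [Nat.not_even_iff_odd]
    exact hT.of_dvd_nat (AddSubgroup.card_addSubgroup_dvd_card _)
  obtain ⟨S', hS', href⟩ := hind T (ZMod p) ι _ _ _ ψ hsurj S η (hgood _ hodd)
  refine fac_of_odd hp2 ψ hψ hψs a hinj hneg β S' hS' ?_
  intro h hh
  obtain ⟨h1, h2⟩ := href h hh
  rw [hSD] at h1
  simp only [lab, hSL] at h2
  rw [h2]
  exact h1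

end

end Pool.Agent.CA
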