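import Pool.Agent.CA.DescendStmt
import Pool.Agent.CA.FacEven
import Pool.Agent.CA.FacOdd
import Pool.Agent.CA.StartOdd

/-!
# Start states in the framework `C90` and the factorisations of the levels
-/

set_option autoImplicit false

namespace Pool.Agent.CA

open Equiv

theorem eqvGen_closed {X : Type} {R : X → X → Prop} {P : X → Prop}
    (h : ∀ u v, P u → (R u v ∨ R v u) → P v) {x y : X} (hx : P x)
    (hxy : Relation.EqvGen R x y) : P y := by
  have : P x ↔ P y := by
    clear hx
    induction hxy with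
    | rel u v huv => exact ⟨fun hu => h u v hu (Or.inl huv), fun hv => h v u hv (Or.inr huv)⟩
    | refl u => exact Iff.rfl
    | symm u v _ ih => exact ih.symm
    | trans u v w _ _ ih1 ih2 => exact ih1.trans ih2
  exact this.1 hx

section

variable {T ι : Type} [AddCommGroup T] [Finite ι] {M : AddSubgroup T}

/-- start state of a level of index 2 -/
theorem startC_even {G : Type} [AddCommGroup G] [Finite G] (e : ι × Bool → G) :
    Nonempty (C90.St (⊤ : AddSubgroup G) e True True) := by
  classical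
  have hsub : Subsingleton (G ⧸ (⊤ : AddSubgroup G)) := QuotientAddGroup.subsingleton_quotient_top
  let L : C90.Lab (⊤ : AddSubgroup G) ι :=
    { lab := fun h => e h.2
      inj := fun k => Function.injective_of_subsingleton _ }
  have hσ : ∀ h, L.σ h = (h.1, (h.2.1, !h.2.2)) := by
    intro h
    exact L.σ_unique (Subsingleton.elim _ _) rfl
  refine ⟨{
    toLab := L
    perm := fun x => ⟨1, fun k => rfl⟩
    nu := fun _ => 0
    nuinj := Function.injective_of_subsingleton _
    Des := Set.univ
    desnu := fun h _ => Subsingleton.elim _ _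
    Del := fun _ => 0
    delodd := fun _ _ => rfl
    eta := fun _ => false
    loops := ?_ }⟩
  rintro ⟨x, i, b0⟩
  left
  refine ⟨(x, (i, true)), (x, (i, false)), by simp, ?_, ?_, by simp⟩
  · rintro ⟨y, j, b⟩
    obtain rfl : y = x := Subsingleton.elim _ _
    constructor
    · rintro ⟨-, hc⟩
      obtain ⟨n, -, hn⟩ := (L.sameCycle_iff _ _).1 hc
      have h1 := L.pow_snd_fst (y, (i, b0)) n
      rw [hn] at h1
      obtain rfl : j = i := h1
      cases b <;> simp
    · intro h
      have hj : j = i := by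
        rcases h with h | h
        · exact congrArg (fun h : C90.Slot (⊤ : AddSubgroup G) ι => h.2.1) h
        · exact congrArg (fun h : C90.Slot (⊤ : AddSubgroup G) ι => h.2.1) h
      subst hj
      refine ⟨trivial, ?_⟩
      by_cases hb : b = b0
      · rw [hb]
      · refine ⟨1, ?_⟩
        rw [zpow_one, hσ]
        have : (!b0) = b := by revert hb; cases b <;> cases b0 <;> simp
        simp [this]
  · intro _
    have hN : L.N (x, (i, true)) = 2 := by
      have h3 : L.N (x, (i, true)) ∣ 2 := by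
        rw [← L.pow_eq_iff, pow_two, Perm.mul_apply, hσ, hσ]
        simp
      have h1 : L.N (x, (i, true)) ≠ 1 := by
        intro h
        have h2 := L.pow_N (x, (i, true))
        rw [h, pow_one, hσ] at h2
        simp at h2
      rcases (Nat.dvd_prime Nat.prime_two).1 h3 with h | h
      · exact absurd h h1
      · exact h
    refine ⟨0, 0, ⟨?_, ?_, ?_⟩, by simp⟩
    · rw [zero_add, pow_one, hσ]; simp
    · rw [zero_add, pow_one, hσ]; simp
    · rw [hN]

/-- factorisation of a level of index 2 -/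
theorem evenFacC (hd : DescendStmt) [Finite T] (hM : M.index = 2) {s : T} (hs : s ∉ M)
    (a : ι → T) (ha : ∀ i, a i ∉ M) (hinj : Function.Injective a) (hneg : ∀ i j, a i ≠ -a j) :
    Nonempty (Fac M s 2 a) := by
  classical
  have hadd : ∀ {x y : T}, x + y ∈ M ↔ (x ∈ M ↔ y ∈ M) := AddSubgroup.add_mem_iff_of_index_two hM
  have hmem : ∀ d, sa a d - s ∈ M := by
    intro d
    have h1 : sa a d ∉ M := by
      rcases d with ⟨i, _ | _⟩
      · simpa [sa] using ha i
      · simpa [sa] using ha i
    rw [sub_eq_add_neg]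
    exact hadd.2 ⟨fun h => absurd h h1, fun h => absurd (by simpa using h) hs⟩
  let e : ι × Bool → M := fun d => ⟨sa a d - s, hmem d⟩
  obtain ⟨S⟩ := startC_even (ι := ι) e
  obtain ⟨lab, nu, Des, hperm, hbij, hnu, hDes, -, -, hloops⟩ :=
    hd M ι ⊤ e True S (fun _ => trivial)
  choose L hL using hperm
  refine facEven_of hM hs a ha hinj hneg e (fun d => rfl) L Des ?_ ?_ ?_ ?_
  · intro t
    rw [← Finite.injective_iff_bijective]
    intro x y h
    apply hbij t
    simp only [hL]
    exact h
  · intro x t t' h h'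
    rw [← hL, ← hL, (hDes x t h).1, (hDes x t' h').1]
  · intro x t y t' h h' hxy
    apply hnu
    simp only
    rw [← (hDes x t h).1, ← (hDes y t' h').1, hL, hL]
    exact hxy
  · intro j x
    obtain ⟨y, b, y', b', h1, h2, h3, h4, h5⟩ := hloops j x
    refine ⟨(y, (j, b)), h1, (y', (j, b')), h2, ?_, rfl, rfl, ?_⟩
    · intro h
      apply h3
      simpa using h
    · intro P hx hP
      have key : ∀ u v : M, P u → ((u + lab u (j, true) = v + lab v (j, false)) ∨
          (v + lab v (j, true) = u + lab u (j, false))) → P v := by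
        intro u v hu h
        simp only [hL] at h
        exact hP u v hu h
      exact ⟨eqvGen_closed key hx h4, eqvGen_closed key hx h5⟩

end

/-- the next point of the zigzag path -/
theorem exists_nxt {p : ℕ} [Fact p.Prime] (hp2 : p % 2 = 1) :
    ∃ nxt : ZMod p → ZMod p, Function.Injective nxt ∧ ∀ v, zl v + 1 < p → zl (nxt v) = zl v + 1 := by
  classical
  have hinj : Function.Injective (fun v : ZMod p => (⟨zl v, zl_lt v⟩ : Fin p)) := by
    intro v w h
    exact zl_inj hp2 (congrArg Fin.val h)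
  have hbij : Function.Bijective (fun v : ZMod p => (⟨zl v, zl_lt v⟩ : Fin p)) := by
    have : NeZero p := ⟨(Fact.out : p.Prime).ne_zero⟩
    rw [Fintype.bijective_iff_injective_and_card]
    exact ⟨hinj, by rw [ZMod.card, Fintype.card_fin]⟩
  have hex : ∀ v : ZMod p, ∃ w : ZMod p, (zl v + 1 < p → zl w = zl v + 1) ∧
      (¬ zl v + 1 < p → w = 0) := by
    intro v
    by_cases h : zl v + 1 < p
    · obtain ⟨w, hw⟩ := hbij.2 ⟨zl v + 1, h⟩
      exact ⟨w, fun _ => congrArg Fin.val hw, fun h' => absurd h h'⟩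
    · exact ⟨0, fun h' => absurd h' h, fun _ => rfl⟩
  choose nxt h1 h2 using hex
  refine ⟨nxt, ?_, fun v hv => h1 v hv⟩
  have hz : zl (0 : ZMod p) = 0 := (zl_zero hp2 0).2 rfl
  intro v w h
  apply zl_inj hp2
  have hv := zl_lt v
  have hw := zl_lt w
  by_cases h3 : zl v + 1 < p <;> by_cases h4 : zl w + 1 < p
  · have h5 := h1 v h3
    have h6 := h1 w h4
    rw [h] at h5
    omega
  · have h5 := h1 v h3
    have h6 := h2 w h4
    rw [h, h6, hz] at h5
    omega
  · have h5 := h1 w h4
    have h6 := h2 v h3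
    rw [← h, h6, hz] at h5
    omega
  · omega

section

variable {T ι : Type} [AddCommGroup T] [Finite T] [Finite ι] {p : ℕ} [Fact p.Prime]

/-- start state of a level of odd prime index -/
theorem startC_odd (hp2 : p % 2 = 1) {M : AddSubgroup T} (ψ : T →+ ZMod p)
    (hψ : ∀ x, ψ x = 0 ↔ x ∈ M) {s : T} (hs : ψ s = 1) (a : ι → T) (ha : ∀ i, ψ (a i) ≠ 0) :
    ∃ (β : ι → Bool) (S : C90.St M (fun k : ι × Bool => if k.2 then sa a (k.1, β k.1) else 0)
        True False),
      (∀ (x : T) k, ((x : T ⧸ M), k) ∈ S.Des → k.2 = true ∧ zl (ψ x) + 1 < p) ∧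
      (∀ x i, S.lab (x, (i, false)) = 0) ∧
      (∀ (x y : T), ((y : T) : T ⧸ M) = S.nu (x : T ⧸ M) → zl (ψ x) + 1 < p →
        zl (ψ x + ψ y) = zl (ψ x) + 1) := by
  classical
  choose β v₁ v₂ hne hsum hiff using fun i => zig hp2 (ψ (a i)) (ha i)
  obtain ⟨nxt, hnxt, hnxt'⟩ := exists_nxt (p := p) hp2
  have hcl : ∀ i, ψ (sa a (i, β i)) = if β i then ψ (a i) else -ψ (a i) := by
    intro i
    by_cases h : β i = true
    · simp [sa, h]
    · simp [sa, h]
  let e : ι → T := fun i => sa a (i, β i)
  have hne0 : ∀ i, ψ (e i) ≠ 0 := by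
    intro i
    change ψ (sa a (i, β i)) ≠ 0
    rw [hcl]
    split_ifs
    · exact ha i
    · exact neg_ne_zero.2 (ha i)
  have hiff' : ∀ i v, zl (v + ψ (e i)) = zl v + 1 ↔ v = v₁ i ∨ v = v₂ i := by
    intro i v
    change zl (v + ψ (sa a (i, β i))) = zl v + 1 ↔ _
    rw [hcl]
    exact hiff i v
  -- the isomorphism of the quotient
  let φ₀ : T ⧸ M →+ ZMod p := QuotientAddGroup.lift M ψ (fun x hx => (hψ x).2 hx)
  have hφ₀ : ∀ x : T, φ₀ (x : T ⧸ M) = ψ x := fun x => rfl
  have hφinj : Function.Injective φ₀ := by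
    rw [injective_iff_map_eq_zero]
    intro x hx
    obtain ⟨y, rfl⟩ := QuotientAddGroup.mk_surjective x
    rw [QuotientAddGroup.eq_zero_iff, ← hψ]
    exact hx
  have hφsurj : Function.Surjective φ₀ := by
    intro c
    refine ⟨((c.val • s : T) : T ⧸ M), ?_⟩
    rw [hφ₀, map_nsmul, hs]
    simp
  let φ : T ⧸ M ≃+ ZMod p := AddEquiv.ofBijective φ₀ ⟨hφinj, hφsurj⟩
  have hφ : ∀ x : T, φ (x : T ⧸ M) = ψ x := fun x => rfl
  let L : C90.Lab M ι :=
    { lab := fun h => if h.2.2 then e h.2.1 else 0
      inj := fun k x y h => by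
        simp only at h
        exact add_right_cancel h }
  have hσt : ∀ x i, L.σ (x, (i, true)) = (x + ((e i : T) : T ⧸ M), (i, false)) := by
    intro x i
    apply L.σ_unique
    · simp [C90.Lab.tail, C90.Lab.val, L]
    · rfl
  have hσf : ∀ x i, L.σ (x, (i, false)) = (x, (i, true)) := by
    intro x i
    apply L.σ_unique
    · simp [C90.Lab.tail, C90.Lab.val, L]
    · rfl
  have hpow : ∀ (n : ℕ) x i, (L.σ ^ (2 * n)) (x, (i, true)) =
      (x + n • ((e i : T) : T ⧸ M), (i, true)) := by
    intro n x i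
    induction n with
    | zero => simp
    | succ n ih =>
      have : 2 * (n + 1) = 2 + 2 * n := by ring
      rw [this, pow_add, Perm.mul_apply, ih, pow_two, Perm.mul_apply, hσt, hσf, succ_nsmul,
        add_assoc]
  have hcyc : ∀ (x y : T ⧸ M) i, L.σ.SameCycle (x, (i, true)) (y, (i, true)) := by
    intro x y i
    refine ⟨((2 * ((φ y - φ x) / ψ (e i)).val : ℕ) : ℤ), ?_⟩
    rw [zpow_natCast, hpow]
    have : x + ((φ y - φ x) / ψ (e i)).val • ((e i : T) : T ⧸ M) = y := by
      apply φ.injective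
      rw [map_add, map_nsmul, hφ]
      simp only [nsmul_eq_mul, ZMod.natCast_val, ZMod.cast_id', id_eq]
      rw [div_mul_cancel₀ _ (hne0 i)]
      abel
    rw [this]
  have hcyc' : ∀ (h : C90.Slot M ι) (y : T ⧸ M), L.σ.SameCycle h (y, (h.2.1, true)) := by
    rintro ⟨x, i, _ | _⟩ y
    · have h1 : L.σ.SameCycle (x, (i, false)) (x, (i, true)) :=
        ⟨1, by rw [zpow_one, hσf]⟩
      exact h1.trans (hcyc x y i)
    · exact hcyc x y i
  refine ⟨β, {
    toLab := L
    perm := fun x => ⟨1, fun k => rfl⟩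
    nu := fun x => φ.symm (nxt (φ x)) - x
    nuinj := fun x y h => by
      have h' : x + (φ.symm (nxt (φ x)) - x) = y + (φ.symm (nxt (φ y)) - y) := h
      rw [add_sub_cancel, add_sub_cancel] at h'
      exact φ.injective (hnxt (φ.symm.injective h'))
    Des := {h | h.2.2 = true ∧ zl (φ h.1 + ψ (e h.2.1)) = zl (φ h.1) + 1}
    desnu := ?_
    Del := fun _ => 0
    delodd := fun _ _ => rfl
    eta := fun x => decide (2 * zl (φ x) + 2 < p)
    loops := ?_ }, ?_, ?_, ?_⟩
  · rintro ⟨x, i, b⟩ ⟨h1, h2⟩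
    have h1' : b = true := h1
    subst h1'
    have h2' : zl (φ x + ψ (e i)) = zl (φ x) + 1 := h2
    apply φ.injective
    rw [map_sub, φ.apply_symm_apply]
    change ψ (e i) = nxt (φ x) - φ x
    have h3 : zl (φ x) + 1 < p := by rw [← h2']; exact zl_lt _
    have h4 := hnxt' (φ x) h3
    have h5 := zl_inj hp2 (h2'.trans h4.symm)
    rw [← h5]; abel
  · intro h
    left
    have hD : ∀ g : C90.Slot M ι, (g ∈ {h : C90.Slot M ι | h.2.2 = true ∧
        zl (φ h.1 + ψ (e h.2.1)) = zl (φ h.1) + 1} ∧ L.σ.SameCycle h g) ↔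
        (g = (φ.symm (v₁ h.2.1), (h.2.1, true)) ∨ g = (φ.symm (v₂ h.2.1), (h.2.1, true))) := by
      rintro ⟨y, j, b⟩
      constructor
      · rintro ⟨⟨h1, h2⟩, h3⟩
        have h1' : b = true := h1
        subst h1'
        obtain ⟨n, -, hn⟩ := (L.sameCycle_iff _ _).1 h3
        have h4 := L.pow_snd_fst h n
        rw [hn] at h4
        have h4' : j = h.2.1 := h4
        subst h4'
        rcases (hiff' h.2.1 (φ y)).1 h2 with h5 | h5
        · left; rw [← h5, φ.symm_apply_apply]
        · right; rw [← h5, φ.symm_apply_apply]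
      · have key : ∀ v : ZMod p, (v = v₁ h.2.1 ∨ v = v₂ h.2.1) →
            ((φ.symm v, (h.2.1, true)) : C90.Slot M ι) ∈ {h : C90.Slot M ι | h.2.2 = true ∧
              zl (φ h.1 + ψ (e h.2.1)) = zl (φ h.1) + 1} ∧
            L.σ.SameCycle h (φ.symm v, (h.2.1, true)) := by
          intro v hv
          refine ⟨⟨rfl, ?_⟩, hcyc' h _⟩
          change zl (φ (φ.symm v) + ψ (e h.2.1)) = zl (φ (φ.symm v)) + 1
          rw [φ.apply_symm_apply]
          exact (hiff' _ _).2 hv
        rintro (h1 | h1)
        · rw [h1]; exact key _ (Or.inl rfl)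
        · rw [h1]; exact key _ (Or.inr rfl)
    refine ⟨(φ.symm (v₁ h.2.1), (h.2.1, true)), (φ.symm (v₂ h.2.1), (h.2.1, true)), ?_, hD,
      fun h => h.elim, fun _ => ?_⟩
    · intro h1
      exact hne h.2.1 (φ.symm.injective (congrArg Prod.fst h1))
    · have h1 := hsum h.2.1
      simp only [φ.apply_symm_apply]
      by_cases h2 : 2 * zl (v₁ h.2.1) + 2 < p
      · have h3 : ¬ (2 * zl (v₂ h.2.1) + 2 < p) := by omega
        simp [h2, h3]
      · have h3 : 2 * zl (v₂ h.2.1) + 2 < p := by omega
        simp [h2, h3]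
  · rintro x ⟨i, b⟩ ⟨h1, h2⟩
    refine ⟨h1, ?_⟩
    have h2' : zl (ψ x + ψ (e i)) = zl (ψ x) + 1 := h2
    rw [← h2']
    exact zl_lt _
  · intro x i
    rfl
  · intro x y hy hx
    have h1 : φ (y : T ⧸ M) = φ (φ.symm (nxt (φ (x : T ⧸ M))) - (x : T ⧸ M)) := by rw [hy]
    rw [map_sub, φ.apply_symm_apply, hφ, hφ] at h1
    have h2 : ψ x + ψ y = nxt (ψ x) := by rw [h1]; abel
    rw [h2]
    exact hnxt' _ hx

/-- factorisation of a level of odd prime index -/
theorem oddFacC (hd : DescendStmt) (hT : Odd (Nat.card T)) {M : AddSubgroup T}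
    (hM : M.index = p) {s : T} (hs : s ∉ M) (a : ι → T) (ha : ∀ i, a i ∉ M)
    (hinj : Function.Injective a) (hneg : ∀ i j, a i ≠ -a j) : Nonempty (Fac M s p a) := by
  classical
  have hp2 : p % 2 = 1 := by
    rw [← Nat.odd_iff, ← hM]
    exact hT.of_dvd_nat (AddSubgroup.index_dvd_card M)
  obtain ⟨ψ, hψ, hψs⟩ := exists_hom hM hs
  obtain ⟨β, S, hSD, hS0, hSnu⟩ := startC_odd hp2 ψ hψ hψs a (fun i h => ha i ((hψ _).1 h))
  have hodd : ¬ Even (Nat.card M) := by
    rw [Nat.not_even_iff_odd]
    exact hT.of_dvd_nat (AddSubgroup.card_addSubgroup_dvd_card _)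
  obtain ⟨lab, nu, Des, hperm, hbij, hnu, hDes, hnuS, hlabS, hloops⟩ :=
    hd T ι M _ False S (fun h => absurd h hodd)
  choose r hr using hperm
  have he0 : ∀ i, sa a (i, β i) ≠ 0 := by
    intro i h
    have h1 : a i = 0 := by
      rcases hb : β i
      · rw [hb] at h; simpa [sa] using h
      · rw [hb] at h; simpa [sa] using h
    exact ha i (by rw [h1]; exact M.zero_mem)
  have hnD : ∀ (x : T) i, ((x : T ⧸ M), ((i, false) : ι × Bool)) ∉ S.Des := by
    intro x i h
    have := (hSD x _ h).1
    simp at this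
  have hlab0 : ∀ x i, lab x (i, false) = 0 := by
    intro x i
    rw [hlabS x _ (hnD x i), hS0]
  have hrf : ∀ x i, (r x (i, false)).2 = false := by
    intro x i
    have h1 := hr x (i, false)
    rw [hlab0] at h1
    by_contra h
    have h2 : (r x (i, false)).2 = true := by simpa using h
    rw [h2] at h1
    simp only [if_true] at h1
    exact he0 _ h1.symm
  have hrt : ∀ x i, (r x (i, true)).2 = true := by
    intro x i
    by_contra h
    have h2 : (r x (i, true)).2 = false := by simpa using h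
    have hf : Function.Injective (fun j => (r x (j, false)).1) := by
      intro j j' hj
      have h3 : r x (j, false) = r x (j', false) :=
        Prod.ext hj ((hrf x j).trans (hrf x j').symm)
      have := (r x).injective h3
      simpa using this
    obtain ⟨j, hj⟩ := (Finite.injective_iff_surjective.1 hf) (r x (i, true)).1
    have h3 : r x (j, false) = r x (i, true) := Prod.ext hj ((hrf x j).trans h2.symm)
    have := (r x).injective h3
    simp at this
  have hLinj : ∀ x, Function.Injective (fun j => (r x (j, true)).1) := by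
    intro x j j' hj
    have h3 : r x (j, true) = r x (j', true) := Prod.ext hj ((hrt x j).trans (hrt x j').symm)
    have := (r x).injective h3
    simpa using this
  let L : T → Perm ι := fun x =>
    Equiv.ofBijective (fun j => (r x (j, true)).1) (Finite.injective_iff_bijective.1 (hLinj x))
  have hL : ∀ x i, lab x (i, true) = sa a (L x i, β (L x i)) := by
    intro x i
    rw [hr, hrt]
    rfl
  have hDt : ∀ x i b, (x, (i, b)) ∈ Des → b = true := fun x i b h => (hSD x _ (hDes x _ h).2).1
  refine facOdd_of hp2 ψ hψ hψs a hinj hneg β L {h | (h.1, (h.2, true)) ∈ Des} ?_ ?_ ?_ ?_ ?_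
  · intro t
    rw [← Finite.injective_iff_bijective]
    intro x y h
    apply hbij (t, true)
    simp only [hL]
    exact h
  · intro x t t' h h'
    rw [← hL, ← hL, (hDes x _ h).1, (hDes x _ h').1]
  · intro x t y t' h h' hxy
    apply hnu
    simp only
    rw [← (hDes x _ h).1, ← (hDes y _ h').1, hL, hL]
    exact hxy
  · intro j x
    obtain ⟨y, b, y', b', h1, h2, h3, h4, h5⟩ := hloops j x
    obtain rfl := hDt _ _ _ h1
    obtain rfl := hDt _ _ _ h2
    refine ⟨(y, j), h1, (y', j), h2, ?_, rfl, rfl, ?_⟩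
    · intro h
      apply h3
      have h6 : y = y' := congrArg Prod.fst h
      rw [h6]
    · intro P hx hP
      have key : ∀ u v : T, P u → ((u + lab u (j, true) = v + lab v (j, false)) ∨
          (v + lab v (j, true) = u + lab u (j, false))) → P v := by
        intro u v hu h
        rw [hlab0, hlab0, add_zero, add_zero, hL, hL] at h
        rcases h with h | h
        · exact hP u v hu (Or.inl h.symm)
        · exact hP u v hu (Or.inr h.symm)
      exact ⟨eqvGen_closed key hx h4, eqvGen_closed key hx h5⟩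
  · rintro ⟨x, t⟩ h
    have h1 : (x, ((t, true) : ι × Bool)) ∈ Des := h
    obtain ⟨h2, h3⟩ := hDes x _ h1
    have h4 := (hSD x _ h3).2
    have h5 := hSnu x (nu x) (hnuS x) h4
    simp only
    rw [← hL, h2]
    exact h5

end

end Pool.Agent.CA
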