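import Pool.Agent.CA.Defs

/-!
# Start state and factorisation for a level of index 2
-/

set_option autoImplicit false

namespace Pool.Agent.CA

open Equiv

/-- the output of the induction over the levels -/
def IndStmt : Prop :=
  ∀ (G Q Sl : Type) [AddCommGroup G] [Finite G] [AddCommGroup Q] [Finite Q] [Finite Sl]
    (e : Sl → G) (sg : Sl → Bool) (nx : Perm Sl) (μ : G →+ Q), Function.Surjective μ →
    ∀ (S : St e sg nx μ) (η : Q → Bool), OddGood S η (Even (Nat.card μ.ker)) →
    ∃ S' : St e sg nx (AddMonoidHom.id G), (∀ h, 2 ≤ (S'.DL h).ncard) ∧ Ref μ S' S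

/-- the opposite dart -/
def fl {ι : Type} (d : ι × Bool) : ι × Bool := (d.1, !d.2)

@[simp] theorem fl_fl {ι : Type} (d : ι × Bool) : fl (fl d) = d := by simp [fl]

theorem fl_inj {ι : Type} {d d' : ι × Bool} (h : fl d = fl d') : d = d' := by
  rw [← fl_fl d, h, fl_fl]

@[simp] theorem sa_fl {T ι : Type} [AddCommGroup T] (a : ι → T) (d : ι × Bool) :
    sa a (fl d) = - sa a d := by
  rcases d with ⟨i, _ | _⟩ <;> simp [sa, fl]

theorem sa_injective {T ι : Type} [AddCommGroup T] {a : ι → T} (hinj : Function.Injective a)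
    (hneg : ∀ i j, a i ≠ -a j) : Function.Injective (sa a) := by
  rintro ⟨i, _ | _⟩ ⟨j, _ | _⟩ h
  · simp only [sa, Bool.false_eq_true, if_false, neg_inj] at h
    rw [hinj h]
  · simp only [sa, Bool.false_eq_true, if_false, if_true] at h
    exact absurd h.symm (hneg _ _)
  · simp only [sa, Bool.false_eq_true, if_false, if_true] at h
    exact absurd h (hneg _ _)
  · simp only [sa, if_true] at h
    rw [hinj h]

/-- the permutation of the slots in a level of index 2 -/
def flp (ι : Type) : Perm (ι × Bool) := ⟨fl, fl, fl_fl, fl_fl⟩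

theorem sameCycle_of_invariant {X : Type} [Finite X] (f : Perm X) (P : X → Prop)
    (hP : ∀ x, P x → P (f x)) {x y : X} (hx : P x) (h : f.SameCycle x y) : P y := by
  obtain ⟨n, rfl⟩ := h.exists_nat_pow_eq
  induction n with
  | zero => simpa using hx
  | succ n ih =>
    rw [pow_succ', Perm.mul_apply]
    exact hP _ (ih (Perm.SameCycle.refl f x |>.trans ⟨n, by simp⟩))

section

variable {T ι : Type} [AddCommGroup T] [Finite ι] {M : AddSubgroup T}

/-- start state of a level of index 2 -/
theorem start_even (e : ι × Bool → M) :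
    ∃ (S : St e Prod.snd (flp ι) (0 : M →+ Unit)), ∀ I : Prop, OddGood S (fun _ => true) I := by
  classical
  let S : St e Prod.snd (flp ι) (0 : M →+ Unit) :=
    { L := fun _ => 1
      succ := (Equiv.refl Unit).prodCongr (flp ι)
      bij := fun t => ⟨fun x y _ => rfl, fun y => ⟨(), rfl⟩⟩
      snd := fun h => rfl
      fst := fun h => rfl
      D := Set.univ
      wd := fun h _ h' _ _ => rfl
      inj := fun h _ h' _ _ => rfl }
  have hs : ∀ h : Unit × (ι × Bool), S.succ h = ((), fl h.2) := fun h => rfl
  refine ⟨S, fun I h => Or.inl ?_⟩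
  obtain ⟨⟨⟩, i, b0⟩ := h
  have hD : S.DL ((), (i, b0)) = {((), (i, true)), ((), (i, false))} := by
    ext ⟨⟨⟩, j, b⟩
    constructor
    · rintro ⟨-, hc⟩
      have := sameCycle_of_invariant S.succ (fun h => h.2.1 = i) (fun h hh => by
        rw [hs]; exact hh) (x := ((), (i, b0))) rfl hc
      obtain rfl : j = i := this
      cases b <;> simp
    · intro h
      have hj : j = i := by
        rcases h with h | h
        · exact congrArg (fun h : Unit × (ι × Bool) => h.2.1) h
        · exact congrArg (fun h : Unit × (ι × Bool) => h.2.1) h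
      subst hj
      refine ⟨trivial, ?_⟩
      by_cases hb : b = b0
      · rw [hb]
      · refine ⟨1, ?_⟩
        rw [zpow_one, hs]
        have : (!b0) = b := by revert hb; cases b <;> cases b0 <;> simp
        simp [fl, this]
  have hper : S.per ((), (i, true)) = 2 := by
    have h3 : S.per ((), (i, true)) ∣ 2 := by
      apply Function.IsPeriodicPt.minimalPeriod_dvd
      rfl
    have h1 : S.per ((), (i, true)) ≠ 1 := by
      rw [Sys.per, Ne, Function.minimalPeriod_eq_one_iff_isFixedPt]
      intro h
      have := congrArg (fun h : Unit × (ι × Bool) => h.2.2) h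
      simp [hs, fl] at this
    rcases (Nat.dvd_prime Nat.prime_two).1 h3 with h | h
    · exact absurd h h1
    · exact h
  refine ⟨((), (i, true)), ((), (i, false)), by simp, hD, by simp [ns],
    fun _ => ⟨1, one_pos, by rw [hper]; exact one_lt_two, by rw [pow_one, hs]; rfl, ?_⟩⟩
  simp only [Sys.arc, Sys.hol, hper, Sys.F, Finset.sum_range_succ, Finset.sum_range_zero,
    pow_zero, pow_one, Perm.coe_one, id_eq]
  abel

/-- the factorisation of a level of index 2 from the final state -/
theorem fac_of_even [Finite T] (hM : M.index = 2) {s : T} (hs : s ∉ M) (a : ι → T)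
    (ha : ∀ i, a i ∉ M) (hinj : Function.Injective a) (hneg : ∀ i j, a i ≠ -a j)
    (e : ι × Bool → M) (he : ∀ d, (e d : T) = sa a d - s)
    (S : St e Prod.snd (flp ι) (AddMonoidHom.id M)) (hS : ∀ h, 2 ≤ (S.DL h).ncard) :
    Nonempty (Fac M s 2 a) := by
  classical
  have hsinj := sa_injective hinj hneg
  have hadd : ∀ {x y : T}, x + y ∈ M ↔ (x ∈ M ↔ y ∈ M) := AddSubgroup.add_mem_iff_of_index_two hM
  have hsa : ∀ d, sa a d ∉ M := by
    rintro ⟨i, _ | _⟩
    · simpa [sa] using ha i
    · simpa [sa] using ha i
  have hin : ∀ {x : T} (d), x ∈ M → x + sa a d ∉ M := fun d hx h => hsa d ((hadd.1 h).1 hx)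
  have hout : ∀ {x : T} (d), x ∉ M → x + sa a d ∈ M := fun d hx =>
    hadd.2 ⟨fun h => absurd h hx, fun h => absurd h (hsa d)⟩
  -- the labels at the points of M
  let LL : T → Perm (ι × Bool) := fun y => if hy : y ∈ M then S.L ⟨y, hy⟩ else 1
  have hLL : ∀ y : M, LL y = S.L y := fun y => dif_pos y.2
  let DD : T → ι × Bool → Prop := fun y t => ∃ hy : y ∈ M, ((⟨y, hy⟩ : M), t) ∈ S.D
  let col : T → ι → ι := fun x i =>
    if x ∈ M then ((LL x).symm (i, true)).1 else ((LL (x + a i)).symm (i, false)).1
  have cd_in : ∀ {x : T} (d), x ∈ M → cd a col x d = ((LL x).symm d).1 := by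
    rintro x ⟨i, _ | _⟩ hx
    · have h1 : x - a i ∉ M := by
        have := hin (i, false) hx
        simpa [sa, sub_eq_add_neg] using this
      simp only [cd, Bool.false_eq_true, if_false, col, h1]
      rw [sub_add_cancel]
    · simp only [cd, if_true, col, hx]
  have cd_out : ∀ {x : T} (d), x ∉ M → cd a col x d = ((LL (x + sa a d)).symm (fl d)).1 := by
    rintro x ⟨i, _ | _⟩ hx
    · have h1 : x - a i ∈ M := by
        have := hout (i, false) hx
        simpa [sa, sub_eq_add_neg] using this
      simp only [cd, Bool.false_eq_true, if_false, col, h1, if_true, sa, fl, Bool.not_false]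
      rw [sub_eq_add_neg]
    · simp only [cd, if_true, col, hx, if_false, sa, fl, Bool.not_true]
  -- every slot is a perfect matching
  have hbij : ∀ (t : ι × Bool) (x : T), x ∉ M → ∃ y : M, (y : T) + sa a (S.L y t) = x ∧
      ∀ y' : M, (y' : T) + sa a (S.L y' t) = x → y' = y := by
    intro t x hx
    have hxs : x - s ∈ M := by
      rw [sub_eq_add_neg]
      exact hadd.2 ⟨fun h => absurd h hx, fun h => absurd (by simpa using h) hs⟩
    obtain ⟨y, hy⟩ := (S.bij t).2 ⟨x - s, hxs⟩
    have key : ∀ y : M, (y : T) + sa a (S.L y t) = x ↔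
        y + (AddMonoidHom.id M) (e (S.L y t)) = (⟨x - s, hxs⟩ : M) := by
      intro y
      rw [Subtype.ext_iff]
      simp only [AddMonoidHom.id_apply, AddSubgroup.coe_add, he]
      rw [← add_sub_assoc, sub_left_inj]
    refine ⟨y, (key y).2 hy, fun y' hy' => ?_⟩
    exact (S.bij t).1 (((key y').1 hy').trans hy.symm)
  have htwo : ∀ x j, {d | cd a col x d = j}.ncard = 2 := by
    intro x j
    by_cases hx : x ∈ M
    · have : {d | cd a col x d = j} = (LL x) '' {(j, true), (j, false)} := by
        ext d
        simp only [Set.mem_ofPred_eq, cd_in d hx, Set.mem_image, Set.mem_insert_iff,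
          Set.mem_singleton_iff, exists_eq_or_imp, exists_eq_left]
        constructor
        · intro h
          rcases h2 : (LL x).symm d with ⟨j', _ | _⟩
          · right
            rw [h2] at h
            obtain rfl : j' = j := h
            rw [← h2, Equiv.apply_symm_apply]
          · left
            rw [h2] at h
            obtain rfl : j' = j := h
            rw [← h2, Equiv.apply_symm_apply]
        · rintro (rfl | rfl) <;> simp
      rw [this, Set.ncard_image_of_injective _ (LL x).injective, Set.ncard_pair (by simp)]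
    · obtain ⟨y1, hy1, hu1⟩ := hbij (j, true) x hx
      obtain ⟨y2, hy2, hu2⟩ := hbij (j, false) x hx
      have : {d | cd a col x d = j} = {fl (S.L y1 (j, true)), fl (S.L y2 (j, false))} := by
        ext d
        simp only [Set.mem_ofPred_eq, cd_out d hx, Set.mem_insert_iff, Set.mem_singleton_iff]
        constructor
        · intro h
          let y : M := ⟨x + sa a d, hout d hx⟩
          have hLy : LL (x + sa a d) = S.L y := hLL y
          rw [hLy] at h
          rcases h2 : (S.L y).symm (fl d) with ⟨j', _ | _⟩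
          · rw [h2] at h
            obtain rfl : j' = j := h
            have h3 : S.L y (j', false) = fl d := by rw [← h2, Equiv.apply_symm_apply]
            have h4 : y = y2 := hu2 y (by
              rw [h3, sa_fl]
              change x + sa a d + -sa a d = x
              abel)
            right
            rw [← h4, h3, fl_fl]
          · rw [h2] at h
            obtain rfl : j' = j := h
            have h3 : S.L y (j', true) = fl d := by rw [← h2, Equiv.apply_symm_apply]
            have h4 : y = y1 := hu1 y (by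
              rw [h3, sa_fl]
              change x + sa a d + -sa a d = x
              abel)
            left
            rw [← h4, h3, fl_fl]
        · rintro (rfl | rfl)
          · have h3 : x + sa a (fl (S.L y1 (j, true))) = y1 := by
              rw [sa_fl, ← hy1]; abel
            rw [h3, hLL, fl_fl, Equiv.symm_apply_apply]
          · have h3 : x + sa a (fl (S.L y2 (j, false))) = y2 := by
              rw [sa_fl, ← hy2]; abel
            rw [h3, hLL, fl_fl, Equiv.symm_apply_apply]
      rw [this, Set.ncard_pair]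
      intro h
      have h1 := fl_inj h
      have h2 : y1 = y2 := by
        apply Subtype.ext
        have := hy1.trans hy2.symm
        rw [h1] at this
        exact add_right_cancel this
      rw [h2] at h1
      have := (S.L y2).injective h1
      simp at this
  -- the designated edges
  let NN : Set (T × ι) := {p | if p.1 ∈ M then DD p.1 ((LL p.1).symm (p.2, true)) else
    DD (p.1 + a p.2) ((LL (p.1 + a p.2)).symm (p.2, false))}
  have nn_in : ∀ {x : T} (d), x ∈ M → (Dart a NN x d ↔ DD x ((LL x).symm d)) := by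
    rintro x ⟨i, _ | _⟩ hx
    · have h1 : x - a i ∉ M := by
        have := hin (i, false) hx
        simpa [sa, sub_eq_add_neg] using this
      simp only [Dart, Bool.false_eq_true, if_false, NN, Set.mem_ofPred_eq, h1]
      rw [sub_add_cancel]
    · simp only [Dart, if_true, NN, Set.mem_ofPred_eq, hx]
  have nn_out : ∀ {x : T} (d), x ∉ M →
      (Dart a NN x d ↔ DD (x + sa a d) ((LL (x + sa a d)).symm (fl d))) := by
    rintro x ⟨i, _ | _⟩ hx
    · have h1 : x - a i ∈ M := by
        have := hout (i, false) hx
        simpa [sa, sub_eq_add_neg] using this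
      simp only [Dart, Bool.false_eq_true, if_false, NN, Set.mem_ofPred_eq, h1, if_true, sa, fl,
        Bool.not_false]
      rw [sub_eq_add_neg]
    · simp only [Dart, if_true, NN, Set.mem_ofPred_eq, hx, if_false, sa, fl, Bool.not_true]
  let lev : T → ℕ := fun x => if x ∈ M then 0 else 1
  have lev_in : ∀ {x : T}, x ∈ M → lev x = 0 := fun hx => if_pos hx
  have lev_out : ∀ {x : T}, x ∉ M → lev x = 1 := fun hx => if_neg hx
  have hup : ∀ x d d', Dart a NN x d → Dart a NN x d' → x ∈ M → d = d' := by
    intro x d d' hd hd' hx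
    rw [nn_in d hx] at hd
    rw [nn_in d' hx] at hd'
    obtain ⟨hy, h1⟩ := hd
    obtain ⟨hy', h2⟩ := hd'
    have h3 := S.wd _ h1 _ h2 rfl
    simp only [lab, AddMonoidHom.id_apply] at h3
    have h4 : LL x = S.L ⟨x, hx⟩ := hLL ⟨x, hx⟩
    rw [h4, Equiv.apply_symm_apply, Equiv.apply_symm_apply] at h3
    have h5 := congrArg Subtype.val h3
    rw [he, he, sub_left_inj] at h5
    exact hsinj h5
  have hdown : ∀ x d d', Dart a NN x d → Dart a NN x d' → x ∉ M → d = d' := by
    intro x d d' hd hd' hx
    rw [nn_out d hx] at hd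
    rw [nn_out d' hx] at hd'
    obtain ⟨hy, h1⟩ := hd
    obtain ⟨hy', h2⟩ := hd'
    have h3 := S.inj _ h1 _ h2 (by
      simp only [lab, AddMonoidHom.id_apply]
      have h4 : LL (x + sa a d) = S.L ⟨x + sa a d, hy⟩ := hLL ⟨x + sa a d, hy⟩
      have h5 : LL (x + sa a d') = S.L ⟨x + sa a d', hy'⟩ := hLL ⟨x + sa a d', hy'⟩
      rw [h4, h5, Equiv.apply_symm_apply, Equiv.apply_symm_apply]
      apply Subtype.ext
      simp only [AddSubgroup.coe_add, he, sa_fl]
      abel)
    have h6 := congrArg Subtype.val h3
    exact hsinj (add_left_cancel h6)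
  refine ⟨{ col := col, NN := NN, lev := lev, two := htwo, lev_lt := ?_, lev_zero := ?_,
            lev_last := ?_, step := ?_, up := ?_, down := ?_, loops := ?_ }⟩
  · intro x
    by_cases hx : x ∈ M
    · rw [lev_in hx]; norm_num
    · rw [lev_out hx]; norm_num
  · intro x
    by_cases hx : x ∈ M
    · simp [lev_in hx, hx]
    · simp [lev_out hx, hx]
  · intro x
    by_cases hx : x ∈ M
    · have : x + s ∉ M := fun h => hs ((hadd.1 h).1 hx)
      simp [lev_in hx, this]
    · have : x + s ∈ M := hadd.2 ⟨fun h => absurd h hx, fun h => absurd h hs⟩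
      simp [lev_out hx, this]
  · intro x d _
    by_cases hx : x ∈ M
    · left
      rw [lev_in hx, lev_out (hin d hx)]
    · right
      rw [lev_out hx, lev_in (hout d hx)]
  · intro x d d' hd hd' h1 h2
    by_cases hx : x ∈ M
    · exact hup x d d' hd hd' hx
    · rw [lev_out hx, lev_in (hout d hx)] at h1
      omega
  · intro x d d' hd hd' h1 h2
    by_cases hx : x ∈ M
    · rw [lev_in hx, lev_out (hin d hx)] at h1
      omega
    · exact hdown x d d' hd hd' hx
  · intro j C hC hclo
    -- a point of C in M
    obtain ⟨y0, hy0⟩ : ∃ y : M, (y : T) ∈ C := by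
      obtain ⟨x, hx⟩ := hC
      by_cases hxM : x ∈ M
      · exact ⟨⟨x, hxM⟩, hx⟩
      · obtain ⟨d, hd⟩ : ∃ d, cd a col x d = j := by
          have := htwo x j
          have h2 : {d | cd a col x d = j}.Nonempty := by
            rw [Set.nonempty_iff_ne_empty]
            intro h
            rw [h, Set.ncard_empty] at this
            omega
          exact h2
        exact ⟨⟨x + sa a d, hout d hxM⟩, hclo x hx d hd⟩
    have hinv : ∀ h : M × (ι × Bool), h.2.1 = j ∧ (h.1 : T) ∈ C →
        (S.succ h).2.1 = j ∧ ((S.succ h).1 : T) ∈ C := by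
      rintro ⟨x, i, b⟩ ⟨h1, h2⟩
      obtain rfl : i = j := h1
      have h2' : (x : T) ∈ C := h2
      have h3 := S.snd (x, (i, b))
      have h4 := S.fst (x, (i, b))
      have h3' : (S.succ (x, (i, b))).2 = (i, !b) := h3
      refine ⟨by rw [h3'], ?_⟩
      cases b
      · simp only [inl, outl, h3', AddMonoidHom.id_apply, Bool.not_false, if_true, add_zero,
          Bool.false_eq_true, if_false] at h4
        rw [h4]
        exact h2
      · simp only [inl, outl, lab, h3', AddMonoidHom.id_apply, Bool.not_true, Bool.false_eq_true,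
          if_false, if_true] at h4
        set y := (S.succ (x, (i, true))).1 with hy
        have h5 := congrArg Subtype.val h4
        simp only [AddSubgroup.coe_add, he] at h5
        have h6 : (y : T) + sa a (S.L y (i, false)) = x + sa a (S.L x (i, true)) := by
          rw [← add_sub_assoc, ← add_sub_assoc, sub_left_inj] at h5
          exact h5
        have h7 : (x : T) + sa a (S.L x (i, true)) ∈ C := by
          apply hclo x h2'
          rw [cd_in _ x.2, hLL, Equiv.symm_apply_apply]
        have h8 : (y : T) = (x : T) + sa a (S.L x (i, true)) + sa a (fl (S.L y (i, false))) := by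
          rw [← h6, sa_fl]; abel
        rw [h8]
        apply hclo _ h7
        rw [cd_out _ (hin _ x.2), ← h8, hLL, fl_fl, Equiv.symm_apply_apply]
    have hDL := hS (y0, (j, true))
    obtain ⟨d1, hd1, d2, hd2, hne⟩ := (Set.one_lt_ncard (Set.toFinite _)).1
      (lt_of_lt_of_le one_lt_two hDL)
    -- the edge of a designated half-edge
    let ed : M × (ι × Bool) → T × ι := fun h =>
      if (S.L h.1 h.2).2 then ((h.1 : T), (S.L h.1 h.2).1) else
        ((h.1 : T) - a (S.L h.1 h.2).1, (S.L h.1 h.2).1)
    have hed : ∀ h, h ∈ S.D → h.2.1 = j ∧ (h.1 : T) ∈ C →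
        ed h ∈ NN ∧ col (ed h).1 (ed h).2 = j ∧ (ed h).1 ∈ C := by
      rintro ⟨x, t⟩ hD ⟨h1, h2⟩
      have h1' : t.1 = j := h1
      have h2' : (x : T) ∈ C := h2
      have hcd : cd a col x (S.L x t) = j := by
        rw [cd_in _ x.2, hLL, Equiv.symm_apply_apply, h1']
      have hda : Dart a NN x (S.L x t) := by
        rw [nn_in _ x.2, hLL, Equiv.symm_apply_apply]
        exact ⟨x.2, hD⟩
      rcases hL : S.L x t with ⟨i, _ | _⟩
      · rw [hL] at hcd hda
        have h3 : ed (x, t) = ((x : T) - a i, i) := by simp [ed, hL]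
        rw [h3]
        refine ⟨hda, hcd, ?_⟩
        have := hclo x h2' (i, false) hcd
        simpa [sa, sub_eq_add_neg] using this
      · rw [hL] at hcd hda
        have h3 : ed (x, t) = ((x : T), i) := by simp [ed, hL]
        rw [h3]
        exact ⟨hda, hcd, h2'⟩
    have hP1 := sameCycle_of_invariant S.succ (fun h => h.2.1 = j ∧ (h.1 : T) ∈ C) hinv
      (x := (y0, (j, true))) ⟨rfl, hy0⟩ hd1.2
    have hP2 := sameCycle_of_invariant S.succ (fun h => h.2.1 = j ∧ (h.1 : T) ∈ C) hinv
      (x := (y0, (j, true))) ⟨rfl, hy0⟩ hd2.2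
    obtain ⟨g1, g2, g3⟩ := hed d1 hd1.1 hP1
    obtain ⟨g4, g5, g6⟩ := hed d2 hd2.1 hP2
    refine ⟨ed d1, g1, ed d2, g4, ?_, g2, g5, g3, g6⟩
    intro heq
    apply hne
    obtain ⟨x1, t1⟩ := d1
    obtain ⟨x2, t2⟩ := d2
    rcases hL1 : S.L x1 t1 with ⟨i1, _ | _⟩ <;> rcases hL2 : S.L x2 t2 with ⟨i2, _ | _⟩
    · simp only [ed, hL1, hL2, Bool.false_eq_true, if_false, Prod.mk.injEq] at heq
      obtain ⟨h1, h2⟩ := heq
      subst h2
      have h3 : x1 = x2 := Subtype.ext (sub_left_inj.1 h1)
      subst h3
      rw [(S.L x1).injective (hL1.trans hL2.symm)]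
    · simp only [ed, hL1, hL2, Bool.false_eq_true, if_false, if_true, Prod.mk.injEq] at heq
      exfalso
      have h1 := hin (i1, false) x1.2
      simp only [sa, Bool.false_eq_true, if_false, ← sub_eq_add_neg] at h1
      rw [heq.1] at h1
      exact h1 x2.2
    · simp only [ed, hL1, hL2, Bool.false_eq_true, if_false, if_true, Prod.mk.injEq] at heq
      exfalso
      have h1 := hin (i2, false) x2.2
      simp only [sa, Bool.false_eq_true, if_false, ← sub_eq_add_neg] at h1
      rw [← heq.1] at h1
      exact h1 x1.2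
    · simp only [ed, hL1, hL2, if_true, Prod.mk.injEq] at heq
      obtain ⟨h1, h2⟩ := heq
      subst h2
      have h3 : x1 = x2 := Subtype.ext h1
      subst h3
      rw [(S.L x1).injective (hL1.trans hL2.symm)]

/-- factorisation of a level of index 2 -/
theorem evenFac_of (hind : IndStmt) [Finite T] (hM : M.index = 2) {s : T} (hs : s ∉ M)
    (a : ι → T) (ha : ∀ i, a i ∉ M) (hinj : Function.Injective a) (hneg : ∀ i j, a i ≠ -a j) :
    Nonempty (Fac M s 2 a) := by
  have hadd : ∀ {x y : T}, x + y ∈ M ↔ (x ∈ M ↔ y ∈ M) := AddSubgroup.add_mem_iff_of_index_two hM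
  have hmem : ∀ d, sa a d - s ∈ M := by
    intro d
    have h1 : sa a d ∉ M := by
      rcases d with ⟨i, _ | _⟩
      · simpa [sa] using ha i
      · simpa [sa] using ha i
    rw [sub_eq_add_neg]
    exact hadd.2 ⟨fun h => absurd h h1, fun h => absurd (by simpa using h) hs⟩
  obtain ⟨S, hS⟩ := start_even (M := M) (fun d => (⟨sa a d - s, hmem d⟩ : M))
  obtain ⟨S', hS', -⟩ := hind M Unit (ι × Bool) _ _ _ _
    (fun y => ⟨0, Subsingleton.elim _ _⟩) S _ (hS _)
  exact fac_of_even hM hs a ha hinj hneg _ (fun d => rfl) S' hS'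

end

end Pool.Agent.CA
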