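import Pool.Agent.CA.Defs

/-!
# The last level: from a bijective `μ` to the identity
-/

set_option autoImplicit false

namespace Pool.Agent.CA

open Equiv

theorem transport {G Q Q0 Sl : Type} [AddCommGroup G] [Finite G] [AddCommGroup Q] [Finite Q]
    [AddCommGroup Q0] [Finite Sl] {e : Sl → G} {sg : Sl → Bool} {nx : Perm Sl} {μ : G →+ Q}
    {μ0 : G →+ Q0} (hμ : Function.Bijective μ) (π : Q →+ Q0) (hπ : ∀ g, π (μ g) = μ0 g)
    (S : St e sg nx μ) (S0 : St e sg nx μ0) (h2 : ∀ h, 2 ≤ (S.DL h).ncard)
    (hr : ∀ h ∈ S.D, (π h.1, h.2) ∈ S0.D ∧ μ0 (lab e S.L h) = μ0 (lab e S0.L (π h.1, h.2))) :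
    ∃ S' : St e sg nx (AddMonoidHom.id G), (∀ h, 2 ≤ (S'.DL h).ncard) ∧ Ref μ0 S' S0 := by
  let E : G ≃ Q := Equiv.ofBijective μ hμ
  let T : G × Sl ≃ Q × Sl := E.prodCongr (Equiv.refl Sl)
  have hE : ∀ g, E g = μ g := fun g => rfl
  have hT : ∀ h : G × Sl, T h = (μ h.1, h.2) := fun h => rfl
  let L' : G → Perm Sl := fun g => S.L (μ g)
  let succ' : Perm (G × Sl) := T.trans (S.succ.trans T.symm)
  have hs : ∀ h, T (succ' h) = S.succ (T h) := fun h => by simp [succ']
  have hs1 : ∀ h, μ (succ' h).1 = (S.succ (T h)).1 := fun h => by rw [← hs h]; rfl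
  have hs2 : ∀ h, (succ' h).2 = (S.succ (T h)).2 := fun h => by rw [← hs h]; rfl
  have hlab : ∀ h, lab e L' h = lab e S.L (T h) := fun h => rfl
  have hin : ∀ h, inl e sg L' h = inl e sg S.L (T h) := fun h => rfl
  have hout : ∀ h, outl e sg L' h = outl e sg S.L (T h) := fun h => rfl
  have hpow : ∀ (k : ℤ) h, T ((succ' ^ k) h) = (S.succ ^ k) (T h) := by
    intro k h
    have : succ' ^ k = T.trans ((S.succ ^ k).trans T.symm) := by
      have h0 : succ' = T.symm.permCongr S.succ := rfl
      have h1 : T.trans ((S.succ ^ k).trans T.symm) = T.symm.permCongr (S.succ ^ k) := rfl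
      rw [h0, h1]
      exact (map_zpow T.symm.permCongrHom S.succ k).symm
    rw [this]
    simp
  let S' : St e sg nx (AddMonoidHom.id G) :=
    { L := L'
      succ := succ'
      bij := by
        intro t
        have h1 : Function.Bijective fun x : G => E (x + AddMonoidHom.id G (e (L' x t))) := by
          have h2 : (fun x : G => E (x + AddMonoidHom.id G (e (L' x t)))) =
              (fun x : Q => x + μ (e (S.L x t))) ∘ E := by
            funext x
            simp [hE, L']
          rw [h2]
          exact (S.bij t).comp E.bijective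
        have h3 : (fun x : G => x + AddMonoidHom.id G (e (L' x t))) =
            E.symm ∘ fun x : G => E (x + AddMonoidHom.id G (e (L' x t))) := by
          funext x
          simp
        rw [h3]
        exact E.symm.bijective.comp h1
      snd := fun h => by rw [hs2, S.snd]; rfl
      fst := by
        intro h
        apply hμ.1
        have h1 := S.fst (T h)
        simp only [AddMonoidHom.id_apply, map_add]
        rw [hs1, hin, hs, hout, h1]
        rfl
      D := T ⁻¹' S.D
      wd := by
        intro h hh h' hh' hx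
        have := S.wd _ hh _ hh' (by rw [hT, hT]; simp [hx])
        exact hμ.1 this
      inj := by
        intro h hh h' hh' hx
        have := S.inj _ hh _ hh' (by
          have h1 := congrArg μ hx
          simp only [AddMonoidHom.id_apply, map_add] at h1
          exact h1)
        exact hμ.1 this }
  refine ⟨S', ?_, ?_⟩
  · intro h
    have h1 : S'.DL h = T ⁻¹' (S.DL (T h)) := by
      ext d
      constructor
      · rintro ⟨hd, k, hk⟩
        exact ⟨hd, k, by rw [← hpow, ← hk]⟩
      · rintro ⟨hd, k, hk⟩
        exact ⟨hd, k, T.injective (by rw [← hk]; exact hpow k h)⟩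
    rw [h1, Set.ncard_preimage_of_injective_subset_range T.injective
      (by rw [T.surjective.range_eq]; exact Set.subset_univ _)]
    exact h2 (T h)
  · intro h hh
    obtain ⟨h1, h3⟩ := hr (T h) hh
    have h4 : (π (T h).1, (T h).2) = (μ0 h.1, h.2) := by rw [hT]; simp [hπ]
    rw [h4] at h1 h3
    exact ⟨h1, h3⟩

end Pool.Agent.CA
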